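import Mathlib
import Pool.Agent.MIR.Defs
import Pool.Agent.MIR.Defs2
import Pool.Agent.H74.FAC.Surf

open MeasureTheory Set Filter Topology Manifold
open scoped ENNReal NNReal ContDiff
open Pool.Agent.MIR (cis cp hol Jw Pic Tan PL ip gd)
open Pool.Agent.H74.Surf

noncomputable section

namespace Pool.Agent.TRG

/-! ## Grid walks and winding numbers modulo 3 -/

/-- Two grid points that are equal or neighbours. -/
def Step (u w : ℤ × ℤ) : Prop :=
  u = w ∨ (u.1 = w.1 ∧ (w.2 = u.2 + 1 ∨ u.2 = w.2 + 1)) ∨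
    (u.2 = w.2 ∧ (w.1 = u.1 + 1 ∨ u.1 = w.1 + 1))

/-- The intersection number of the step from `u` to `w` with the ray that starts in the unit square
with lower left corner `f` and goes to the right. -/
def ray (f u w : ℤ × ℤ) : ZMod 3 :=
  if u.1 = w.1 ∧ f.1 < u.1 ∧ u.2 = f.2 ∧ w.2 = f.2 + 1 then 1
  else if u.1 = w.1 ∧ f.1 < u.1 ∧ w.2 = f.2 ∧ u.2 = f.2 + 1 then -1 else 0

/-- The winding number modulo 3 of the walk `v 0, ..., v N` around the square `f`. -/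
def wind (N : ℕ) (v : ℕ → ℤ × ℤ) (f : ℤ × ℤ) : ZMod 3 :=
  ∑ i ∈ Finset.range N, ray f (v i) (v (i + 1))

/-- The signed number modulo 3 of the passages of the walk through the edge from `u` to `w`. -/
def cur (N : ℕ) (v : ℕ → ℤ × ℤ) (u w : ℤ × ℤ) : ZMod 3 :=
  ∑ i ∈ Finset.range N,
    ((if v i = u ∧ v (i + 1) = w then 1 else 0) - (if v i = w ∧ v (i + 1) = u then 1 else 0))

/-- The sum of the cochain `κ` along the boundary of the unit square with lower left corner `f`. -/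
def curv (κ : ℤ × ℤ → ℤ × ℤ → ZMod 3) (f : ℤ × ℤ) : ZMod 3 :=
  κ (f.1, f.2) (f.1 + 1, f.2) + κ (f.1 + 1, f.2) (f.1 + 1, f.2 + 1) +
    κ (f.1 + 1, f.2 + 1) (f.1, f.2 + 1) + κ (f.1, f.2 + 1) (f.1, f.2)

/-- The grid square (of side `h`) containing `z`. -/
def cell (h : ℝ) (z : ℂ) : ℤ × ℤ := (⌊z.re / h⌋, ⌊z.im / h⌋)

/-- The grid point `v` as a complex number. -/
def gp (h : ℝ) (v : ℤ × ℤ) : ℂ := (h : ℂ) * ((v.1 : ℂ) + (v.2 : ℂ) * Complex.I)

/-- The radial retraction of the grid point `v` to the closed unit disc. -/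
def zr (h : ℝ) (v : ℤ × ℤ) : ℂ := (((max 1 ‖gp h v‖)⁻¹ : ℝ) : ℂ) * gp h v

/-! ## Threefold covers -/

/-- The action of the integers modulo 3 defined by a map `r` with `r (r (r x)) = x`. -/
def act {X : Type} (r : X → X) (j : ZMod 3) (x : X) : X := r^[j.val] x

/-- A cyclic threefold cover `Pi` of the closed unit disc, branched over `P`, with an invariant
pseudo-metric `d`. -/
structure Cov3 {X : Type} (d : X → X → ℝ) (r : X → X) (Pi : X → ℂ) (P : Finset ℂ) : Prop where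
  refl : ∀ x, d x x = 0
  symm : ∀ x y, d x y = d y x
  tri : ∀ x y z, d x z ≤ d x y + d y z
  inv : ∀ x y, d (r x) (r y) = d x y
  cube : ∀ x, r (r (r x)) = x
  proj : ∀ x, Pi (r x) = Pi x
  surj : ∀ z : ℂ, ‖z‖ ≤ 1 → ∃ x, Pi x = z
  lift : ∀ ε > 0, ∃ δ > 0, ∀ x y, ‖Pi x - Pi y‖ < δ → ∃ j : ZMod 3, d x (act r j y) < ε
  free : ∀ R > 0, ∃ δ > 0, ∀ x, (∀ p ∈ P, R ≤ ‖Pi x - p‖) → δ ≤ d x (r x)
  inner : ∀ p ∈ P, ‖p‖ < 1

/-- A cyclic threefold cover with a boundary circle `φ` whose antipodal points are at distance at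
least `π`. -/
structure Fill {X : Type} (d : X → X → ℝ) (r : X → X) (Pi : X → ℂ) (P : Finset ℂ)
    (φ : ℝ → X) : Prop extends Cov3 d r Pi P where
  antip : ∀ t, Real.pi ≤ d (φ t) (φ (t + Real.pi))
  lip : ∀ s t, d (φ s) (φ t) ≤ |s - t|
  rot : ∀ t, r (φ t) = φ (t + 2 * Real.pi / 3)
  bdry : ∀ t, Pi (φ t) = cis (3 * t)
  far : ∀ δ > 0, ∃ R > 0, ∀ x, δ ≤ d x (r x) → ∀ p ∈ P, R ≤ ‖Pi x - p‖

/-- A chain of `N + 1` nodes: the node `a i` consists of a grid point and of a point of `X` that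
lies nearly over it. -/
def Arc {X : Type} (d : X → X → ℝ) (Pi : X → ℂ) (h η : ℝ) (N : ℕ)
    (a : ℕ → (ℤ × ℤ) × X) : Prop :=
  (∀ i ≤ N, ‖Pi (a i).2 - zr h (a i).1‖ ≤ 8 * h) ∧
    ∀ i < N, Step (a i).1 (a (i + 1)).1 ∧ d (a i).2 (a (i + 1)).2 ≤ η

/-- The length of a chain. -/
def cost {X : Type} (d : X → X → ℝ) (N : ℕ) (a : ℕ → (ℤ × ℤ) × X) : ℝ :=
  ∑ i ∈ Finset.range N, d (a i).2 (a (i + 1)).2

/-- The sum of the cochain `L` along a chain. -/
def lsum {X : Type} (L : ℤ × ℤ → ℤ × ℤ → ZMod 3) (N : ℕ) (a : ℕ → (ℤ × ℤ) × X) : ZMod 3 :=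
  ∑ i ∈ Finset.range N, L (a i).1 (a (i + 1)).1

/-- The chain `a 0, ..., a k, b 0, b 1, ...`. -/
def cat {α : Type} (k : ℕ) (a b : ℕ → α) (i : ℕ) : α := if i ≤ k then a i else b (i - (k + 1))

/-- The image of a chain under the action. -/
def tr {X : Type} (r : X → X) (j : ZMod 3) (a : ℕ → (ℤ × ℤ) × X) (i : ℕ) : (ℤ × ℤ) × X :=
  ((a i).1, act r j (a i).2)

/-- There is an odd path through `x` of length at most `c` (in the quotient). -/
def Odd3 {X : Type} (d : X → X → ℝ) (r : X → X) (φ : ℝ → X) (x : X) (c : ℝ) : Prop :=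
  ∃ (t : ℝ) (l : ZMod 3), d (φ t) x + d x (act r l (φ (t + Real.pi))) ≤ c

/-- A short loop: a chain that is closed in the grid, together with an odd path through its base
point, of total length less than `π - lev`. -/
structure Short {X : Type} (d : X → X → ℝ) (r : X → X) (φ : ℝ → X) (Pi : X → ℂ) (h η lev : ℝ)
    (N : ℕ) (a : ℕ → (ℤ × ℤ) × X) (c : ℝ) : Prop where
  arc : Arc d Pi h η N a
  closed : (a N).1 = (a 0).1
  odd : Odd3 d r φ (a 0).2 c
  short : c + cost d N a < Real.pi - lev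

/-- The winding vectors of the short loops. -/
def Cls {X : Type} (d : X → X → ℝ) (r : X → X) (φ : ℝ → X) (Pi : X → ℂ) (P : Finset ℂ)
    (h η lev : ℝ) : Set (P → ZMod 3) :=
  {n | ∃ (N : ℕ) (a : ℕ → (ℤ × ℤ) × X) (c : ℝ), Short d r φ Pi h η lev N a c ∧
    n = fun p : P => wind N (fun i => (a i).1) (cell h (p : ℂ))}

/-! ## The model covers -/

/-- The primitive third root of unity. -/
def om : ℂ := cis (2 * Real.pi / 3)

/-- The model threefold cover of the closed unit disc, branched over `p` only. -/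
def Fp (p w : ℂ) : ℂ := w ^ 3 + ((1 - ‖w‖ ^ 3 : ℝ) : ℂ) * p

/-- The closed unit disc. -/
abbrev Dw : Type := {w : ℂ // ‖w‖ ≤ 1}

/-- The norm of a number is not changed by the rotation. -/
theorem norm_om_mul (w : ℂ) : ‖om * w‖ = ‖w‖ := by
  rw [norm_mul]
  have h : ‖om‖ = 1 := by
    unfold om Pool.Agent.MIR.cis
    exact Complex.norm_exp_ofReal_mul_I _
  rw [h, one_mul]

/-- The rotation of the closed unit disc through `2π/3`. -/
def rotw (w : Dw) : Dw := ⟨om * w.1, by rw [norm_om_mul]; exact w.2⟩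

/-! ## The surface -/

/-- The mean of the distances between the images of two points. -/
def md {M : Type} [MetricSpace M] (r : M → M) (x y : M) : ℝ :=
  (dist x y + dist (r x) (r y) + dist (r (r x)) (r (r y))) / 3

/-- The distance of two orbits. -/
def qd {X : Type} (d : X → X → ℝ) (r : X → X) (x y : X) : ℝ :=
  min (d x y) (min (d x (r y)) (d x (r (r y))))

section

variable {M : Type} [MetricSpace M] [ChartedSpace (EuclideanHalfSpace 2) M]
  [R : RiemannianSpace (𝓡∂ 2) M]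

/-- A conformal automorphism of order 3 that rotates the boundary through `2π/3`. -/
structure CRot (φ : S1 → M) (r : M → M) : Prop where
  smooth : ContMDiff (𝓡∂ 2) (𝓡∂ 2) ∞ r
  cube : ∀ x, r (r (r x)) = x
  conformal : ∀ x, ∃ u : ℝ, Tendsto (fun y => dist (r x) (r y) / dist x y) (𝓝[≠] x) (𝓝 u)
  bdry : ∀ t : ℝ, r (φ (t : ℝ)) = φ ((t + 2 * Real.pi / 3 : ℝ))

/-- The quotient by `r` is a disc, parametrised by the closed unit disc. -/
structure DiscQ (φ : S1 → M) (r : M → M) (P : Finset ℂ) (Pi : M → ℂ) : Prop where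
  cont : Continuous Pi
  ran : range Pi = {z | ‖z‖ ≤ 1}
  fibre : ∀ x y, Pi x = Pi y ↔ (y = x ∨ y = r x ∨ y = r (r x))
  bdry : ∀ t : ℝ, Pi (φ (t : ℝ)) = Complex.exp (3 * t * Complex.I)
  inner : ∀ p ∈ P, ‖p‖ < 1
  fixed : ∀ x, r x = x ↔ Pi x ∈ P
  lip : ∃ K : ℝ, ∀ x y, ∃ z, Pi z = Pi y ∧ dist x z ≤ K * ‖Pi x - Pi y‖
  sect : ∀ z : ℂ, ‖z‖ < 1 → z ∉ P →
    ∃ Ψ : ℂ → M, ∀ᶠ w in 𝓝 z, ContMDiffAt 𝓘(ℝ, ℂ) (𝓡∂ 2) ∞ Ψ w ∧ Pi (Ψ w) = w

/-- A countable family of smooth local sections of the quotient map, and a partition of the open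
disc without the branch points into measurable sets on which they are defined. -/
structure Sects (Pi : M → ℂ) (P : Finset ℂ) (U : ℕ → Set ℂ) (Ψ : ℕ → ℂ → M)
    (S : ℕ → Set ℂ) : Prop where
  opn : ∀ i, IsOpen (U i)
  smooth : ∀ i, ContMDiffOn 𝓘(ℝ, ℂ) (𝓡∂ 2) ∞ (Ψ i) (U i)
  sec : ∀ i, ∀ z ∈ U i, Pi (Ψ i z) = z
  sub : ∀ i, S i ⊆ U i
  meas : ∀ i, MeasurableSet (S i)
  disj : Pairwise fun i j => Disjoint (S i) (S j)
  away : ∀ i, ∀ z ∈ U i, ‖z‖ < 1 ∧ z ∉ P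
  cover : ∀ z : ℂ, ‖z‖ < 1 → z ∉ P → ∃ i, z ∈ S i

/-- The mean of the norms of the images of `v` under the derivatives of `Ψ`, `r ∘ Ψ`, `r ∘ r ∘ Ψ`. -/
def mn (r : M → M) (Ψ : ℂ → M) (z v : ℂ) : ℝ :=
  (√(ip Ψ z v v) + √(ip (r ∘ Ψ) z v v) + √(ip (r ∘ r ∘ Ψ) z v v)) / 3

end

/-- At `p` the map `Ψ` into the metric space `Y` is infinitesimally a map with the norm `n`. -/
structure Infn {Y : Type} [MetricSpace Y] (Ψ : ℂ → Y) (p : ℂ) (n : ℂ → ℝ) : Prop where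
  up : ∀ ε > 0, ∀ᶠ x : ℂ × ℂ in 𝓝 (p, p),
    dist (Ψ x.1) (Ψ x.2) ≤ n (x.1 - x.2) + ε * ‖x.1 - x.2‖
  low : ∀ ε > 0, ∀ᶠ q : ℂ in 𝓝 p, n (q - p) ≤ dist (Ψ p) (Ψ q) + ε * ‖q - p‖

end Pool.Agent.TRG
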