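import Mathlib
import Pool.Agent.TRG.Defs

/-
ACT: the action of ZMod 3 by a map r with r (r (r x)) = x, and the invariance of d.  (40 lines)
PROOF.
act_zero, act_one, act_two: unfold act; (1 : ZMod 3).val = 1, (2 : ZMod 3).val = 2 (rfl or decide), Function.iterate_succ.
act_add: fin_cases i <;> fin_cases j (or revert and decide-like case analysis): both sides are one of x, r x, r (r x) after using h.
cov_nonneg: 0 = d x x <= d x y + d y x = 2 d x y.
cov_inv: iterate C.inv j.val times (induction on the number of iterations).
cov_dist: j = 1: act_one. j = 2: d x (r (r x)) = d (r x) (r (r (r x))) = d (r x) x = d x (r x) by inv, cube, symm.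
cov_proj: iterate C.proj.
-/

open MeasureTheory Set Filter Topology Manifold
open scoped ENNReal NNReal ContDiff
open Pool.Agent.MIR (cis cp hol Jw Pic Tan PL ip gd)
open Pool.Agent.H74.Surf

noncomputable section

namespace Pool.Agent.TRG

variable {X : Type} {d : X → X → ℝ} {r : X → X} {Pi : X → ℂ} {P : Finset ℂ}

theorem act_zero (r : X → X) (x : X) : act r 0 x = x := by
  rfl

theorem act_one (r : X → X) (x : X) : act r 1 x = r x := by
  rfl

theorem act_two (r : X → X) (x : X) : act r 2 x = r (r x) := by
  rfl

theorem act_add (h : ∀ x, r (r (r x)) = x) (i j : ZMod 3) (x : X) :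
    act r (i + j) x = act r i (act r j x) := by
  fin_cases i <;> fin_cases j
  · rfl
  · rfl
  · rfl
  · rfl
  · rfl
  · exact (h x).symm
  · rfl
  · exact (h x).symm
  · exact (h (r x)).symm

theorem cov_nonneg (C : Cov3 d r Pi P) (x y : X) : 0 ≤ d x y := by
  have h1 := C.tri x y x
  rw [C.refl, C.symm y x] at h1
  linarith

theorem cov_inv (C : Cov3 d r Pi P) (j : ZMod 3) (x y : X) :
    d (act r j x) (act r j y) = d x y := by
  unfold act
  induction j.val with
  | zero => rfl
  | succ n ih =>
    rw [Function.iterate_succ_apply', Function.iterate_succ_apply', C.inv, ih]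

theorem cov_dist (C : Cov3 d r Pi P) {j : ZMod 3} (hj : j ≠ 0) (x : X) :
    d x (act r j x) = d x (r x) := by
  fin_cases j
  · exact absurd rfl hj
  · rfl
  · show d x (r (r x)) = d x (r x)
    have h1 := C.inv x (r (r x))
    rw [C.cube, C.symm (r x) x] at h1
    exact h1.symm

theorem cov_proj (C : Cov3 d r Pi P) (j : ZMod 3) (x : X) : Pi (act r j x) = Pi x := by
  unfold act
  induction j.val with
  | zero => rfl
  | succ n ih => rw [Function.iterate_succ_apply', C.proj, ih]

end Pool.Agent.TRG
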