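import Mathlib
import Pool.Agent.TRG.Defs
import Pool.Agent.MIR.Area

/-
ARF: the area of M is at least the sum of the areas of countably many disjoint parametrised pieces.  (130 lines; adapt the proof of MIR area_two in Pool/Agent/MIR/Area.lean)
PROOF. As area_two: finitely many charts e 1, ..., e n in the maximal atlas covering M, disjoint Borel sets T 1, ..., T n, T j contained in the source of e j, covering M (copy). For i and j let
 A i j = S i ∩ Psi i ⁻¹' T j (measurable: area_meas gives U i ∩ Psi i ⁻¹' T j; intersect with S i) and let B i = Psi i '' S i: it is measurable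
 (MeasurableSet.image_of_continuousOn_injOn: complex plane Polish, M second countable or use the version for standard Borel source and countably separated target; alternatively avoid it as follows).
 area_cv is stated for sets of the form U ∩ Psi ⁻¹' T with T Borel; apply it with T = T j ∩ Psi i '' S i, so that U i ∩ Psi i ⁻¹' T = A i j (injectivity), or copy its proof for s = A i j (a measurable
 subset of U i mapped into the source of e j): F = e j o Psi i is differentiable and injective on s, lintegral_image_eq_lintegral_abs_det_fderiv_mul and area_gd give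
   integral over A i j of sqrt gd = integral over F '' (A i j) of sqrt (det gram), and F '' (A i j) is measurable.
 The sets (e j).extend (Psi i '' A i j) for fixed j are pairwise disjoint in i (e j injective on its source; images of Psi i disjoint by hd) and contained in (e j).extend '' T j. So
 sum_i sum_j = sum_j sum_i = sum_j integral over the union <= sum_j integral over (e j).extend '' T j <= area M (lintegral_iUnion, ENNReal.tsum_comm / tsum_finsetSum, lintegral_mono_set; last step as in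
 area_two). And the integral over S i is the sum over j of the integrals over A i j (lintegral_iUnion_le is enough: <=).
-/

open MeasureTheory Set Filter Topology Manifold
open scoped ENNReal NNReal ContDiff
open Pool.Agent.MIR (cis cp hol Jw Pic Tan PL ip gd)
open Pool.Agent.H74.Surf
open Pool.Agent.MIR (area_chain area_gd area_meas areaIso)

noncomputable section

namespace Pool.Agent.TRG

variable {M : Type} [MetricSpace M] [ChartedSpace (EuclideanHalfSpace 2) M]
  [R : RiemannianSpace (𝓡∂ 2) M]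

private lemma arf_cv {Ψ : ℂ → M} {U : Set ℂ} (hU : IsOpen U)
    (hΨ : ContMDiffOn 𝓘(ℝ, ℂ) (𝓡∂ 2) ∞ Ψ U) (hi : InjOn Ψ U)
    {e : OpenPartialHomeomorph M (EuclideanHalfSpace 2)}
    (he : e ∈ IsManifold.maximalAtlas (𝓡∂ 2) ∞ M) {s : Set ℂ} (hsU : s ⊆ U)
    (hsm : MeasurableSet s) (hse : ∀ z ∈ s, Ψ z ∈ e.source) :
    MeasurableSet ((fun w => e.extend (𝓡∂ 2) (Ψ w)) '' s) ∧
    ∫⁻ z in s, ENNReal.ofReal (√(gd Ψ z)) =
      ∫⁻ z in (fun w => e.extend (𝓡∂ 2) (Ψ w)) '' s,
        ENNReal.ofReal (√((gram (𝓡∂ 2) (fun i : Fin 2 => EuclideanSpace.single i (1 : ℝ)) e z).det)) := by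
  set F : ℂ → EuclideanSpace ℝ (Fin 2) := fun w => e.extend (𝓡∂ 2) (Ψ w) with hF
  have hFd : ∀ z ∈ s, DifferentiableAt ℝ F z := fun z hz =>
    (area_chain hU hΨ he (hsU hz) (hse z hz)).1
  have hFi : InjOn F s := by
    intro z hz w hw hzw
    apply hi (hsU hz) (hsU hw)
    have h1 := e.extend_left_inv (I := 𝓡∂ 2) (hse z hz)
    have h2 := e.extend_left_inv (I := 𝓡∂ 2) (hse w hw)
    rw [← h1, ← h2]
    exact congrArg _ hzw
  have hFm : MeasurableSet (F '' s) :=
    hsm.image_of_continuousOn_injOn (fun z hz => (hFd z hz).continuousAt.continuousWithinAt) hFi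
  refine ⟨hFm, ?_⟩
  set t : Set (EuclideanSpace ℝ (Fin 2)) := areaIso.symm ⁻¹' s with ht
  have htm : MeasurableSet t := areaIso.symm.continuous.measurable hsm
  have himg : F '' s = (fun x => F (areaIso.symm x)) '' t := by
    ext y
    constructor
    · rintro ⟨z, hz, rfl⟩
      refine ⟨areaIso z, ?_, ?_⟩
      · simpa [ht] using hz
      · simp
    · rintro ⟨x, hx, rfl⟩
      exact ⟨_, hx, rfl⟩
  have hder : ∀ x ∈ t, HasFDerivWithinAt (fun x => F (areaIso.symm x))
      ((fderiv ℝ F (areaIso.symm x)).comp (areaIso.symm.toContinuousLinearEquiv :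
      EuclideanSpace ℝ (Fin 2) →L[ℝ] ℂ)) t x := by
    intro x hx
    have h1 : HasFDerivAt F (fderiv ℝ F (areaIso.symm x)) (areaIso.symm x) :=
      (hFd _ hx).hasFDerivAt
    have h2 : HasFDerivAt areaIso.symm (areaIso.symm.toContinuousLinearEquiv :
      EuclideanSpace ℝ (Fin 2) →L[ℝ] ℂ) x :=
      (areaIso.symm.toContinuousLinearEquiv : EuclideanSpace ℝ (Fin 2) →L[ℝ] ℂ).hasFDerivAt
    exact (HasFDerivAt.comp x h1 h2).hasFDerivWithinAt
  have hinj : InjOn (fun x => F (areaIso.symm x)) t := by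
    intro x hx y hy hxy
    exact areaIso.symm.injective (hFi hx hy hxy)
  rw [himg, lintegral_image_eq_lintegral_abs_det_fderiv_mul volume htm hder hinj]
  have hmp : MeasurePreserving areaIso.symm := areaIso.symm.measurePreserving
  have hme : MeasurableEmbedding areaIso.symm :=
    areaIso.symm.toHomeomorph.measurableEmbedding
  have h5 := hmp.setLIntegral_comp_preimage_emb hme (fun z => ENNReal.ofReal
    |((fderiv ℝ F z).comp (areaIso.symm.toContinuousLinearEquiv :
      EuclideanSpace ℝ (Fin 2) →L[ℝ] ℂ)).det| * ENNReal.ofReal (√((gram (𝓡∂ 2)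
        (fun i : Fin 2 => EuclideanSpace.single i (1 : ℝ)) e (F z)).det))) s
  rw [h5]
  apply setLIntegral_congr_fun hsm
  intro z hz
  simp only
  rw [area_gd hU hΨ he (hsU hz) (hse z hz), Real.sqrt_mul' _ (sq_nonneg _), Real.sqrt_sq_eq_abs,
    mul_comm, ENNReal.ofReal_mul (abs_nonneg _)]


theorem area_fam [CompactSpace M] {I : Type} [Countable I] {Ψ : I → ℂ → M} {U S : I → Set ℂ}
    (hU : ∀ i, IsOpen (U i)) (hΨ : ∀ i, ContMDiffOn 𝓘(ℝ, ℂ) (𝓡∂ 2) ∞ (Ψ i) (U i))
    (hi : ∀ i, InjOn (Ψ i) (U i)) (hS : ∀ i, S i ⊆ U i) (hm : ∀ i, MeasurableSet (S i))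
    (hd : Pairwise fun i j => ∀ z ∈ S i, ∀ w ∈ S j, Ψ i z ≠ Ψ j w) :
    ∑' i, ∫⁻ z in S i, ENNReal.ofReal (√(gd (Ψ i) z)) ≤ area M := by
  have hsm := R.smooth
  letI : MeasurableSpace M := borel M
  have : BorelSpace M := ⟨rfl⟩
  -- finitely many charts
  obtain ⟨t, ht⟩ := isCompact_univ.elim_finite_subcover (fun x : M => (chartAt (EuclideanHalfSpace 2) x).source)
    (fun x => (chartAt (EuclideanHalfSpace 2) x).open_source)
    (fun x _ => mem_iUnion.2 ⟨x, mem_chart_source _ x⟩)
  set n := t.card with hn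
  let q : Fin n ≃ t := t.equivFin.symm
  let e : Fin n → OpenPartialHomeomorph M (EuclideanHalfSpace 2) := fun i =>
    chartAt (EuclideanHalfSpace 2) (q i : M)
  have he : ∀ i, e i ∈ IsManifold.maximalAtlas (𝓡∂ 2) ∞ M := fun i =>
    IsManifold.chart_mem_maximalAtlas _
  have hcov : ∀ x : M, ∃ i, x ∈ (e i).source := by
    intro x
    have h1 := ht (mem_univ x)
    simp only [mem_iUnion] at h1
    obtain ⟨y, hy, hxy⟩ := h1
    refine ⟨q.symm ⟨y, hy⟩, ?_⟩
    simpa [e] using hxy
  let T : Fin n → Set M := fun i => (e i).source \ ⋃ j : Fin n, ⋃ _ : j < i, (e j).source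
  have hTe : ∀ i, T i ⊆ (e i).source := fun i => sdiff_subset
  have hTm : ∀ i, MeasurableSet (T i) := by
    intro i
    apply (e i).open_source.measurableSet.diff
    exact MeasurableSet.iUnion fun j => MeasurableSet.iUnion fun _ => (e j).open_source.measurableSet
  have hTd : Pairwise fun i j => Disjoint (T i) (T j) := by
    have key : ∀ i j, i < j → Disjoint (T i) (T j) := by
      intro i j hij
      rw [Set.disjoint_left]
      intro x hx hx'
      apply hx'.2
      exact mem_iUnion.2 ⟨i, mem_iUnion.2 ⟨hij, hx.1⟩⟩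
    intro i j hij
    rcases lt_or_gt_of_ne hij with h | h
    · exact key i j h
    · exact (key j i h).symm
  have hTc : ∀ x : M, ∃ i, x ∈ T i := by
    intro x
    obtain ⟨i, hi1, hi2⟩ := WellFounded.has_min (wellFounded_lt (α := Fin n))
      {i | x ∈ (e i).source} (hcov x)
    refine ⟨i, hi1, ?_⟩
    intro h
    simp only [mem_iUnion] at h
    obtain ⟨j, hj, hxj⟩ := h
    exact hi2 j hxj hj
  have hAm : ∀ i j, MeasurableSet (S i ∩ Ψ i ⁻¹' T j) := by
    intro i j
    have h1 := (hm i).inter (area_meas (hU i) (hΨ i).continuousOn (hTm j))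
    have h2 : S i ∩ (U i ∩ Ψ i ⁻¹' T j) = S i ∩ Ψ i ⁻¹' T j := by
      rw [← inter_assoc, inter_eq_left.2 (hS i)]
    rwa [h2] at h1
  have hle : ∀ i, ∫⁻ z in S i, ENNReal.ofReal (√(gd (Ψ i) z)) ≤
      ∑ j, ∫⁻ z in S i ∩ Ψ i ⁻¹' T j, ENNReal.ofReal (√(gd (Ψ i) z)) := by
    intro i
    have h1 : S i = ⋃ j, S i ∩ Ψ i ⁻¹' T j := by
      ext z
      simp only [mem_iUnion, mem_inter_iff, mem_preimage]
      constructor
      · intro hz
        obtain ⟨j, hj⟩ := hTc (Ψ i z)
        exact ⟨j, hz, hj⟩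
      · rintro ⟨j, hz, -⟩
        exact hz
    calc ∫⁻ z in S i, ENNReal.ofReal (√(gd (Ψ i) z))
        = ∫⁻ z in ⋃ j, S i ∩ Ψ i ⁻¹' T j, ENNReal.ofReal (√(gd (Ψ i) z)) := by rw [← h1]
      _ ≤ ∑' j, ∫⁻ z in S i ∩ Ψ i ⁻¹' T j, ENNReal.ofReal (√(gd (Ψ i) z)) := lintegral_iUnion_le _ _
      _ = _ := tsum_fintype _
  have hvol : ∑ i, ∫⁻ z in (e i).extend (𝓡∂ 2) '' (T i), ENNReal.ofReal (Real.sqrt
      (gram (𝓡∂ 2) (fun i : Fin 2 => EuclideanSpace.single i (1 : ℝ)) (e i) z).det) ≤ area M := by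
    unfold area volumeOf
    exact le_iSup_of_le n (le_iSup_of_le e (le_iSup_of_le T (le_iSup_of_le
      ⟨he, hTm, hTe, hTd⟩ le_rfl)))
  refine (ENNReal.tsum_le_tsum hle).trans ?_
  rw [Summable.tsum_finsetSum fun _ _ => ENNReal.summable]
  refine le_trans (Finset.sum_le_sum fun j _ => ?_) hvol
  have hcv := fun i => arf_cv (hU i) (hΨ i) (hi i) (he j) (s := S i ∩ Ψ i ⁻¹' T j)
    (inter_subset_left.trans (hS i)) (hAm i j) (fun z hz => hTe j hz.2)
  have h1 : ∀ i, ∫⁻ z in S i ∩ Ψ i ⁻¹' T j, ENNReal.ofReal (√(gd (Ψ i) z)) = _ := fun i => (hcv i).2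
  rw [tsum_congr h1, ← lintegral_iUnion (fun i => (hcv i).1)]
  · apply lintegral_mono_set
    apply iUnion_subset
    rintro i _ ⟨z, hz, rfl⟩
    exact ⟨Ψ i z, hz.2, rfl⟩
  · intro i i' hii
    rw [Function.onFun, Set.disjoint_left]
    rintro _ ⟨z, hz, rfl⟩ ⟨w, hw, hzw⟩
    apply hd hii z hz.1 w hw.1
    have h3 := (e j).extend_left_inv (I := 𝓡∂ 2) (hTe j hz.2)
    have h4 := (e j).extend_left_inv (I := 𝓡∂ 2) (hTe j hw.2)
    rw [← h3, ← h4]
    exact congrArg _ hzw.symm

end Pool.Agent.TRG
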