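import Mathlib
import Pool.Agent.TRG.Defs
import Pool.Agent.TRG.ARF

open MeasureTheory Set Filter Topology Manifold
open scoped ENNReal NNReal ContDiff
open Pool.Agent.MIR (cis cp hol Jw Pic Tan PL ip gd)
open Pool.Agent.H74.Surf

noncomputable section

namespace Pool.Agent.TRG

variable {M : Type} [MetricSpace M] [ChartedSpace (EuclideanHalfSpace 2) M]
  [R : RiemannianSpace (𝓡∂ 2) M]

private def arsF (r : M → M) (Ψ : ℕ → ℂ → M) (i : ℕ × Fin 3) : ℂ → M :=
  fun z => r^[i.2.val] (Ψ i.1 z)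

theorem area_sects [CompactSpace M] {φ : S1 → M} {r : M → M} {P : Finset ℂ} {Pi : M → ℂ}
    (hr : CRot φ r) (hD : DiscQ φ r P Pi) {U : ℕ → Set ℂ} {Ψ : ℕ → ℂ → M} {S : ℕ → Set ℂ}
    (hS : Sects Pi P U Ψ S) :
    ∑' i, ((∫⁻ z in S i, ENNReal.ofReal (√(gd (Ψ i) z))) +
      (∫⁻ z in S i, ENNReal.ofReal (√(gd (r ∘ Ψ i) z))) +
      (∫⁻ z in S i, ENNReal.ofReal (√(gd (r ∘ r ∘ Ψ i) z)))) ≤ area M := by
  have hproj : ∀ x, Pi (r x) = Pi x := fun x => ((hD.fibre x (r x)).2 (Or.inr (Or.inl rfl))).symm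
  have hprojn : ∀ (n : ℕ) (x : M), Pi (r^[n] x) = Pi x := by
    intro n
    induction n with
    | zero => exact fun x => rfl
    | succ n ih =>
      intro x
      rw [Function.iterate_succ_apply, ih, hproj]
  have hsec : ∀ i : ℕ × Fin 3, ∀ z ∈ U i.1, Pi (arsF r Ψ i z) = z := by
    intro i z hz
    rw [arsF, hprojn, hS.sec i.1 z hz]
  have hsm : ∀ n : ℕ, ContMDiff (𝓡∂ 2) (𝓡∂ 2) ∞ (r^[n]) := by
    intro n
    induction n with
    | zero => exact contMDiff_id
    | succ n ih =>
      rw [Function.iterate_succ]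
      exact ih.comp hr.smooth
  have h := area_fam (M := M) (I := ℕ × Fin 3) (Ψ := arsF r Ψ) (U := fun i => U i.1)
    (S := fun i => S i.1) (fun i => hS.opn i.1)
    (fun i => (hsm i.2.val).comp_contMDiffOn (hS.smooth i.1))
    (fun i z hz w hw hzw => by
      have h1 := congrArg Pi hzw
      rwa [hsec i z hz, hsec i w hw] at h1)
    (fun i => hS.sub i.1) (fun i => hS.meas i.1) ?_
  · rw [ENNReal.tsum_prod' (f := fun i : ℕ × Fin 3 => ∫⁻ z in S i.1,
      ENNReal.ofReal (√(gd (arsF r Ψ i) z)))] at h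
    refine le_trans (le_of_eq ?_) h
    refine tsum_congr fun i => ?_
    rw [tsum_fintype, Fin.sum_univ_three]
    rfl
  · intro i j hij z hz w hw hzw
    have hzU := hS.sub i.1 hz
    have hwU := hS.sub j.1 hw
    have h1 := congrArg Pi hzw
    rw [hsec i z hzU, hsec j w hwU] at h1
    subst h1
    have h2 : i.1 = j.1 := by
      by_contra hne
      exact Set.disjoint_left.1 (hS.disj hne) hz hw
    have h3 : i.2 ≠ j.2 := fun h3 => hij (Prod.ext h2 h3)
    have hnf : r (Ψ i.1 z) ≠ Ψ i.1 z := by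
      intro hf
      have h4 := (hD.fixed (Ψ i.1 z)).1 hf
      rw [hS.sec i.1 z hzU] at h4
      exact (hS.away i.1 z hzU).2 h4
    have hzw' : r^[i.2.val] (Ψ i.1 z) = r^[j.2.val] (Ψ i.1 z) := by
      have h5 : r^[i.2.val] (Ψ i.1 z) = r^[j.2.val] (Ψ j.1 z) := hzw
      rwa [← h2] at h5
    generalize Ψ i.1 z = x at hnf hzw'
    have hc := hr.cube x
    have hinj : Function.Injective r := by
      intro a b hab
      rw [← hr.cube a, ← hr.cube b, hab]
    obtain ⟨a, ia⟩ := i
    obtain ⟨b, ib⟩ := j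
    simp only at hzw' h3
    fin_cases ia <;> fin_cases ib <;> simp only [Fin.zero_eta, Fin.mk_one, Fin.reduceFinMk,
      Function.iterate_zero, id, Function.iterate_succ, Function.comp, ne_eq,
      not_true_eq_false] at hzw' h3
    · exact hnf hzw'.symm
    · apply hnf
      have h6 := congrArg r hzw'
      rw [hc] at h6
      exact h6
    · exact hnf hzw'
    · apply hnf
      exact (hinj hzw').symm
    · apply hnf
      have h6 := congrArg r hzw'
      rw [hc] at h6
      exact h6.symm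
    · apply hnf
      exact hinj hzw'

end Pool.Agent.TRG
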