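import Mathlib
import Pool.Agent.TRG.Defs
import Pool.Agent.MIR.Conf
import Pool.Agent.MIR.Ext

/-
CNF: the mean norm is the norm of a linear map, and the area of the mean metric is at most the mean of the areas.  (70 lines)
PROOF. Psi is injective on U (sec). MIR conf_ip with rho = r at Psi z: ip (r o Psi) z v w = u^2 ip Psi z v w, u >= 0 (hr.conformal (Psi z)). r o Psi is smooth and injective on U
 (r is injective by cube): conf_ip for r o Psi: ip (r o (r o Psi)) z v w = u'^2 ip (r o Psi) z v w = (u' u)^2 ip Psi z v w, u' >= 0. So with a = u, b = u' u: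
 sqrt ip (r o Psi) = a sqrt ip Psi, sqrt ip (r o r o Psi) = b sqrt ip Psi; mn r Psi z v = m sqrt (ip Psi z v v), m = (1 + a + b)/3; gd (r o Psi) = a^4 gd Psi, sqrt = a^2 sqrt gd, same for b.
 MIR exists_T gives T0 with |T0 v| = sqrt ip, |cp (T0 1) (T0 I)| = sqrt gd. T = m T0: |T v| = m |T0 v|, |cp (T 1) (T I)| = m^2 sqrt gd, and m^2 <= (1 + a^2 + b^2)/3 (Cauchy).
-/

open MeasureTheory Set Filter Topology Manifold
open scoped ENNReal NNReal ContDiff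
open Pool.Agent.MIR (cis cp hol Jw Pic Tan PL ip gd)
open Pool.Agent.H74.Surf

noncomputable section

namespace Pool.Agent.TRG

variable {M : Type} [MetricSpace M] [ChartedSpace (EuclideanHalfSpace 2) M]
  [R : RiemannianSpace (𝓡∂ 2) M]

theorem conf_T {φ : S1 → M} {r : M → M} (hr : CRot φ r) {Pi : M → ℂ} {U : Set ℂ}
    (hU : IsOpen U) {Ψ : ℂ → M} (hΨ : ContMDiffOn 𝓘(ℝ, ℂ) (𝓡∂ 2) ∞ Ψ U)
    (hs : ∀ z ∈ U, Pi (Ψ z) = z) {z : ℂ} (hz : z ∈ U) :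
    ∃ T : ℂ →L[ℝ] ℂ, (∀ v, ‖T v‖ = mn r Ψ z v) ∧
      |cp (T 1) (T Complex.I)| ≤ (√(gd Ψ z) + √(gd (r ∘ Ψ) z) + √(gd (r ∘ r ∘ Ψ) z)) / 3 := by
  have hinj : InjOn Ψ U := by
    intro a ha b hb hab
    rw [← hs a ha, ← hs b hb, hab]
  have hrinj : Function.Injective r := by
    intro a b hab
    have := congrArg (fun y => r (r y)) hab
    simpa [hr.cube] using this
  obtain ⟨u, hu0, hu⟩ := Pool.Agent.MIR.conf_ip hU hΨ hinj hr.smooth hz (hr.conformal (Ψ z))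
  have hΨ' : ContMDiffOn 𝓘(ℝ, ℂ) (𝓡∂ 2) ∞ (r ∘ Ψ) U := hr.smooth.comp_contMDiffOn hΨ
  have hinj' : InjOn (r ∘ Ψ) U := by
    intro a ha b hb hab
    exact hinj ha hb (hrinj hab)
  obtain ⟨u', hu0', hu'⟩ := Pool.Agent.MIR.conf_ip hU hΨ' hinj' hr.smooth hz
    (hr.conformal ((r ∘ Ψ) z))
  obtain ⟨T0, hT1, hT2⟩ := Pool.Agent.MIR.exists_T Ψ z
  set b : ℝ := u' * u with hb
  have hb0 : 0 ≤ b := mul_nonneg hu0' hu0
  have hub : ∀ v w, ip (r ∘ r ∘ Ψ) z v w = b ^ 2 * ip Ψ z v w := by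
    intro v w
    rw [hu' v w, hu v w, hb]; ring
  have s1 : ∀ v, √(ip (r ∘ Ψ) z v v) = u * √(ip Ψ z v v) := by
    intro v
    rw [hu v v, Real.sqrt_mul (sq_nonneg u), Real.sqrt_sq hu0]
  have s2 : ∀ v, √(ip (r ∘ r ∘ Ψ) z v v) = b * √(ip Ψ z v v) := by
    intro v
    rw [hub v v, Real.sqrt_mul (sq_nonneg b), Real.sqrt_sq hb0]
  have g1 : √(gd (r ∘ Ψ) z) = u ^ 2 * √(gd Ψ z) := by
    have h : gd (r ∘ Ψ) z = (u ^ 2) ^ 2 * gd Ψ z := by
      unfold gd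
      rw [hu, hu, hu]; ring
    rw [h, Real.sqrt_mul (sq_nonneg _), Real.sqrt_sq (sq_nonneg u)]
  have g2 : √(gd (r ∘ r ∘ Ψ) z) = b ^ 2 * √(gd Ψ z) := by
    have h : gd (r ∘ r ∘ Ψ) z = (b ^ 2) ^ 2 * gd Ψ z := by
      unfold gd
      rw [hub, hub, hub]; ring
    rw [h, Real.sqrt_mul (sq_nonneg _), Real.sqrt_sq (sq_nonneg b)]
  set m : ℝ := (1 + u + b) / 3 with hm
  have hm0 : 0 ≤ m := by positivity
  refine ⟨m • T0, fun v => ?_, ?_⟩
  · rw [ContinuousLinearMap.smul_apply, norm_smul, Real.norm_eq_abs, abs_of_nonneg hm0, hT1 v]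
    unfold mn
    rw [s1 v, s2 v, hm]; ring
  · have hcp : cp ((m • T0) 1) ((m • T0) Complex.I) = m ^ 2 * cp (T0 1) (T0 Complex.I) := by
      rw [ContinuousLinearMap.smul_apply, ContinuousLinearMap.smul_apply]
      unfold cp
      simp only [Complex.real_smul, Complex.mul_re, Complex.mul_im, Complex.ofReal_re,
        Complex.ofReal_im, zero_mul, sub_zero, add_zero]
      ring
    rw [hcp, abs_mul, abs_of_nonneg (sq_nonneg m), hT2, g1, g2]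
    have hg : 0 ≤ √(gd Ψ z) := Real.sqrt_nonneg _
    have hcs : m ^ 2 ≤ (1 + u ^ 2 + b ^ 2) / 3 := by
      rw [hm]
      nlinarith [sq_nonneg (u - 1), sq_nonneg (b - 1), sq_nonneg (u - b)]
    calc m ^ 2 * √(gd Ψ z) ≤ (1 + u ^ 2 + b ^ 2) / 3 * √(gd Ψ z) :=
          mul_le_mul_of_nonneg_right hcs hg
      _ = (√(gd Ψ z) + u ^ 2 * √(gd Ψ z) + b ^ 2 * √(gd Ψ z)) / 3 := by ring

end Pool.Agent.TRG
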