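import Mathlib
import Pool.Agent.TRG.Defs
import Pool.Agent.MIR.Basic

/-
FPA: the model cover Fp p w = w^3 + (1 - |w|^3) p, algebra.  (120 lines)
PROOF. om_cube: om^3 = cis (2 pi) = 1; norm_om: |om| = 1; om_sub: |om - 1| >= 1: om = -1/2 + i sqrt 3/2 (Complex.cos/sin of 2 pi/3), |om - 1|^2 = 3. Another way:
 om <> 1 and 1 + om + om^2 = 0, |om - 1|^2 = |om|^2 + 1 - 2 Re om = 2 - 2 Re om, Re om = cos (2 pi/3) = -1/2.
root3: w^3 = w'^3 implies w' = w or w' = om w or w' = om (om w): (w'-w)(w' - om w)(w' - om^2 w) = w'^3 - w^3 since 1 + om + om^2 = 0 and om^3 = 1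
 (1 + om + om^2 = 0: (om - 1)(1 + om + om^2) = om^3 - 1 = 0, om <> 1).
min3: product of the three distances |w' - om^j w| is |w'^3 - w^3| <= t^3, so one of them is <= t.
Fp_cis: |cis t| = 1, cis t ^3 = cis (3t). Fp_om: (om w)^3 = w^3, |om w| = |w|. Fp_zero: clear.
Fp_norm_le: |Fp| <= |w|^3 + (1 - |w|^3) |p| <= 1; Fp_norm_lt: |w| < 1: |w|^3 + (1 - |w|^3)|p| < |w|^3 + (1 - |w|^3) = 1 since |p| < 1 and |w|^3 < 1.
Fp_lower: Fp p w - Fp p w' = (w^3 - w'^3) - (|w|^3 - |w'|^3) p and | |w^3| - |w'^3| | <= |w^3 - w'^3|.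
Fp_ne: |Fp p w - p| = |w^3 - |w|^3 p| >= |w|^3 - |w|^3 |p|. Fp_ne': the same quantity is <= 2 |w|^3.
Fp_finite: for each q in P the set {w : Fp p w = q} is finite: if w0 is in it then Fp_lower gives w^3 = w0^3, so w is one of w0, om w0, om om w0. Finite union.
-/

open MeasureTheory Set Filter Topology Manifold
open scoped ENNReal NNReal ContDiff
open Pool.Agent.MIR (cis cp hol Jw Pic Tan PL ip gd)
open Pool.Agent.H74.Surf

noncomputable section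

namespace Pool.Agent.TRG

theorem norm_om : ‖om‖ = 1 := Pool.Agent.MIR.norm_cis _

theorem om_cube : om ^ 3 = 1 := by
  unfold om Pool.Agent.MIR.cis
  rw [← Complex.exp_nat_mul]
  have h : ((3 : ℕ) : ℂ) * (((2 * Real.pi / 3 : ℝ) : ℂ) * Complex.I) = 2 * Real.pi * Complex.I := by
    push_cast
    ring
  rw [h, Complex.exp_two_pi_mul_I]

private theorem fpa_re : om.re = -1 / 2 := by
  unfold om
  rw [Pool.Agent.MIR.cis_re]
  have h : 2 * Real.pi / 3 = Real.pi - Real.pi / 3 := by ring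
  rw [h, Real.cos_pi_sub, Real.cos_pi_div_three]
  norm_num

theorem om_sub : 1 ≤ ‖om - 1‖ := by
  have h1 := Complex.abs_re_le_norm (om - 1)
  have h2 : (om - 1).re = -3 / 2 := by
    rw [Complex.sub_re, fpa_re, Complex.one_re]
    norm_num
  rw [h2] at h1
  have h3 : |(-3 / 2 : ℝ)| = 3 / 2 := by
    rw [abs_of_neg (by norm_num)]
    norm_num
  rw [h3] at h1
  linarith

private theorem fpa_sum : 1 + om + om ^ 2 = 0 := by
  have h1 : (om - 1) * (1 + om + om ^ 2) = 0 := by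
    linear_combination om_cube
  rcases mul_eq_zero.1 h1 with h | h
  · have h2 := om_sub
    rw [h, norm_zero] at h2
    exact absurd h2 (by norm_num)
  · exact h

private theorem fpa_prod (w w' : ℂ) : (w' - w) * (w' - om * w) * (w' - om * (om * w)) = w' ^ 3 - w ^ 3 := by
  linear_combination (-(w * w' ^ 2) + om * w ^ 2 * w') * fpa_sum - w ^ 3 * om_cube

theorem root3 {w w' : ℂ} (h : w ^ 3 = w' ^ 3) : w' = w ∨ w' = om * w ∨ w' = om * (om * w) := by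
  have h1 := fpa_prod w w'
  rw [h, sub_self] at h1
  rcases mul_eq_zero.1 h1 with h2 | h2
  · rcases mul_eq_zero.1 h2 with h3 | h3
    · exact Or.inl (sub_eq_zero.1 h3)
    · exact Or.inr (Or.inl (sub_eq_zero.1 h3))
  · exact Or.inr (Or.inr (sub_eq_zero.1 h2))

theorem min3 {w w' : ℂ} {t : ℝ} (ht : 0 ≤ t) (h : ‖w' ^ 3 - w ^ 3‖ ≤ t ^ 3) :
    ‖w' - w‖ ≤ t ∨ ‖w' - om * w‖ ≤ t ∨ ‖w' - om * (om * w)‖ ≤ t := by
  by_contra hc
  push Not at hc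
  obtain ⟨h1, h2, h3⟩ := hc
  rw [← fpa_prod, norm_mul, norm_mul] at h
  have h4 : t * t < ‖w' - w‖ * ‖w' - om * w‖ := mul_lt_mul'' h1 h2 ht ht
  have h5 : t * t * t < ‖w' - w‖ * ‖w' - om * w‖ * ‖w' - om * (om * w)‖ :=
    mul_lt_mul'' h4 h3 (mul_nonneg ht ht) ht
  have h6 : t ^ 3 = t * t * t := by ring
  rw [h6] at h
  exact absurd h (not_le.2 h5)

theorem Fp_cis (p : ℂ) (t : ℝ) : Fp p (cis t) = cis (3 * t) := by
  unfold Fp
  rw [Pool.Agent.MIR.norm_cis]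
  unfold Pool.Agent.MIR.cis
  rw [← Complex.exp_nat_mul]
  have h : ((3 : ℕ) : ℂ) * ((t : ℂ) * Complex.I) = ((3 * t : ℝ) : ℂ) * Complex.I := by
    push_cast
    ring
  rw [h]
  simp

theorem Fp_om (p w : ℂ) : Fp p (om * w) = Fp p w := by
  unfold Fp
  rw [norm_om_mul, mul_pow, om_cube, one_mul]

theorem Fp_zero (p : ℂ) : Fp p 0 = p := by
  simp [Fp]

private theorem fpa_le {p w : ℂ} (hw : ‖w‖ ≤ 1) : ‖Fp p w‖ ≤ ‖w‖ ^ 3 + (1 - ‖w‖ ^ 3) * ‖p‖ := by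
  unfold Fp
  refine (norm_add_le _ _).trans ?_
  rw [norm_pow, norm_mul, Complex.norm_real, Real.norm_of_nonneg]
  have := pow_le_one₀ (norm_nonneg w) hw (n := 3)
  linarith

theorem Fp_norm_le {p w : ℂ} (hp : ‖p‖ ≤ 1) (hw : ‖w‖ ≤ 1) : ‖Fp p w‖ ≤ 1 := by
  have h1 := fpa_le (p := p) hw
  have h2 := pow_le_one₀ (norm_nonneg w) hw (n := 3)
  have h3 : (1 - ‖w‖ ^ 3) * ‖p‖ ≤ (1 - ‖w‖ ^ 3) * 1 := mul_le_mul_of_nonneg_left hp (by linarith)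
  linarith

theorem Fp_norm_lt {p w : ℂ} (hp : ‖p‖ < 1) (hw : ‖w‖ < 1) : ‖Fp p w‖ < 1 := by
  have h1 := fpa_le (p := p) hw.le
  have h2 : ‖w‖ ^ 3 < 1 := pow_lt_one₀ (norm_nonneg w) hw (by norm_num)
  have h3 : (1 - ‖w‖ ^ 3) * ‖p‖ < (1 - ‖w‖ ^ 3) * 1 := mul_lt_mul_of_pos_left hp (by linarith)
  linarith

theorem Fp_lower (p w w' : ℂ) :
    (1 - ‖p‖) * ‖w ^ 3 - w' ^ 3‖ ≤ ‖Fp p w - Fp p w'‖ := by
  have h1 : Fp p w - Fp p w' = (w ^ 3 - w' ^ 3) - ((‖w‖ ^ 3 - ‖w'‖ ^ 3 : ℝ) : ℂ) * p := by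
    unfold Fp
    push_cast
    ring
  rw [h1]
  have h2 := norm_sub_norm_le (w ^ 3 - w' ^ 3) (((‖w‖ ^ 3 - ‖w'‖ ^ 3 : ℝ) : ℂ) * p)
  rw [norm_mul, Complex.norm_real, Real.norm_eq_abs] at h2
  have h3 : |‖w‖ ^ 3 - ‖w'‖ ^ 3| ≤ ‖w ^ 3 - w' ^ 3‖ := by
    rw [← norm_pow, ← norm_pow]
    exact abs_norm_sub_norm_le _ _
  have h4 := mul_le_mul_of_nonneg_right h3 (norm_nonneg p)
  linarith

theorem Fp_ne (p w : ℂ) : (1 - ‖p‖) * ‖w‖ ^ 3 ≤ ‖Fp p w - p‖ := by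
  have h1 := Fp_lower p w 0
  rw [Fp_zero] at h1
  have h2 : w ^ 3 - (0 : ℂ) ^ 3 = w ^ 3 := by ring
  rw [h2, norm_pow] at h1
  exact h1

theorem Fp_ne' {p : ℂ} (hp : ‖p‖ ≤ 1) (w : ℂ) : ‖Fp p w - p‖ ≤ 2 * ‖w‖ ^ 3 := by
  have h1 : Fp p w - p = w ^ 3 - ((‖w‖ ^ 3 : ℝ) : ℂ) * p := by
    unfold Fp
    push_cast
    ring
  rw [h1]
  refine (norm_sub_le _ _).trans ?_
  have h0 : 0 ≤ ‖w‖ ^ 3 := by positivity
  rw [norm_pow, norm_mul, Complex.norm_real, Real.norm_of_nonneg h0]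
  have h2 : ‖w‖ ^ 3 * ‖p‖ ≤ ‖w‖ ^ 3 * 1 := mul_le_mul_of_nonneg_left hp h0
  linarith

theorem Fp_finite {p : ℂ} (hp : ‖p‖ < 1) (P : Finset ℂ) : (Fp p ⁻¹' (P : Set ℂ)).Finite := by
  refine Set.Finite.preimage' P.finite_toSet fun q _ => ?_
  rcases (Fp p ⁻¹' {q}).eq_empty_or_nonempty with h | ⟨w0, h0⟩
  · rw [h]
    exact Set.finite_empty
  · refine Set.Finite.subset (Set.toFinite {w0, om * w0, om * (om * w0)}) fun w hw => ?_
    have e1 : Fp p w0 = q := h0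
    have e2 : Fp p w = q := hw
    have h1 := Fp_lower p w0 w
    rw [e1, e2, sub_self, norm_zero] at h1
    have h2 : ‖w0 ^ 3 - w ^ 3‖ ≤ 0 := by
      by_contra hc
      have h3 := mul_pos (by linarith : 0 < 1 - ‖p‖) (not_le.1 hc)
      linarith
    have h4 : w0 ^ 3 = w ^ 3 := sub_eq_zero.1 (norm_le_zero_iff.1 h2)
    rcases root3 h4 with h5 | h5 | h5
    · exact Or.inl h5
    · exact Or.inr (Or.inl h5)
    · exact Or.inr (Or.inr h5)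

end Pool.Agent.TRG
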