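import Mathlib
import Pool.Agent.TRG.Defs
import Pool.Agent.TRG.FPA

/-
FPB: the model cover: surjectivity, Lipschitz bound, derivative.  (100 lines)
PROOF. Fp_surj: u(s) = z - (1 - s) p, g(s) = |u(s)| - s on [0,1]: g(0) >= 0, g(1) = |z| - 1 <= 0, so |u(s)| = s for some s in [0,1] (intermediate value theorem). Choose w with
 w^3 = u(s) (IsAlgClosed.exists_pow_nat_eq or w = u^(1/3)); |w|^3 = s <= 1, so |w| <= 1, and Fp p w = u(s) + (1 - s) p = z.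
Fp_lip: on the closed unit ball |w^3 - w'^3| <= 3 |w - w'| and ||w|^3 - |w'|^3| <= 3 |w - w'|, |p| <= 1: constant 6.
Fp_strict: w <> 0: the norm is smooth at w (contDiffAt_norm ℝ hw), so Fp p is ContDiffAt ℝ 1 at w; ContDiffAt.hasStrictFDerivAt.
-/

open MeasureTheory Set Filter Topology Manifold
open scoped ENNReal NNReal ContDiff
open Pool.Agent.MIR (cis cp hol Jw Pic Tan PL ip gd)
open Pool.Agent.H74.Surf

noncomputable section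

namespace Pool.Agent.TRG

theorem Fp_surj {p z : ℂ} (hp : ‖p‖ < 1) (hz : ‖z‖ ≤ 1) : ∃ w : ℂ, ‖w‖ ≤ 1 ∧ Fp p w = z := by
  have hcont : ContinuousOn (fun s : ℝ => ‖z - ((1 - s : ℝ) : ℂ) * p‖ - s) (Icc 0 1) := by
    apply Continuous.continuousOn
    fun_prop
  have hiv := intermediate_value_Icc' (zero_le_one' ℝ) hcont
  have h0 : (0 : ℝ) ∈ Icc ((fun s : ℝ => ‖z - ((1 - s : ℝ) : ℂ) * p‖ - s) 1)
      ((fun s : ℝ => ‖z - ((1 - s : ℝ) : ℂ) * p‖ - s) 0) := by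
    constructor
    · simp only [sub_self, Complex.ofReal_zero, zero_mul, sub_zero]
      linarith
    · simp only [sub_zero]
      exact norm_nonneg _
  obtain ⟨s, hs, hs0⟩ := hiv h0
  simp only at hs0
  obtain ⟨w, hw⟩ := IsAlgClosed.exists_pow_nat_eq (z - ((1 - s : ℝ) : ℂ) * p) (n := 3) (by norm_num)
  have hn : ‖w‖ ^ 3 = s := by
    rw [← norm_pow, hw]
    linarith
  refine ⟨w, ?_, ?_⟩
  · have h1 : ‖w‖ ^ 3 ≤ 1 := by rw [hn]; exact hs.2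
    exact (pow_le_one_iff_of_nonneg (norm_nonneg w) (by norm_num)).mp h1
  · unfold Fp
    rw [hw, hn]
    ring

private theorem cube_lip {x y : ℂ} (hx : ‖x‖ ≤ 1) (hy : ‖y‖ ≤ 1) :
    ‖x ^ 3 - y ^ 3‖ ≤ 3 * ‖x - y‖ := by
  have h1 : x ^ 3 - y ^ 3 = (x ^ 2 + x * y + y ^ 2) * (x - y) := by ring
  rw [h1, norm_mul]
  refine mul_le_mul_of_nonneg_right ?_ (norm_nonneg _)
  have h2 : ‖x ^ 2 + x * y + y ^ 2‖ ≤ ‖x ^ 2‖ + ‖x * y‖ + ‖y ^ 2‖ :=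
    (norm_add_le _ _).trans (by gcongr; exact norm_add_le _ _)
  have h3 : ‖x ^ 2‖ ≤ 1 := by
    rw [norm_pow]
    exact pow_le_one₀ (norm_nonneg _) hx
  have h4 : ‖y ^ 2‖ ≤ 1 := by
    rw [norm_pow]
    exact pow_le_one₀ (norm_nonneg _) hy
  have h5 : ‖x * y‖ ≤ 1 := by
    rw [norm_mul]
    exact mul_le_one₀ hx (norm_nonneg _) hy
  linarith

theorem Fp_lip {p : ℂ} (hp : ‖p‖ ≤ 1) : LipschitzOnWith 6 (Fp p) (Metric.closedBall 0 1) := by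
  refine LipschitzOnWith.of_dist_le_mul fun x hx y hy => ?_
  rw [mem_closedBall_zero_iff] at hx hy
  rw [dist_eq_norm, dist_eq_norm]
  have h1 : Fp p x - Fp p y = (x ^ 3 - y ^ 3) - ((‖x‖ ^ 3 - ‖y‖ ^ 3 : ℝ) : ℂ) * p := by
    unfold Fp
    push_cast
    ring
  rw [h1]
  have h2 := cube_lip hx hy
  have h3 : ‖((‖x‖ ^ 3 - ‖y‖ ^ 3 : ℝ) : ℂ) * p‖ ≤ 3 * ‖x - y‖ := by
    rw [norm_mul, Complex.norm_real, Real.norm_eq_abs, ← norm_pow, ← norm_pow]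
    have h4 := abs_norm_sub_norm_le (x ^ 3) (y ^ 3)
    calc |‖x ^ 3‖ - ‖y ^ 3‖| * ‖p‖ ≤ |‖x ^ 3‖ - ‖y ^ 3‖| * 1 := by gcongr
      _ ≤ 3 * ‖x - y‖ := by linarith
  have h5 := norm_sub_le (x ^ 3 - y ^ 3) (((‖x‖ ^ 3 - ‖y‖ ^ 3 : ℝ) : ℂ) * p)
  have h6 : ((6 : ℝ≥0) : ℝ) = 6 := by norm_num
  rw [h6]
  linarith

theorem Fp_strict (p : ℂ) {w : ℂ} (hw : w ≠ 0) :
    HasStrictFDerivAt (Fp p) (fderiv ℝ (Fp p) w) w := by
  have h1 : ContDiffAt ℝ 1 (fun w : ℂ => ‖w‖) w := contDiffAt_norm ℝ hw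
  have h2 : ContDiffAt ℝ 1 (fun w : ℂ => (1 - ‖w‖ ^ 3 : ℝ)) w := contDiffAt_const.sub (h1.pow 3)
  have h3 : ContDiffAt ℝ 1 (fun w : ℂ => ((1 - ‖w‖ ^ 3 : ℝ) : ℂ)) w :=
    Complex.ofRealCLM.contDiff.contDiffAt.comp w h2
  have h4 : ContDiffAt ℝ 1 (fun w : ℂ => w ^ 3) w := contDiffAt_id.pow 3
  have h5 : ContDiffAt ℝ 1 (Fp p) w := h4.add (h3.mul contDiffAt_const)
  exact h5.hasStrictFDerivAt one_ne_zero

end Pool.Agent.TRG
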