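import Mathlib
import Pool.Agent.TRG.Defs

/-
ICP: composition of an infinitesimal norm with a strictly differentiable map.  (60 lines)
PROOF. n v = |T v|, so n v <= n v' + |T| |v - v'|. up: given eps, choose e1 with e1 (|F'| + 1) <= eps/2 and e2 with (|T| + e1) e2 <= eps/2, e2 <= 1. Strict differentiability:
 |F x1 - F x2 - F' (x1 - x2)| <= e2 |x1 - x2| near (w,w) (hF.isLittleO). (F x1, F x2) tends to (F w, F w). So
 dist (Phi F x1) (Phi F x2) <= n (F x1 - F x2) + e1 |F x1 - F x2| <= n (F' (x1-x2)) + |T| e2 |x1-x2| + e1 (|F'| + e2) |x1 - x2| <= n (F' (x1 - x2)) + eps |x1 - x2|.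
low: the same with x1 = q, x2 = w: n (F' (q - w)) <= n (F q - F w) + |T| e2 |q - w| <= dist (Phi (F w)) (Phi (F q)) + e1 |F q - F w| + |T| e2 |q - w|.
-/

open MeasureTheory Set Filter Topology Manifold
open scoped ENNReal NNReal ContDiff
open Pool.Agent.MIR (cis cp hol Jw Pic Tan PL ip gd)
open Pool.Agent.H74.Surf

noncomputable section

namespace Pool.Agent.TRG

private theorem icp_const {K t ε : ℝ} (hK : 0 ≤ K) (ht : 0 ≤ t) (hε : 0 < ε) :
    ∃ e1 e2 : ℝ, 0 < e1 ∧ 0 < e2 ∧ t * e2 + e1 * (K + e2) ≤ ε := by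
  refine ⟨ε / (2 * (K + 1)), min 1 (ε / (2 * (t + ε / (2 * (K + 1)) + 1))), by positivity, by positivity, ?_⟩
  set e1 := ε / (2 * (K + 1)) with he1
  have h1 : 0 < e1 := by positivity
  set e2 := min 1 (ε / (2 * (t + e1 + 1))) with he2
  have h2 : 0 < e2 := by positivity
  have h3 : e2 ≤ ε / (2 * (t + e1 + 1)) := min_le_right _ _
  have h4 : e1 * K ≤ ε / 2 := by
    rw [he1, div_mul_eq_mul_div, div_le_div_iff₀ (by positivity) (by norm_num)]
    nlinarith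
  have h5 : (t + e1) * e2 ≤ ε / 2 := by
    rw [le_div_iff₀ (by positivity)] at h3
    nlinarith
  nlinarith

private theorem icp_est {F' : ℂ →L[ℝ] ℂ} {n : ℂ → ℝ} {T : ℂ →L[ℝ] ℂ} (hT : ∀ v, ‖T v‖ = n v) {e2 : ℝ}
    {u v : ℂ} (h : ‖u - F' v‖ ≤ e2 * ‖v‖) :
    n u ≤ n (F' v) + ‖T‖ * e2 * ‖v‖ ∧ n (F' v) ≤ n u + ‖T‖ * e2 * ‖v‖ ∧ ‖u‖ ≤ (‖F'‖ + e2) * ‖v‖ := by
  have h1 : ‖T (u - F' v)‖ ≤ ‖T‖ * (e2 * ‖v‖) :=
    (T.le_opNorm _).trans (mul_le_mul_of_nonneg_left h (norm_nonneg _))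
  rw [map_sub] at h1
  have h2 := norm_sub_norm_le (T u) (T (F' v))
  have h3 := norm_sub_norm_le (T (F' v)) (T u)
  rw [norm_sub_rev (T (F' v)) (T u)] at h3
  rw [hT, hT] at h2 h3
  have h4 := F'.le_opNorm v
  have h5 := norm_sub_norm_le u (F' v)
  refine ⟨by linarith, by linarith, by linarith⟩

theorem inf_comp {Y : Type} [MetricSpace Y] {Φ : ℂ → Y} {F : ℂ → ℂ} {F' : ℂ →L[ℝ] ℂ} {w : ℂ}
    (hF : HasStrictFDerivAt F F' w) {n : ℂ → ℝ} {T : ℂ →L[ℝ] ℂ} (hT : ∀ v, ‖T v‖ = n v)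
    (hn : Infn Φ (F w) n) : Infn (Φ ∘ F) w (fun v => n (F' v)) := by
  refine ⟨?_, ?_⟩
  · intro ε hε
    obtain ⟨e1, e2, h1, h2, h12⟩ := icp_const (norm_nonneg F') (norm_nonneg T) hε
    have a1 := hF.isLittleO.def h2
    have ht : Tendsto (fun x : ℂ × ℂ => (F x.1, F x.2)) (𝓝 (w, w)) (𝓝 (F w, F w)) := by
      have hc := hF.continuousAt
      exact (hc.tendsto.comp continuousAt_fst.tendsto).prodMk_nhds (hc.tendsto.comp continuousAt_snd.tendsto)
    have a2 := ht.eventually (hn.up e1 h1)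
    filter_upwards [a1, a2] with x b1 b2
    obtain ⟨c1, -, c3⟩ := icp_est hT b1
    have hx := norm_nonneg (x.1 - x.2)
    have c4 := mul_le_mul_of_nonneg_left c3 h1.le
    have c5 := mul_le_mul_of_nonneg_right h12 hx
    show dist (Φ (F x.1)) (Φ (F x.2)) ≤ n (F' (x.1 - x.2)) + ε * ‖x.1 - x.2‖
    linarith
  · intro ε hε
    obtain ⟨e1, e2, h1, h2, h12⟩ := icp_const (norm_nonneg F') (norm_nonneg T) hε
    have a1 := hF.isLittleO.def h2
    have hp : Tendsto (fun q : ℂ => (q, w)) (𝓝 w) (𝓝 (w, w)) := tendsto_id.prodMk_nhds tendsto_const_nhds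
    have a1' := hp.eventually a1
    have a2 := hF.continuousAt.tendsto.eventually (hn.low e1 h1)
    filter_upwards [a1', a2] with q b1 b2
    obtain ⟨-, c2, c3⟩ := icp_est hT b1
    have hx := norm_nonneg (q - w)
    have c4 := mul_le_mul_of_nonneg_left c3 h1.le
    have c5 := mul_le_mul_of_nonneg_right h12 hx
    show n (F' (q - w)) ≤ dist (Φ (F w)) (Φ (F q)) + ε * ‖q - w‖
    linarith

end Pool.Agent.TRG
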