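import Mathlib
import Pool.Agent.TRG.Defs
import Pool.Agent.MIR.RUp
import Pool.Agent.MIR.RLow

/-
INQ: the infinitesimal norm of the quotient metric is the mean norm.  (100 lines)
PROOF. Psi, r o Psi, r o r o Psi are smooth on U (hr.smooth). MIR riem_up and riem_low hold for the three of them at z (eps each).
up: dist (Q x1) (Q x2) for x1, x2 near z (in U): x_i = Pi (Psi x_i), so it is qd (md r) r (Psi x1) (Psi x2) <= md r (Psi x1) (Psi x2) = mean of the three distances
 <= mn r Psi z (x1 - x2) + eps |x1 - x2| (riem_up).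
low: let y = Psi z; r y <> y (hD.fixed, z not in P), hence also r (r y) <> y; md r y (r y) > 0, md r y (r (r y)) > 0; let del be the minimum. For q near z, md r (Psi z) (Psi q) < del/2
 (continuity of Psi, r), so md r (Psi z) (r (Psi q)) >= md r y (r y) - md r (r y) (r (Psi q)) = md r y (r y) - md r y (Psi q) >= del/2 > md r (Psi z) (Psi q), and the same for r r; hence
 qd (md r) r (Psi z) (Psi q) = md r (Psi z) (Psi q) = mean of the three distances >= mn r Psi z (q - z) - eps |q - z| (riem_low three times).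
 (md r (r x) (r y) = md r x y by cube.)
-/

open MeasureTheory Set Filter Topology Manifold
open scoped ENNReal NNReal ContDiff
open Pool.Agent.MIR (cis cp hol Jw Pic Tan PL ip gd)
open Pool.Agent.H74.Surf

noncomputable section

namespace Pool.Agent.TRG

variable {M : Type} [MetricSpace M] [ChartedSpace (EuclideanHalfSpace 2) M]
  [R : RiemannianSpace (𝓡∂ 2) M]

omit [ChartedSpace (EuclideanHalfSpace 2) M] R in
private lemma inq_symm (r : M → M) (x y : M) : md r x y = md r y x := by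
  unfold md
  rw [dist_comm x, dist_comm (r x), dist_comm (r (r x))]

omit [ChartedSpace (EuclideanHalfSpace 2) M] R in
private lemma inq_tri (r : M → M) (x y z : M) : md r x z ≤ md r x y + md r y z := by
  unfold md
  have h1 := dist_triangle x y z
  have h2 := dist_triangle (r x) (r y) (r z)
  have h3 := dist_triangle (r (r x)) (r (r y)) (r (r z))
  linarith

omit [ChartedSpace (EuclideanHalfSpace 2) M] R in
private lemma inq_inv {r : M → M} (hc : ∀ x, r (r (r x)) = x) (x y : M) :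
    md r (r x) (r y) = md r x y := by
  unfold md
  rw [hc, hc]
  ring

omit [ChartedSpace (EuclideanHalfSpace 2) M] R in
private lemma inq_pos {r : M → M} {x y : M} (h : x ≠ y) : 0 < md r x y := by
  unfold md
  have h1 := dist_pos.2 h
  have h2 : 0 ≤ dist (r x) (r y) := dist_nonneg
  have h3 : 0 ≤ dist (r (r x)) (r (r y)) := dist_nonneg
  linarith

theorem inf_Q {φ : S1 → M} {r : M → M} {P : Finset ℂ} {Pi : M → ℂ} (hr : CRot φ r)
    (hD : DiscQ φ r P Pi) {Y : Type} [MetricSpace Y] {Q : ℂ → Y}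
    (hQ : ∀ x y, dist (Q (Pi x)) (Q (Pi y)) = qd (md r) r x y) {U : Set ℂ} (hU : IsOpen U)
    {Ψ : ℂ → M} (hΨ : ContMDiffOn 𝓘(ℝ, ℂ) (𝓡∂ 2) ∞ Ψ U) (hs : ∀ z ∈ U, Pi (Ψ z) = z) {z : ℂ}
    (hz : z ∈ U) (hzP : z ∉ P) : Infn Q z (mn r Ψ z) := by
  have hc := hr.cube
  have h1 : ContMDiffOn 𝓘(ℝ, ℂ) (𝓡∂ 2) ∞ (r ∘ Ψ) U := hr.smooth.comp_contMDiffOn hΨ
  have h2 : ContMDiffOn 𝓘(ℝ, ℂ) (𝓡∂ 2) ∞ (r ∘ r ∘ Ψ) U := hr.smooth.comp_contMDiffOn h1
  constructor
  · intro ε hε
    have a0 := Pool.Agent.MIR.riem_up hU hΨ hz hε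
    have a1 := Pool.Agent.MIR.riem_up hU h1 hz hε
    have a2 := Pool.Agent.MIR.riem_up hU h2 hz hε
    have aU : ∀ᶠ x : ℂ × ℂ in 𝓝 (z, z), x.1 ∈ U ∧ x.2 ∈ U := by
      have := (hU.prod hU).mem_nhds (x := (z, z)) ⟨hz, hz⟩
      filter_upwards [this] with x hx using hx
    filter_upwards [a0, a1, a2, aU] with x b0 b1 b2 bU
    have e : dist (Q x.1) (Q x.2) ≤ md r (Ψ x.1) (Ψ x.2) := by
      have := hQ (Ψ x.1) (Ψ x.2)
      rw [hs _ bU.1, hs _ bU.2] at this
      rw [this]
      exact min_le_left _ _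
    refine e.trans ?_
    unfold md mn
    simp only [Function.comp] at b1 b2 ⊢
    linarith
  · intro ε hε
    have a0 := Pool.Agent.MIR.riem_low hU hΨ hz hε
    have a1 := Pool.Agent.MIR.riem_low hU h1 hz hε
    have a2 := Pool.Agent.MIR.riem_low hU h2 hz hε
    have aU : ∀ᶠ q : ℂ in 𝓝 z, q ∈ U := hU.mem_nhds hz
    have hf : r (Ψ z) ≠ Ψ z := by
      intro h
      apply hzP
      have := (hD.fixed (Ψ z)).1 h
      rwa [hs z hz] at this
    have hf2 : r (r (Ψ z)) ≠ Ψ z := by
      intro h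
      apply hf
      have := congrArg r h
      rw [hc] at this
      exact this.symm
    have p1 : 0 < md r (Ψ z) (r (Ψ z)) := inq_pos hf.symm
    have p2 : 0 < md r (Ψ z) (r (r (Ψ z))) := inq_pos hf2.symm
    obtain ⟨δ, hδ⟩ : ∃ δ : ℝ, δ = min (md r (Ψ z) (r (Ψ z))) (md r (Ψ z) (r (r (Ψ z)))) := ⟨_, rfl⟩
    have hδ0 : 0 < δ := by
      rw [hδ]
      exact lt_min p1 p2
    have hδ1 : δ ≤ md r (Ψ z) (r (Ψ z)) := by
      rw [hδ]
      exact min_le_left _ _
    have hδ2 : δ ≤ md r (Ψ z) (r (r (Ψ z))) := by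
      rw [hδ]
      exact min_le_right _ _
    have cΨ : ContinuousAt Ψ z := hΨ.continuousOn.continuousAt (hU.mem_nhds hz)
    have cr : Continuous r := hr.smooth.continuous
    have cm : ContinuousAt (fun q => md r (Ψ z) (Ψ q)) z := by
      unfold md
      exact (((continuousAt_const.dist cΨ).add (continuousAt_const.dist (cr.continuousAt.comp cΨ))).add
        (continuousAt_const.dist (cr.continuousAt.comp (cr.continuousAt.comp cΨ)))).div_const 3
    have aδ : ∀ᶠ q : ℂ in 𝓝 z, md r (Ψ z) (Ψ q) < δ / 2 := by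
      have h0 : md r (Ψ z) (Ψ z) = 0 := by
        unfold md
        simp
      have : md r (Ψ z) (Ψ z) < δ / 2 := by
        rw [h0]
        linarith
      exact cm.eventually (eventually_lt_nhds this)
    filter_upwards [a0, a1, a2, aU, aδ] with q b0 b1 b2 bU bδ
    have c1 : md r (Ψ z) (Ψ q) ≤ md r (Ψ z) (r (Ψ q)) := by
      have t1 := inq_tri r (Ψ z) (r (Ψ q)) (r (Ψ z))
      rw [inq_inv hc, inq_symm r (Ψ q)] at t1
      linarith
    have c2 : md r (Ψ z) (Ψ q) ≤ md r (Ψ z) (r (r (Ψ q))) := by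
      have t1 := inq_tri r (Ψ z) (r (r (Ψ q))) (r (r (Ψ z)))
      rw [inq_inv hc, inq_inv hc, inq_symm r (Ψ q)] at t1
      linarith
    have e : dist (Q z) (Q q) = md r (Ψ z) (Ψ q) := by
      have := hQ (Ψ z) (Ψ q)
      rw [hs _ hz, hs _ bU] at this
      rw [this]
      unfold qd
      rw [min_eq_left]
      exact le_min c1 c2
    rw [e]
    unfold md mn
    simp only [Function.comp] at b1 b2 ⊢
    linarith

end Pool.Agent.TRG
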