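import Mathlib
import Pool.Agent.TRG.Defs
import Pool.Agent.TRG.FPA
import Pool.Agent.TRG.FPB

/-
INT: change of variables for the 3-to-1 map Fp p.  (80 lines)
PROOF. A = ball 0 1 ∩ Fp p ⁻¹' S minus {0}. Sectors G k = {w : w <> 0, -pi + 2 pi k/3 < arg w <= -pi + 2 pi (k+1)/3}, k = 0, 1, 2: measurable (Complex.measurable_arg), disjoint, they cover the
 complement of 0. Fp p is injective on G k: Fp p w = Fp p w' gives w^3 = w'^3 (Fp_lower, |p| < 1), hence w' = w, om w or om^2 w (root3), and a rotation by 2 pi/3 or 4 pi/3 does not map a point of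
 a half open sector of angle 2 pi/3 into the same sector (w' = om w: arg w' = arg w + 2 pi/3 modulo 2 pi). Another way: on G k write w = |w| exp (i arg w), then |w| = |w'| and 3 arg w, 3 arg w'
 are congruent modulo 2 pi and differ by less than 2 pi, so arg w = arg w'.
 On each A ∩ G k (measurable: Fp p is continuous, S measurable) lintegral_image_eq_lintegral_abs_det_fderiv_mul (derivative by Fp_strict) gives
 integral over A ∩ G k of |det| b (Fp p w) = integral over Fp p '' (A ∩ G k) of b <= integral over S of b. Sum over k = 0,1,2 (lintegral_union_le, the point 0 has measure 0).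
-/

open MeasureTheory Set Filter Topology Manifold
open scoped ENNReal NNReal ContDiff
open Pool.Agent.MIR (cis cp hol Jw Pic Tan PL ip gd)
open Pool.Agent.H74.Surf

noncomputable section

namespace Pool.Agent.TRG

private def int_G (a : ℝ) : Set ℂ := {w | w ≠ 0 ∧ a < Complex.arg w ∧ Complex.arg w ≤ a + 2 * Real.pi / 3}

private theorem int_G_meas (a : ℝ) : MeasurableSet (int_G a) := by
  have h1 : MeasurableSet {w : ℂ | w ≠ 0} := (measurableSet_singleton (0 : ℂ)).compl
  have h2 : MeasurableSet {w : ℂ | a < Complex.arg w} :=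
    measurableSet_lt measurable_const Complex.measurable_arg
  have h3 : MeasurableSet {w : ℂ | Complex.arg w ≤ a + 2 * Real.pi / 3} :=
    measurableSet_le Complex.measurable_arg measurable_const
  exact h1.inter (h2.inter h3)

private theorem int_cont (p : ℂ) : Continuous (Fp p) := by
  unfold Fp
  fun_prop

private theorem int_inj {p : ℂ} (hp : ‖p‖ < 1) {a : ℝ} {w w' : ℂ} (hw : w ∈ int_G a)
    (hw' : w' ∈ int_G a) (h : Fp p w = Fp p w') : w = w' := by
  have h1 := Fp_lower p w w'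
  rw [h, sub_self, norm_zero] at h1
  have h2 : ‖w ^ 3 - w' ^ 3‖ = 0 := by
    have h3 : 0 < 1 - ‖p‖ := by linarith
    have h4 := norm_nonneg (w ^ 3 - w' ^ 3)
    nlinarith
  have h5 : w ^ 3 = w' ^ 3 := sub_eq_zero.1 (norm_eq_zero.1 h2)
  have h6 : ‖w‖ = ‖w'‖ := by
    have h7 : ‖w‖ ^ 3 = ‖w'‖ ^ 3 := by rw [← norm_pow, ← norm_pow, h5]
    exact (pow_left_inj₀ (norm_nonneg _) (norm_nonneg _) (by norm_num)).1 h7
  have h8 : 0 < ‖w'‖ := norm_pos_iff.2 hw'.1
  have e1 := Complex.norm_mul_exp_arg_mul_I w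
  have e2 := Complex.norm_mul_exp_arg_mul_I w'
  rw [h6] at e1
  have e3 : Complex.exp ((3 * Complex.arg w : ℝ) * Complex.I) =
      Complex.exp ((3 * Complex.arg w' : ℝ) * Complex.I) := by
    have f1 : ∀ t : ℝ, Complex.exp ((3 * t : ℝ) * Complex.I) = Complex.exp (t * Complex.I) ^ 3 := by
      intro t
      rw [← Complex.exp_nat_mul]
      congr 1
      push_cast
      ring
    rw [f1, f1]
    have h5' : ((‖w'‖ : ℂ) * Complex.exp (Complex.arg w * Complex.I)) ^ 3 =
        ((‖w'‖ : ℂ) * Complex.exp (Complex.arg w' * Complex.I)) ^ 3 := by rw [e1, e2, h5]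
    rw [mul_pow, mul_pow] at h5'
    have f2 : ((‖w'‖ : ℂ)) ^ 3 ≠ 0 := by
      exact pow_ne_zero _ (by exact_mod_cast h8.ne')
    exact mul_left_cancel₀ f2 h5'
  obtain ⟨n, hn⟩ := Complex.exp_eq_exp_iff_exists_int.1 e3
  have hn2 : 3 * Complex.arg w = 3 * Complex.arg w' + n * (2 * Real.pi) := by
    have f3 := congrArg Complex.im hn
    simpa using f3
  have hpi := Real.pi_pos
  have hlt1 := hw.2.1
  have hle1 := hw.2.2
  have hlt2 := hw'.2.1
  have hle2 := hw'.2.2
  have hn0 : n = 0 := by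
    have g1 : (n : ℝ) * (2 * Real.pi) < 1 * (2 * Real.pi) := by linarith
    have g2 : (-1 : ℝ) * (2 * Real.pi) < (n : ℝ) * (2 * Real.pi) := by linarith
    have g3 : (n : ℝ) < 1 := lt_of_mul_lt_mul_right g1 (by positivity)
    have g4 : (-1 : ℝ) < n := lt_of_mul_lt_mul_right g2 (by positivity)
    have g5 : n < 1 := by exact_mod_cast g3
    have g6 : -1 < n := by exact_mod_cast g4
    omega
  rw [hn0] at hn2
  have harg : Complex.arg w = Complex.arg w' := by
    push_cast at hn2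
    linarith
  calc w = (‖w'‖ : ℂ) * Complex.exp (Complex.arg w * Complex.I) := e1.symm
    _ = (‖w'‖ : ℂ) * Complex.exp (Complex.arg w' * Complex.I) := by rw [harg]
    _ = w' := e2

theorem int_piece {p : ℂ} (hp : ‖p‖ < 1) {S : Set ℂ} (hS : MeasurableSet S) (b : ℂ → ℝ≥0∞) :
    ∫⁻ w in Metric.ball 0 1 ∩ Fp p ⁻¹' S,
      ENNReal.ofReal |(fderiv ℝ (Fp p) w).det| * b (Fp p w) ≤ 3 * ∫⁻ z in S, b z := by
  have hFm : Measurable (Fp p) := (int_cont p).measurable
  have hA : MeasurableSet (Metric.ball (0 : ℂ) 1 ∩ Fp p ⁻¹' S) :=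
    Metric.isOpen_ball.measurableSet.inter (hFm hS)
  obtain ⟨A, hAdef⟩ : ∃ A : Set ℂ, A = Metric.ball (0 : ℂ) 1 ∩ Fp p ⁻¹' S := ⟨_, rfl⟩
  rw [← hAdef] at hA ⊢
  have hpiece : ∀ a : ℝ, ∫⁻ w in A ∩ int_G a,
      ENNReal.ofReal |(fderiv ℝ (Fp p) w).det| * b (Fp p w) ≤ ∫⁻ z in S, b z := by
    intro a
    rw [← lintegral_image_eq_lintegral_abs_det_fderiv_mul volume (hA.inter (int_G_meas a))
      (fun w hw => ((Fp_strict p hw.2.1).hasFDerivAt).hasFDerivWithinAt)
      (fun w hw w' hw' h => int_inj hp hw.2 hw'.2 h) b]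
    refine lintegral_mono_set ?_
    rintro _ ⟨w, hw, rfl⟩
    have h1 := hw.1
    rw [hAdef] at h1
    exact h1.2
  have hsub : A ⊆ ({0} ∪ A ∩ int_G (-Real.pi)) ∪ (A ∩ int_G (-Real.pi + 2 * Real.pi / 3) ∪
      A ∩ int_G (-Real.pi + 4 * Real.pi / 3)) := by
    intro w hw
    by_cases h0 : w = 0
    · exact Or.inl (Or.inl h0)
    · have h1 := Complex.neg_pi_lt_arg w
      have h2 := Complex.arg_le_pi w
      by_cases h3 : Complex.arg w ≤ -Real.pi + 2 * Real.pi / 3
      · exact Or.inl (Or.inr ⟨hw, h0, h1, by linarith⟩)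
      · by_cases h4 : Complex.arg w ≤ -Real.pi + 4 * Real.pi / 3
        · exact Or.inr (Or.inl ⟨hw, h0, by linarith, by linarith⟩)
        · exact Or.inr (Or.inr ⟨hw, h0, by linarith, by linarith⟩)
  refine le_trans (lintegral_mono_set hsub) ?_
  refine le_trans (lintegral_union_le _ _ _) ?_
  refine le_trans (add_le_add (lintegral_union_le _ _ _) (lintegral_union_le _ _ _)) ?_
  have h0 : ∫⁻ w in ({0} : Set ℂ), ENNReal.ofReal |(fderiv ℝ (Fp p) w).det| * b (Fp p w) = 0 :=
    setLIntegral_measure_zero _ _ (measure_singleton _)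
  rw [h0, zero_add]
  refine le_trans (add_le_add (hpiece _) (add_le_add (hpiece _) (hpiece _))) ?_
  have h3 : (3 : ℝ≥0∞) = 1 + (1 + 1) := by norm_num
  rw [h3, add_mul, add_mul, one_mul]

end Pool.Agent.TRG
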