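import Mathlib
import Pool.Agent.TRG.Defs

/-
SEC: a countable family of sections.  (50 lines)
PROOF. W = {z : |z| < 1, z not in P} is open (P finite). For z in W hD.sect gives Psi_z and (eventually_nhds) an open U_z containing z, U_z in W, such that Psi_z is ContMDiffAt at and
 a section over every point of U_z. Lindelof: countably many U_z cover W (TopologicalSpace.countable_cover_nhds or isOpen_iUnion_countable); enumerate them by Nat (0 is in W or W is
 empty; if W is empty take all U i empty. Set.Countable.exists_eq_range needs nonempty). S i = U i minus the union of U j, j < i (disjointed; Measurable by MeasurableSet.disjointed).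
 cover: the first i with z in U i.
-/

open MeasureTheory Set Filter Topology Manifold
open scoped ENNReal NNReal ContDiff
open Pool.Agent.MIR (cis cp hol Jw Pic Tan PL ip gd)
open Pool.Agent.H74.Surf

noncomputable section

namespace Pool.Agent.TRG

variable {M : Type} [MetricSpace M] [ChartedSpace (EuclideanHalfSpace 2) M]
  [R : RiemannianSpace (𝓡∂ 2) M]

theorem exists_sects {φ : S1 → M} {r : M → M} {P : Finset ℂ} {Pi : M → ℂ}
    (hD : DiscQ φ r P Pi) :
    ∃ (U : ℕ → Set ℂ) (Ψ : ℕ → ℂ → M) (S : ℕ → Set ℂ), Sects Pi P U Ψ S := by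
  classical
  have hW : IsOpen {z : ℂ | ‖z‖ < 1 ∧ z ∉ P} := by
    have h1 : IsOpen {z : ℂ | ‖z‖ < 1} := isOpen_lt continuous_norm continuous_const
    have h2 : IsOpen {z : ℂ | z ∉ P} := P.finite_toSet.isClosed.isOpen_compl
    exact h1.inter h2
  have hloc : ∀ z : {z : ℂ | ‖z‖ < 1 ∧ z ∉ P}, ∃ (Ψ : ℂ → M) (U : Set ℂ), IsOpen U ∧ (z : ℂ) ∈ U ∧
      ∀ w ∈ U, (‖w‖ < 1 ∧ w ∉ P) ∧ ContMDiffAt 𝓘(ℝ, ℂ) (𝓡∂ 2) ∞ Ψ w ∧ Pi (Ψ w) = w := by
    rintro ⟨z, hz⟩
    obtain ⟨Ψ, hΨ⟩ := hD.sect z hz.1 hz.2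
    have h3 := (hW.mem_nhds hz)
    obtain ⟨U, hU, hUo, hzU⟩ := eventually_nhds_iff.1 (Filter.Eventually.and (show ∀ᶠ w in 𝓝 z, ‖w‖ < 1 ∧ w ∉ P from h3) hΨ)
    exact ⟨Ψ, U, hUo, hzU, hU⟩
  choose Ψ0 U0 hUo hzU hU0 using hloc
  obtain ⟨T, hTc, hT⟩ := TopologicalSpace.isOpen_iUnion_countable U0 hUo
  have hM : Nonempty M := by
    have h0 : (0 : ℂ) ∈ range Pi := by
      rw [hD.ran]
      simp
    obtain ⟨x, _⟩ := h0
    exact ⟨x⟩
  rcases T.eq_empty_or_nonempty with hTe | hTn
  · refine ⟨fun _ => ∅, fun _ _ => hM.some, fun _ => ∅, ?_⟩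
    have hemp : ∀ z : ℂ, ‖z‖ < 1 → z ∉ P → False := by
      intro z h1 h2
      have h3 : z ∈ ⋃ i, U0 i := mem_iUnion.2 ⟨⟨z, h1, h2⟩, hzU ⟨z, h1, h2⟩⟩
      rw [← hT, hTe] at h3
      simp at h3
    exact
      { opn := fun _ => isOpen_empty
        smooth := fun _ z hz => absurd hz (notMem_empty z)
        sec := fun _ z hz => absurd hz (notMem_empty z)
        sub := fun _ => Subset.rfl
        meas := fun _ => MeasurableSet.empty
        disj := fun _ _ _ => disjoint_bot_left
        away := fun _ z hz => absurd hz (notMem_empty z)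
        cover := fun z h1 h2 => (hemp z h1 h2).elim }
  · obtain ⟨f, hf⟩ := hTc.exists_eq_range hTn
    refine ⟨fun i => U0 (f i), fun i => Ψ0 (f i), disjointed fun i => U0 (f i), ?_⟩
    exact
      { opn := fun i => hUo (f i)
        smooth := fun i z hz => ((hU0 (f i) z hz).2.1).contMDiffWithinAt
        sec := fun i z hz => (hU0 (f i) z hz).2.2
        sub := fun i => disjointed_subset _ i
        meas := fun i => MeasurableSet.disjointed (fun j => (hUo (f j)).measurableSet) i
        disj := fun i j hij => disjoint_disjointed _ hij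
        away := fun i z hz => (hU0 (f i) z hz).1
        cover := fun z h1 h2 => by
          have h3 : z ∈ ⋃ i, U0 i := mem_iUnion.2 ⟨⟨z, h1, h2⟩, hzU ⟨z, h1, h2⟩⟩
          rw [← hT, hf] at h3
          simp only [mem_range, iUnion_exists, iUnion_iUnion_eq'] at h3
          rw [← iUnion_disjointed] at h3
          exact mem_iUnion.1 h3 }

end Pool.Agent.TRG
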