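import Mathlib
import Pool.Agent.TRG.Defs
import Pool.Agent.TRG.FPA
import Pool.Agent.TRG.FPB
import Pool.Agent.TRG.ICP
import Pool.Agent.TRG.INQ
import Pool.Agent.TRG.CNF
import Pool.Agent.TRG.SEC
import Pool.Agent.TRG.ARS
import Pool.Agent.TRG.INT
import Pool.Agent.MIR.Final

/-
ARE: the model metrics have area at most area M.  (120 lines)
PROOF. SEC gives U, Psi, S. For i and z in U i let T i z be the linear map of CNF (choose; 0 otherwise). For z in the union of the S i let i(z) be the index with z in S i (0 otherwise) and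
 T w = (T (i (Fp p w)) (Fp p w)).comp (fderiv ℝ (Fp p) w).
 (a) if |w| < 1, Fp p w not in P: |Fp p w| < 1 (Fp_norm_lt), so z = Fp p w lies in some S i, and w <> 0 (Fp_zero, p in P). INQ: Infn Q z (mn r (Psi i) z), ICP with Fp_strict:
   Infn (Q o Fp p) w (fun v => mn r (Psi i) z (F' v)) and mn r (Psi i) z (F' v) = |T w v|.
 (b) |cp (T w 1) (T w I)| = |cp (T0 1) (T0 I)| |det F'| for T0 = T i z, F' = fderiv: cp (L a) (L b) = cp (L 1) (L I) * cp a b for every real linear L : C -> C, and det F' = cp (F' 1) (F' I)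
   (det of a real linear map of C in the basis 1, I: Complex.basisOneI, Matrix.det_fin_two; see area_det in Pool/Agent/MIR/Area.lean).
 (c) the ball is covered by the sets B i = ball 0 1 ∩ Fp p ⁻¹' S i and the finite (null) set Fp p ⁻¹' P. So (lintegral_iUnion_le)
   integral over the ball <= sum_i integral over B i of |det F'| * ofReal |cp (T i z 1) (T i z I)| (z = Fp p w) <= sum_i 3 * integral over S i of ofReal |cp (T i z 1) (T i z I)| (INT)
   <= sum_i 3 * integral over S i of ofReal ((sqrt gd + sqrt gd + sqrt gd)/3) = sum_i (three integrals) <= area M (ARS).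
   The splitting of the integral of the sum: lintegral_add_left with AEMeasurable (ContinuousOn.aemeasurable on U i, restricted to S i): MIR final_cont_gd (Pool/Agent/MIR/Final.lean) says that gd Psi
   is continuous on U for smooth Psi; see the end of that file, where the same step is done.
-/

open MeasureTheory Set Filter Topology Manifold
open scoped ENNReal NNReal ContDiff
open Pool.Agent.MIR (cis cp hol Jw Pic Tan PL ip gd)
open Pool.Agent.H74.Surf

noncomputable section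

namespace Pool.Agent.TRG

variable {M : Type} [MetricSpace M] [ChartedSpace (EuclideanHalfSpace 2) M]
  [R : RiemannianSpace (𝓡∂ 2) M]

private lemma are_cp (L : ℂ →L[ℝ] ℂ) (a b : ℂ) :
    cp (L a) (L b) = cp (L 1) (L Complex.I) * cp a b := by
  have h : ∀ v : ℂ, L v = v.re • L 1 + v.im • L Complex.I := by
    intro v
    have hv : v = v.re • (1 : ℂ) + v.im • Complex.I := by
      apply Complex.ext <;> simp
    conv_lhs => rw [hv]
    rw [map_add, map_smul, map_smul]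
  rw [h a, h b]
  simp only [cp, Complex.add_re, Complex.add_im, Complex.smul_re, Complex.smul_im, smul_eq_mul]
  ring

private lemma are_det (L : ℂ →L[ℝ] ℂ) : L.det = cp (L 1) (L Complex.I) := by
  have h1 : L.det = LinearMap.det (L : ℂ →ₗ[ℝ] ℂ) := rfl
  rw [h1, ← LinearMap.det_toMatrix Complex.basisOneI, Matrix.det_fin_two]
  simp only [LinearMap.toMatrix_apply]
  simp [cp]
  ring

private lemma are_cont (p : ℂ) : Continuous (Fp p) := by
  unfold Fp
  fun_prop

theorem area_pull [CompactSpace M] {φ : S1 → M} {r : M → M} {P : Finset ℂ} {Pi : M → ℂ}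
    (hr : CRot φ r) (hD : DiscQ φ r P Pi) {Y : Type} [MetricSpace Y] {Q : ℂ → Y}
    (hQ : ∀ x y, dist (Q (Pi x)) (Q (Pi y)) = qd (md r) r x y) {p : ℂ} (hp : p ∈ P) :
    ∃ T : ℂ → ℂ →L[ℝ] ℂ,
      (∀ w : ℂ, ‖w‖ < 1 → Fp p w ∉ P → Infn (Q ∘ Fp p) w (fun v => ‖T w v‖)) ∧
      ∫⁻ w in Metric.ball (0 : ℂ) 1, ENNReal.ofReal |cp (T w 1) (T w Complex.I)| ≤ area M := by
  obtain ⟨U, Ψ, S, hS⟩ := exists_sects hD
  have hp1 : ‖p‖ < 1 := hD.inner p hp
  have hex : ∀ (i : ℕ) (z : ℂ), ∃ T : ℂ →L[ℝ] ℂ, z ∈ U i → (∀ v, ‖T v‖ = mn r (Ψ i) z v) ∧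
      |cp (T 1) (T Complex.I)| ≤
        (√(gd (Ψ i) z) + √(gd (r ∘ Ψ i) z) + √(gd (r ∘ r ∘ Ψ i) z)) / 3 := by
    intro i z
    by_cases hz : z ∈ U i
    · obtain ⟨T, h1, h2⟩ := conf_T hr (hS.opn i) (hS.smooth i) (hS.sec i) hz
      exact ⟨T, fun _ => ⟨h1, h2⟩⟩
    · exact ⟨0, fun h => absurd h hz⟩
  choose T0 hT0 using hex
  have hι : ∀ z : ℂ, ∃ i : ℕ, ‖z‖ < 1 → z ∉ P → z ∈ S i := by
    intro z
    by_cases hz : ‖z‖ < 1 ∧ z ∉ P
    · obtain ⟨i, hi⟩ := hS.cover z hz.1 hz.2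
      exact ⟨i, fun _ _ => hi⟩
    · exact ⟨0, fun h1 h2 => absurd ⟨h1, h2⟩ hz⟩
  choose ι hι using hι
  refine ⟨fun w => (T0 (ι (Fp p w)) (Fp p w)).comp (fderiv ℝ (Fp p) w), ?_, ?_⟩
  · intro w hw hwP
    have hz1 : ‖Fp p w‖ < 1 := Fp_norm_lt hp1 hw
    have hzS : Fp p w ∈ S (ι (Fp p w)) := hι _ hz1 hwP
    have hzU := hS.sub _ hzS
    have hw0 : w ≠ 0 := by
      rintro rfl
      rw [Fp_zero] at hwP
      exact hwP hp
    have h1 := inf_Q hr hD hQ (hS.opn _) (hS.smooth _) (hS.sec _) hzU hwP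
    have h2 := (hT0 _ _ hzU).1
    have h3 := inf_comp (Fp_strict p hw0) h2 h1
    have h4 : (fun v => ‖((T0 (ι (Fp p w)) (Fp p w)).comp (fderiv ℝ (Fp p) w)) v‖) =
        fun v => mn r (Ψ (ι (Fp p w))) (Fp p w) (fderiv ℝ (Fp p) w v) := by
      funext v
      rw [ContinuousLinearMap.comp_apply, h2]
    rw [h4]
    exact h3
  · have hcont := are_cont p
    have hBm : ∀ i, MeasurableSet (Metric.ball (0 : ℂ) 1 ∩ Fp p ⁻¹' S i) := fun i =>
      Metric.isOpen_ball.measurableSet.inter (hcont.measurable (hS.meas i))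
    have hcovB : Metric.ball (0 : ℂ) 1 ⊆
        (⋃ i, Metric.ball (0 : ℂ) 1 ∩ Fp p ⁻¹' S i) ∪ (Fp p ⁻¹' (P : Set ℂ)) := by
      intro w hw
      by_cases hwP : Fp p w ∈ P
      · exact Or.inr hwP
      · left
        rw [mem_ball_zero_iff] at hw
        refine mem_iUnion.2 ⟨ι (Fp p w), ?_, ?_⟩
        · rwa [mem_ball_zero_iff]
        · exact hι _ (Fp_norm_lt hp1 hw) hwP
    have hnull : volume (Fp p ⁻¹' (P : Set ℂ)) = 0 := (Fp_finite hp1 P).measure_zero _
    have hpt : ∀ i, ∀ w ∈ Metric.ball (0 : ℂ) 1 ∩ Fp p ⁻¹' S i,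
        ENNReal.ofReal |cp (((T0 (ι (Fp p w)) (Fp p w)).comp (fderiv ℝ (Fp p) w)) 1)
          (((T0 (ι (Fp p w)) (Fp p w)).comp (fderiv ℝ (Fp p) w)) Complex.I)| =
        ENNReal.ofReal |(fderiv ℝ (Fp p) w).det| *
          (fun z => ENNReal.ofReal |cp (T0 i z 1) (T0 i z Complex.I)|) (Fp p w) := by
      rintro i w ⟨hw1, hw2⟩
      rw [mem_ball_zero_iff] at hw1
      have hw2' : Fp p w ∈ S i := hw2
      have haw := hS.away i _ (hS.sub i hw2')
      have hi : ι (Fp p w) = i := by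
        by_contra hne
        exact Set.disjoint_left.1 (hS.disj hne) (hι _ haw.1 haw.2) hw2'
      simp only [ContinuousLinearMap.comp_apply]
      rw [hi, are_cp, are_det, abs_mul, mul_comm, ENNReal.ofReal_mul (abs_nonneg _)]
    have hone : ∀ i, ∫⁻ w in Metric.ball (0 : ℂ) 1 ∩ Fp p ⁻¹' S i,
        ENNReal.ofReal |cp (((T0 (ι (Fp p w)) (Fp p w)).comp (fderiv ℝ (Fp p) w)) 1)
          (((T0 (ι (Fp p w)) (Fp p w)).comp (fderiv ℝ (Fp p) w)) Complex.I)| ≤
        (∫⁻ z in S i, ENNReal.ofReal (√(gd (Ψ i) z))) +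
          (∫⁻ z in S i, ENNReal.ofReal (√(gd (r ∘ Ψ i) z))) +
          (∫⁻ z in S i, ENNReal.ofReal (√(gd (r ∘ r ∘ Ψ i) z))) := by
      intro i
      rw [setLIntegral_congr_fun (hBm i) (hpt i)]
      refine (int_piece hp1 (hS.meas i)
        (fun z => ENNReal.ofReal |cp (T0 i z 1) (T0 i z Complex.I)|)).trans ?_
      have h0 : ContMDiffOn 𝓘(ℝ, ℂ) (𝓡∂ 2) ∞ (Ψ i) (U i) := hS.smooth i
      have h1 : ContMDiffOn 𝓘(ℝ, ℂ) (𝓡∂ 2) ∞ (r ∘ Ψ i) (U i) := hr.smooth.comp_contMDiffOn h0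
      have hae : ∀ Φ : ℂ → M, ContMDiffOn 𝓘(ℝ, ℂ) (𝓡∂ 2) ∞ Φ (U i) →
          AEMeasurable (fun z => ENNReal.ofReal (√(gd Φ z))) (volume.restrict (S i)) := by
        intro Φ hΦ
        have h3 : ContinuousOn (fun z => √(gd Φ z)) (U i) :=
          (Pool.Agent.MIR.final_cont_gd (hS.opn i) hΦ).sqrt
        have h4 := (h3.aemeasurable (hS.opn i).measurableSet (μ := volume)).ennreal_ofReal
        exact h4.mono_measure (Measure.restrict_mono (hS.sub i) le_rfl)
      have hae2 : AEMeasurable (fun z => ENNReal.ofReal (√(gd (Ψ i) z)) +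
          ENNReal.ofReal (√(gd (r ∘ Ψ i) z))) (volume.restrict (S i)) := (hae _ h0).add (hae _ h1)
      rw [← lintegral_add_left' (hae _ h0), ← lintegral_add_left' hae2]
      have h3 : (3 : ℝ≥0∞) ≠ ⊤ := by norm_num
      rw [← lintegral_const_mul' _ _ h3]
      refine setLIntegral_mono_ae' (hS.meas i) (Eventually.of_forall fun z hz => ?_)
      have h5 := (hT0 i z (hS.sub i hz)).2
      have e3 : (3 : ℝ≥0∞) = ENNReal.ofReal 3 := by norm_num
      rw [e3, ← ENNReal.ofReal_mul (by norm_num)]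
      rw [← ENNReal.ofReal_add (Real.sqrt_nonneg _) (Real.sqrt_nonneg _),
        ← ENNReal.ofReal_add (add_nonneg (Real.sqrt_nonneg _) (Real.sqrt_nonneg _)) (Real.sqrt_nonneg _)]
      apply ENNReal.ofReal_le_ofReal
      linarith
    refine (lintegral_mono_set hcovB).trans ?_
    refine (lintegral_union_le _ _ _).trans ?_
    rw [setLIntegral_measure_zero _ _ hnull, add_zero]
    refine (lintegral_iUnion_le _ _).trans ?_
    exact (ENNReal.tsum_le_tsum hone).trans (area_sects hr hD hS)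

end Pool.Agent.TRG
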