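import Mathlib
import Pool.Agent.TRG.Defs

/-
ALG: the algebra lemma.  (60 lines)
PROOF. W i = span (E i). (1) W i <= W (i+1), hence W i <= W j for i <= j. (2) x in W i, y in W i imply x * y in W (i+1): Submodule.span_induction twice
(bilinear; or Submodule.span_mul_span: span S * span T = span (S * T)). (3) for p : I choose n in E 0 with n p <> 0; n * n in W 1 and (n * n) p = 1
(in ZMod 3 a nonzero square is 1: decide). (4) For every finset S of I there is u in W (S.card + 1) with u p = 1 for p in S: Finset.induction:
S = empty: u = 0. insert q S: u' = u + e - u * e with e = n * n in W 1 for q: u in W (card + 1), e in W 1 <= W (card + 1), u * e in W (card + 2), so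
u' in W (card + 2); u' p = 1 + e p - e p = 1 on S, u' q = u q + 1 - u q = 1. (5) S = univ: u = 1.
-/

open MeasureTheory Set Filter Topology Manifold
open scoped ENNReal NNReal ContDiff
open Pool.Agent.MIR (cis cp hol Jw Pic Tan PL ip gd)
open Pool.Agent.H74.Surf

noncomputable section

namespace Pool.Agent.TRG

theorem one_mem {I : Type} [Fintype I] [DecidableEq I] (E : ℕ → Set (I → ZMod 3))
    (hmono : ∀ i, E i ⊆ E (i + 1))
    (hmul : ∀ i, ∀ x ∈ E i, ∀ y ∈ E i, x * y ∈ Submodule.span (ZMod 3) (E (i + 1)))
    (hcov : ∀ p : I, ∃ n ∈ E 0, n p ≠ 0) :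
    (1 : I → ZMod 3) ∈ Submodule.span (ZMod 3) (E (Fintype.card I + 1)) := by
  have hmono' : ∀ i j, i ≤ j → Submodule.span (ZMod 3) (E i) ≤ Submodule.span (ZMod 3) (E j) := by
    intro i j hij
    induction hij with
    | refl => exact le_rfl
    | step _ ih => exact ih.trans (Submodule.span_mono (hmono _))
  have hmul' : ∀ i, ∀ x ∈ Submodule.span (ZMod 3) (E i), ∀ y ∈ Submodule.span (ZMod 3) (E i),
      x * y ∈ Submodule.span (ZMod 3) (E (i + 1)) := by
    intro i x hx y hy
    induction hx using Submodule.span_induction with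
    | mem x hx =>
      induction hy using Submodule.span_induction with
      | mem y hy => exact hmul i x hx y hy
      | zero => rw [mul_zero]; exact Submodule.zero_mem _
      | add y z _ _ h1 h2 => rw [mul_add]; exact Submodule.add_mem _ h1 h2
      | smul a y _ h1 => rw [mul_smul_comm]; exact Submodule.smul_mem _ _ h1
    | zero => rw [zero_mul]; exact Submodule.zero_mem _
    | add x z _ _ h1 h2 => rw [add_mul]; exact Submodule.add_mem _ h1 h2
    | smul a x _ h1 => rw [smul_mul_assoc]; exact Submodule.smul_mem _ _ h1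
  have hsq : ∀ a : ZMod 3, a ≠ 0 → a * a = 1 := by decide
  have key : ∀ S : Finset I, ∃ u ∈ Submodule.span (ZMod 3) (E (S.card + 1)), ∀ p ∈ S, u p = 1 := by
    intro S
    induction S using Finset.induction_on with
    | empty => exact ⟨0, Submodule.zero_mem _, fun p hp => absurd hp (Finset.notMem_empty p)⟩
    | insert q S hq ih =>
      obtain ⟨u, hu, hu1⟩ := ih
      obtain ⟨n, hn, hnq⟩ := hcov q
      have he : n * n ∈ Submodule.span (ZMod 3) (E 1) := hmul 0 n hn n hn
      have heq : (n * n) q = 1 := hsq _ hnq
      rw [Finset.card_insert_of_notMem hq]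
      have h1 : u ∈ Submodule.span (ZMod 3) (E (S.card + 1 + 1)) := hmono' _ _ (Nat.le_succ _) hu
      have h2 : n * n ∈ Submodule.span (ZMod 3) (E (S.card + 1)) := hmono' _ _ (by omega) he
      have h3 : n * n ∈ Submodule.span (ZMod 3) (E (S.card + 1 + 1)) := hmono' _ _ (by omega) he
      refine ⟨u + n * n - u * (n * n), Submodule.sub_mem _ (Submodule.add_mem _ h1 h3)
        (hmul' _ _ hu _ h2), ?_⟩
      intro p hp
      show u p + (n * n) p - u p * (n * n) p = 1
      rcases Finset.mem_insert.1 hp with rfl | hp
      · rw [heq]; ring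
      · rw [hu1 p hp]; ring
  obtain ⟨u, hu, hu1⟩ := key Finset.univ
  have : u = 1 := by
    funext p
    exact hu1 p (Finset.mem_univ p)
  rw [this] at hu
  exact hu

end Pool.Agent.TRG
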