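import Mathlib
import Pool.Agent.TRG.Defs

/-
WND: the winding number modulo 3 changes by the number of passages when one crosses an edge.  (110 lines)
PROOF.
ray_anti: case analysis on the conditions (both conditions cannot hold at the same time: u.2 = f.2 and w.2 = f.2 + 1 against
  w.2 = f.2 and u.2 = f.2 + 1; omega). ray_self: u.2 = f.2 and u.2 = f.2 + 1 is impossible.
wind_left: termwise, for all u w:  ray (a-1,b) u w - ray (a,b) u w
   = (if u = (a,b) and w = (a,b+1) then 1 else 0) - (if u = (a,b+1) and w = (a,b) then 1 else 0):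
  the two rays differ exactly by the condition u.1 = a (a - 1 < u.1 and not a < u.1). Split all ifs; Prod.ext_iff; omega.
wind_down: put g u = (if a < u.1 and u.2 = b then 1 else 0 : ZMod 3). For every Step u w
   ray (a,b) u w - ray (a,b-1) u w = [u = (a,b), w = (a+1,b)] - [u = (a+1,b), w = (a,b)] - (g w - g u).
  (vertical step (x,b) -> (x,b+1), x > a: 1 - 0 = 0 - (0 - 1); (x,b-1) -> (x,b), x > a: 0 - 1 = 0 - (1 - 0);
   horizontal step (a,b) -> (a+1,b): 0 = 1 - (1 - 0); horizontal steps elsewhere in row b do not change g; and the reversed steps.)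
  Sum over i: the sum of g (v (i+1)) - g (v i) is g (v N) - g (v 0) = 0 (Finset.sum_range_sub).
-/

open MeasureTheory Set Filter Topology Manifold
open scoped ENNReal NNReal ContDiff
open Pool.Agent.MIR (cis cp hol Jw Pic Tan PL ip gd)
open Pool.Agent.H74.Surf

noncomputable section

namespace Pool.Agent.TRG

theorem ray_anti (f u w : ℤ × ℤ) : ray f w u = -ray f u w := by
  obtain ⟨u1, u2⟩ := u
  obtain ⟨w1, w2⟩ := w
  unfold ray
  simp only
  split_ifs <;> first
    | (exfalso; omega)
    | simp

theorem ray_self (f u : ℤ × ℤ) : ray f u u = 0 := by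
  unfold ray
  rw [if_neg (by omega), if_neg (by omega)]

private theorem wnd_left (a b : ℤ) (u w : ℤ × ℤ) : ray (a - 1, b) u w - ray (a, b) u w =
    (if u = (a, b) ∧ w = (a, b + 1) then 1 else 0) - (if u = (a, b + 1) ∧ w = (a, b) then 1 else 0) := by
  obtain ⟨u1, u2⟩ := u
  obtain ⟨w1, w2⟩ := w
  unfold ray
  simp only [Prod.mk.injEq]
  split_ifs <;> first
    | (exfalso; omega)
    | simp

theorem wind_left (N : ℕ) (v : ℕ → ℤ × ℤ) (a b : ℤ) :
    wind N v (a - 1, b) - wind N v (a, b) = cur N v (a, b) (a, b + 1) := by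
  unfold wind cur
  rw [← Finset.sum_sub_distrib]
  exact Finset.sum_congr rfl fun i _ => wnd_left a b (v i) (v (i + 1))

private def wndG (a b : ℤ) (u : ℤ × ℤ) : ZMod 3 := if a < u.1 ∧ u.2 = b then 1 else 0

private theorem wnd_down (a b : ℤ) (u w : ℤ × ℤ) (h : Step u w) : ray (a, b) u w - ray (a, b - 1) u w =
    ((if u = (a, b) ∧ w = (a + 1, b) then 1 else 0) - (if u = (a + 1, b) ∧ w = (a, b) then 1 else 0)) -
      (wndG a b w - wndG a b u) := by
  obtain ⟨u1, u2⟩ := u
  obtain ⟨w1, w2⟩ := w
  unfold Step at h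
  unfold ray wndG
  simp only [Prod.mk.injEq] at h ⊢
  rcases h with h | ⟨h1, h2⟩ | ⟨h1, h2⟩
  · split_ifs <;> first
      | (exfalso; omega)
      | simp
  · split_ifs <;> first
      | (exfalso; omega)
      | simp
  · split_ifs <;> first
      | (exfalso; omega)
      | simp

theorem wind_down {N : ℕ} {v : ℕ → ℤ × ℤ} (hs : ∀ i < N, Step (v i) (v (i + 1)))
    (hc : v N = v 0) (a b : ℤ) :
    wind N v (a, b) - wind N v (a, b - 1) = cur N v (a, b) (a + 1, b) := by
  have h1 : wind N v (a, b) - wind N v (a, b - 1) =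
      cur N v (a, b) (a + 1, b) - ∑ i ∈ Finset.range N, (wndG a b (v (i + 1)) - wndG a b (v i)) := by
    unfold wind cur
    rw [← Finset.sum_sub_distrib, ← Finset.sum_sub_distrib]
    exact Finset.sum_congr rfl fun i hi => wnd_down a b (v i) (v (i + 1)) (hs i (Finset.mem_range.1 hi))
  rw [h1, Finset.sum_range_sub (fun i => wndG a b (v i)), hc, sub_self, sub_zero]

end Pool.Agent.TRG
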