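import Mathlib
import Pool.Agent.TRG.Defs
import Pool.Agent.TRG.ACT
import Pool.Agent.TRG.WND

/-
ARC: operations on chains: initial part, shift, reversal, transport by the action, concatenation.  (120 lines)
PROOF. All sums are over Finset.range.
cost_ge: induction on N with C.tri (C.refl for N = 0). cost_mono: the terms are nonnegative (cov_nonneg); Finset.sum_le_sum_of_subset_of_nonneg.
sub_*: Finset.sum_range_add_sub or Finset.sum_range_succ induction: sum_{i < k'} = sum_{i < k} + sum_{i < k' - k} (shifted) (Finset.sum_range_add).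
rev_*: a reversed chain: i |-> a (k - i), i <= k. Step is symmetric, d is symmetric; sum reversed by Finset.sum_range_reflect
  (term i of the reversed sum is F (a (k-i)) (a (k-i-1))), L antisymmetric gives the sign.
tr_*: Pi (act r j x) = Pi x, d (act r j x) (act r j y) = d x y.
cat_sum: Finset.sum_range_add twice / sum_range_succ: terms i < k are F (a i) (a (i+1)), the term k is F (a k) (b 0), the terms
  k+1+i are F (b i) (b (i+1)).
cat_arc: the same case distinction i < k, i = k, i > k.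
-/

open MeasureTheory Set Filter Topology Manifold
open scoped ENNReal NNReal ContDiff
open Pool.Agent.MIR (cis cp hol Jw Pic Tan PL ip gd)
open Pool.Agent.H74.Surf

noncomputable section

namespace Pool.Agent.TRG

variable {X : Type} {d : X → X → ℝ} {r : X → X} {Pi : X → ℂ} {P : Finset ℂ} {h η : ℝ}

theorem cost_ge (C : Cov3 d r Pi P) (N : ℕ) (a : ℕ → (ℤ × ℤ) × X) :
    d (a 0).2 (a N).2 ≤ cost d N a := by
  induction N with
  | zero => simp [cost, C.refl]
  | succ n ih =>
    have h1 : cost d (n + 1) a = cost d n a + d (a n).2 (a (n + 1)).2 := by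
      simp only [cost]
      rw [Finset.sum_range_succ]
    rw [h1]
    have h2 := C.tri (a 0).2 (a n).2 (a (n + 1)).2
    linarith

theorem cost_mono (C : Cov3 d r Pi P) (a : ℕ → (ℤ × ℤ) × X) {k k' : ℕ} (hk : k ≤ k') :
    cost d k a ≤ cost d k' a := by
  unfold cost
  apply Finset.sum_le_sum_of_subset_of_nonneg
  · intro i hi
    rw [Finset.mem_range] at hi ⊢
    omega
  · intro i _ _
    exact cov_nonneg C _ _

theorem sub_arc {N : ℕ} {a : ℕ → (ℤ × ℤ) × X} (ha : Arc d Pi h η N a) {k k' : ℕ} (hk : k ≤ k')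
    (hk' : k' ≤ N) : Arc d Pi h η (k' - k) (fun i => a (k + i)) := by
  refine ⟨fun i hi => ?_, fun i hi => ?_⟩
  · exact ha.1 (k + i) (by omega)
  · have h1 := ha.2 (k + i) (by omega)
    have h2 : k + (i + 1) = k + i + 1 := by omega
    simp only [h2]
    exact h1

theorem sub_cost (d : X → X → ℝ) (a : ℕ → (ℤ × ℤ) × X) {k k' : ℕ} (hk : k ≤ k') :
    cost d (k' - k) (fun i => a (k + i)) = cost d k' a - cost d k a := by
  obtain ⟨m, rfl⟩ := Nat.exists_eq_add_of_le hk
  have h1 : k + m - k = m := by omega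
  rw [h1]
  unfold cost
  rw [Finset.sum_range_add]
  have h2 : ∀ i, k + (i + 1) = k + i + 1 := fun i => by omega
  simp only [h2]
  ring

theorem sub_lsum (L : ℤ × ℤ → ℤ × ℤ → ZMod 3) (a : ℕ → (ℤ × ℤ) × X) {k k' : ℕ} (hk : k ≤ k') :
    lsum L (k' - k) (fun i => a (k + i)) = lsum L k' a - lsum L k a := by
  obtain ⟨m, rfl⟩ := Nat.exists_eq_add_of_le hk
  have h1 : k + m - k = m := by omega
  rw [h1]
  unfold lsum
  rw [Finset.sum_range_add]
  have h2 : ∀ i, k + (i + 1) = k + i + 1 := fun i => by omega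
  simp only [h2]
  ring

theorem rev_arc (C : Cov3 d r Pi P) {k : ℕ} {a : ℕ → (ℤ × ℤ) × X} (ha : Arc d Pi h η k a) :
    Arc d Pi h η k (fun i => a (k - i)) := by
  refine ⟨fun i hi => ha.1 (k - i) (by omega), fun i hi => ?_⟩
  have h1 := ha.2 (k - (i + 1)) (by omega)
  have h2 : k - (i + 1) + 1 = k - i := by omega
  rw [h2] at h1
  refine ⟨?_, ?_⟩
  · obtain ⟨h3, _⟩ := h1
    show Step (a (k - i)).1 (a (k - (i + 1))).1
    rcases h3 with h3 | ⟨h3, h4 | h4⟩ | ⟨h3, h4 | h4⟩
    · exact Or.inl h3.symm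
    · exact Or.inr (Or.inl ⟨h3.symm, Or.inr h4⟩)
    · exact Or.inr (Or.inl ⟨h3.symm, Or.inl h4⟩)
    · exact Or.inr (Or.inr ⟨h3.symm, Or.inr h4⟩)
    · exact Or.inr (Or.inr ⟨h3.symm, Or.inl h4⟩)
  · show d (a (k - i)).2 (a (k - (i + 1))).2 ≤ η
    rw [C.symm]
    exact h1.2

theorem rev_cost (C : Cov3 d r Pi P) (k : ℕ) (a : ℕ → (ℤ × ℤ) × X) :
    cost d k (fun i => a (k - i)) = cost d k a := by
  unfold cost
  rw [← Finset.sum_range_reflect]
  apply Finset.sum_congr rfl
  intro i hi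
  rw [Finset.mem_range] at hi
  have h1 : k - (k - 1 - i) = i + 1 := by omega
  have h2 : k - (k - 1 - i + 1) = i := by omega
  simp only [h1, h2]
  exact C.symm _ _

theorem rev_lsum {L : ℤ × ℤ → ℤ × ℤ → ZMod 3} (hL : ∀ u w, L w u = -L u w) (k : ℕ)
    (a : ℕ → (ℤ × ℤ) × X) : lsum L k (fun i => a (k - i)) = -lsum L k a := by
  unfold lsum
  rw [← Finset.sum_range_reflect, ← Finset.sum_neg_distrib]
  apply Finset.sum_congr rfl
  intro i hi
  rw [Finset.mem_range] at hi
  have h1 : k - (k - 1 - i) = i + 1 := by omega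
  have h2 : k - (k - 1 - i + 1) = i := by omega
  simp only [h1, h2]
  exact hL _ _

theorem tr_arc (C : Cov3 d r Pi P) (j : ZMod 3) {N : ℕ} {a : ℕ → (ℤ × ℤ) × X}
    (ha : Arc d Pi h η N a) : Arc d Pi h η N (tr r j a) := by
  refine ⟨fun i hi => ?_, fun i hi => ?_⟩
  · show ‖Pi (act r j (a i).2) - zr h (a i).1‖ ≤ 8 * h
    rw [cov_proj C]
    exact ha.1 i hi
  · refine ⟨(ha.2 i hi).1, ?_⟩
    show d (act r j (a i).2) (act r j (a (i + 1)).2) ≤ η
    rw [cov_inv C]
    exact (ha.2 i hi).2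

theorem tr_cost (C : Cov3 d r Pi P) (j : ZMod 3) (N : ℕ) (a : ℕ → (ℤ × ℤ) × X) :
    cost d N (tr r j a) = cost d N a := by
  unfold cost tr
  simp only [cov_inv C]

theorem cat_sum {α A : Type} [AddCommMonoid A] (F : α → α → A) (k n : ℕ) (a b : ℕ → α) :
    ∑ i ∈ Finset.range (k + 1 + n), F (cat k a b i) (cat k a b (i + 1)) =
      ∑ i ∈ Finset.range k, F (a i) (a (i + 1)) + F (a k) (b 0) +
        ∑ i ∈ Finset.range n, F (b i) (b (i + 1)) := by
  rw [Finset.sum_range_add, Finset.sum_range_succ]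
  congr 1
  · congr 1
    · apply Finset.sum_congr rfl
      intro i hi
      rw [Finset.mem_range] at hi
      simp only [cat]
      rw [if_pos (by omega : i ≤ k), if_pos (by omega : i + 1 ≤ k)]
    · simp only [cat]
      rw [if_pos (le_refl k), if_neg (by omega : ¬ k + 1 ≤ k), Nat.sub_self]
  · apply Finset.sum_congr rfl
    intro i _
    simp only [cat]
    rw [if_neg (by omega : ¬ k + 1 + i ≤ k), if_neg (by omega : ¬ k + 1 + i + 1 ≤ k)]
    have h1 : k + 1 + i - (k + 1) = i := by omega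
    have h2 : k + 1 + i + 1 - (k + 1) = i + 1 := by omega
    rw [h1, h2]

theorem cat_arc {k n : ℕ} {a b : ℕ → (ℤ × ℤ) × X} (ha : Arc d Pi h η k a)
    (hb : Arc d Pi h η n b) (hs : Step (a k).1 (b 0).1) (hd : d (a k).2 (b 0).2 ≤ η) :
    Arc d Pi h η (k + 1 + n) (cat k a b) := by
  refine ⟨fun i hi => ?_, fun i hi => ?_⟩
  · simp only [cat]
    by_cases h1 : i ≤ k
    · rw [if_pos h1]
      exact ha.1 i h1
    · rw [if_neg h1]
      exact hb.1 _ (by omega)
  · simp only [cat]
    by_cases h1 : i + 1 ≤ k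
    · rw [if_pos h1, if_pos (by omega : i ≤ k)]
      exact ha.2 i (by omega)
    · rw [if_neg h1]
      by_cases h2 : i ≤ k
      · rw [if_pos h2]
        have h3 : i = k := by omega
        subst h3
        rw [Nat.sub_self]
        exact ⟨hs, hd⟩
      · rw [if_neg h2]
        have h3 : i + 1 - (k + 1) = i - (k + 1) + 1 := by omega
        rw [h3]
        exact hb.2 _ (by omega)

end Pool.Agent.TRG
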