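import Mathlib
import Pool.Agent.TRG.Defs

/-
GRD: geometry of the grid and of the radial retraction.  (110 lines)
Write rho z = (max 1 |z|)^{-1} z, so that zr h v = rho (gp h v).
PROOF.
gp_re, gp_im: unfold, simp.
norm_zr_le: |rho z| = |z| / max 1 |z| <= 1.
rho is 2-Lipschitz: let a = max 1 |z|, b = max 1 |w|; z/a - w/b = (z - w)/a + w (1/a - 1/b) = (z-w)/a + w (b-a)/(ab), and
  |w| <= b, |b - a| <= |z - w|, a >= 1, hence |rho z - rho w| <= |z - w| + |b - a|/a <= 2 |z - w|.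
zr_step: for a step |gp h u - gp h w| <= h (it is 0 or h), so |zr u - zr w| <= 2 h.
zr_near: |z| <= 1 gives rho z = z, so |z - zr h v| = |rho z - rho (gp h v)| <= 2 |z - gp h v| <= 2 t.
cell_near: the real and imaginary parts of gp h (cell h z) - z have absolute value <= h (Int.floor_le, Int.lt_floor_add_one,
  multiply by h), and |w| <= |Re w| + |Im w|.
zr_eq: if |gp h v| > 1 then |zr h v| = 1; hence |gp h v| <= 1, max = 1 and zr h v = gp h v.
zr_eq': same, max 1 |gp| = 1.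
-/

open MeasureTheory Set Filter Topology Manifold
open scoped ENNReal NNReal ContDiff
open Pool.Agent.MIR (cis cp hol Jw Pic Tan PL ip gd)
open Pool.Agent.H74.Surf

noncomputable section

namespace Pool.Agent.TRG

theorem gp_re (h : ℝ) (v : ℤ × ℤ) : (gp h v).re = h * v.1 := by
  unfold gp
  simp

theorem gp_im (h : ℝ) (v : ℤ × ℤ) : (gp h v).im = h * v.2 := by
  unfold gp
  simp

private def grdR (z : ℂ) : ℂ := (((max 1 ‖z‖)⁻¹ : ℝ) : ℂ) * z

private theorem grd_zr (h : ℝ) (v : ℤ × ℤ) : zr h v = grdR (gp h v) := rfl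

private theorem grd_norm (z : ℂ) : ‖grdR z‖ = ‖z‖ / max 1 ‖z‖ := by
  unfold grdR
  rw [norm_mul, Complex.norm_real, norm_inv, Real.norm_of_nonneg (by positivity)]
  field_simp

private theorem grd_le (z : ℂ) : ‖grdR z‖ ≤ 1 := by
  rw [grd_norm, div_le_one (by positivity)]
  exact le_max_right _ _

private theorem grd_id {z : ℂ} (hz : ‖z‖ ≤ 1) : grdR z = z := by
  unfold grdR
  rw [max_eq_left hz]
  simp

private theorem grd_lip (z w : ℂ) : ‖grdR z - grdR w‖ ≤ 2 * ‖z - w‖ := by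
  set a : ℝ := max 1 ‖z‖ with ha
  set b : ℝ := max 1 ‖w‖ with hb
  have ha1 : 1 ≤ a := le_max_left _ _
  have hb1 : 1 ≤ b := le_max_left _ _
  have ha0 : 0 < a := by linarith
  have hb0 : 0 < b := by linarith
  have hwb : ‖w‖ ≤ b := le_max_right _ _
  have hab : |b - a| ≤ ‖z - w‖ := by
    have h1 : |b - a| ≤ |‖w‖ - ‖z‖| := by
      rw [ha, hb]
      refine (abs_max_sub_max_le_max _ _ _ _).trans ?_
      simp
    refine h1.trans ?_
    rw [norm_sub_rev]
    exact abs_norm_sub_norm_le w z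
  have e : grdR z - grdR w = ((a⁻¹ : ℝ) : ℂ) * (z - w) + ((a⁻¹ * b⁻¹ * (b - a) : ℝ) : ℂ) * w := by
    unfold grdR
    rw [← ha, ← hb]
    have h1 : (a : ℂ) ≠ 0 := by exact_mod_cast ha0.ne'
    have h2 : (b : ℂ) ≠ 0 := by exact_mod_cast hb0.ne'
    push_cast
    field_simp
    ring
  rw [e]
  refine (norm_add_le _ _).trans ?_
  rw [norm_mul, norm_mul, Complex.norm_real, Complex.norm_real, Real.norm_eq_abs, Real.norm_eq_abs,
    abs_mul, abs_mul, abs_of_pos (inv_pos.2 ha0), abs_of_pos (inv_pos.2 hb0)]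
  have hai : a⁻¹ ≤ 1 := inv_le_one_of_one_le₀ ha1
  have h1 : a⁻¹ * ‖z - w‖ ≤ 1 * ‖z - w‖ := mul_le_mul_of_nonneg_right hai (norm_nonneg _)
  have h2 : a⁻¹ * b⁻¹ * |b - a| * ‖w‖ ≤ 1 * ‖z - w‖ := by
    have h3 : b⁻¹ * ‖w‖ ≤ 1 := by
      rw [inv_mul_le_iff₀ hb0]
      linarith
    have h4 : a⁻¹ * |b - a| ≤ 1 * ‖z - w‖ := mul_le_mul hai hab (abs_nonneg _) zero_le_one
    calc a⁻¹ * b⁻¹ * |b - a| * ‖w‖ = (a⁻¹ * |b - a|) * (b⁻¹ * ‖w‖) := by ring
      _ ≤ (a⁻¹ * |b - a|) * 1 := mul_le_mul_of_nonneg_left h3 (by positivity)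
      _ ≤ 1 * ‖z - w‖ := by linarith
  linarith

theorem norm_zr_le (h : ℝ) (v : ℤ × ℤ) : ‖zr h v‖ ≤ 1 := grd_le _

private theorem grd_norm_step {h : ℝ} (hh : 0 < h) {u w : ℤ × ℤ} (s : Step u w) : ‖gp h u - gp h w‖ ≤ h := by
  have hre : (gp h u - gp h w).re = h * ((u.1 : ℝ) - w.1) := by
    rw [Complex.sub_re, gp_re, gp_re]
    ring
  have him : (gp h u - gp h w).im = h * ((u.2 : ℝ) - w.2) := by
    rw [Complex.sub_im, gp_im, gp_im]
    ring
  refine (Complex.norm_le_abs_re_add_abs_im _).trans ?_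
  rw [hre, him, abs_mul, abs_mul, abs_of_pos hh]
  have hZ : |(u.1 - w.1 : ℤ)| + |(u.2 - w.2 : ℤ)| ≤ 1 := by
    rcases s with s | ⟨s1, s2⟩ | ⟨s1, s2⟩
    · rw [s]
      simp
    · rcases s2 with s2 | s2
      · rw [s1, s2]
        simp
      · rw [s1, s2]
        simp
    · rcases s2 with s2 | s2
      · rw [s1, s2]
        simp
      · rw [s1, s2]
        simp
  have hR : |(u.1 : ℝ) - w.1| + |(u.2 : ℝ) - w.2| ≤ 1 := by exact_mod_cast hZ
  nlinarith

theorem zr_step {h : ℝ} (hh : 0 < h) {u w : ℤ × ℤ} (s : Step u w) :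
    ‖zr h u - zr h w‖ ≤ 2 * h := by
  rw [grd_zr, grd_zr]
  have := grd_lip (gp h u) (gp h w)
  have := grd_norm_step hh s
  linarith

theorem zr_near {h t : ℝ} {z : ℂ} (hz : ‖z‖ ≤ 1) {v : ℤ × ℤ} (hv : ‖gp h v - z‖ ≤ t) :
    ‖z - zr h v‖ ≤ 2 * t := by
  have h1 := grd_lip z (gp h v)
  rw [grd_id hz, norm_sub_rev z (gp h v)] at h1
  rw [grd_zr]
  linarith

private theorem grd_floor {h : ℝ} (hh : 0 < h) (x : ℝ) : |h * (⌊x / h⌋ : ℝ) - x| ≤ h := by
  have h1 := Int.floor_le (x / h)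
  have h2 := Int.lt_floor_add_one (x / h)
  have h3 : h * (x / h) = x := by field_simp
  rw [abs_le]
  constructor
  · have := mul_le_mul_of_nonneg_left h2.le hh.le
    linarith
  · have := mul_le_mul_of_nonneg_left h1 hh.le
    linarith

theorem cell_near {h : ℝ} (hh : 0 < h) (z : ℂ) : ‖gp h (cell h z) - z‖ ≤ 2 * h := by
  refine (Complex.norm_le_abs_re_add_abs_im _).trans ?_
  rw [Complex.sub_re, Complex.sub_im, gp_re, gp_im]
  have h1 := grd_floor hh z.re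
  have h2 := grd_floor hh z.im
  unfold cell
  simp only
  linarith

theorem zr_eq' {h : ℝ} {v : ℤ × ℤ} (hv : ‖gp h v‖ ≤ 1) : zr h v = gp h v := by
  rw [grd_zr, grd_id hv]

theorem zr_eq {h : ℝ} {v : ℤ × ℤ} (hv : ‖zr h v‖ < 1) : zr h v = gp h v := by
  refine zr_eq' ?_
  by_contra hc
  push Not at hc
  rw [grd_zr, grd_norm, max_eq_right hc.le, div_self (by linarith)] at hv
  exact lt_irrefl _ hv

end Pool.Agent.TRG
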