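import Mathlib
import Pool.Agent.TRG.Defs
import Pool.Agent.TRG.GRD

/-
DIS: discretisation of a plane curve.  (110 lines)
PROOF. z is uniformly continuous on the compact interval: there is t > 0, t <= del, with |z s - z s'| < h for s, s' in [a,b], |s - s'| < t (if a = b trivial).
Choose n > (b - a)/t, n >= 1, and s_k = a + k (b - a)/n (k = 0..n). For k < n let c_k = cell h (z s_k): the coordinates of c_k and c_{k+1} differ by at most 1,
because |Re z s_k / h - Re z s_{k+1} / h| < 1 (floors of numbers at distance < 1 differ by at most 1).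
Define N = 2n, u (2k) = s_k, v (2k) = c_k, u (2k+1) = s_k, v (2k+1) = ((c_{k+1}).1, (c_k).2) for k < n (for instance u i = s (i/2), and v i = c (i/2) for i even,
((c (i/2+1)).1, (c (i/2)).2) for i odd). Steps: (2k -> 2k+1) changes only the first coordinate by 0 or +-1; (2k+1 -> 2k+2) changes only the second one. So Step.
Near: |gp h (v (2k)) - z s_k| <= 2h (cell_near), |gp h (v (2k+1)) - z s_k| <= 3h; zr_near gives <= 4h, 6h <= 8h.
u is monotone, u (i+1) - u i is 0 or (b-a)/n < t <= del. u 0 = a, u N = b, v 0 = cell h (z a), v N = cell h (z b).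
-/

open MeasureTheory Set Filter Topology Manifold
open scoped ENNReal NNReal ContDiff
open Pool.Agent.MIR (cis cp hol Jw Pic Tan PL ip gd)
open Pool.Agent.H74.Surf

noncomputable section

namespace Pool.Agent.TRG

private theorem dis_floor {x y : ℝ} (h : |x - y| < 1) :
    ⌊y⌋ = ⌊x⌋ ∨ ⌊y⌋ = ⌊x⌋ + 1 ∨ ⌊x⌋ = ⌊y⌋ + 1 := by
  obtain ⟨h1, h2⟩ := abs_lt.1 h
  have a1 := Int.floor_le x
  have a2 := Int.lt_floor_add_one x
  have b1 := Int.floor_le y
  have b2 := Int.lt_floor_add_one y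
  have c1 : (⌊y⌋ : ℝ) < (⌊x⌋ : ℝ) + 2 := by linarith
  have c2 : (⌊x⌋ : ℝ) < (⌊y⌋ : ℝ) + 2 := by linarith
  have c3 : ⌊y⌋ < ⌊x⌋ + 2 := by exact_mod_cast c1
  have c4 : ⌊x⌋ < ⌊y⌋ + 2 := by exact_mod_cast c2
  omega

private theorem dis_cell {h : ℝ} (hh : 0 < h) {z w : ℂ} (hzw : ‖z - w‖ < h) :
    ((cell h w).1 = (cell h z).1 ∨ (cell h w).1 = (cell h z).1 + 1 ∨ (cell h z).1 = (cell h w).1 + 1) ∧
    ((cell h w).2 = (cell h z).2 ∨ (cell h w).2 = (cell h z).2 + 1 ∨ (cell h z).2 = (cell h w).2 + 1) := by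
  constructor
  · refine dis_floor ?_
    rw [← sub_div, abs_div, abs_of_pos hh, div_lt_one hh, ← Complex.sub_re]
    exact (Complex.abs_re_le_norm _).trans_lt hzw
  · refine dis_floor ?_
    rw [← sub_div, abs_div, abs_of_pos hh, div_lt_one hh, ← Complex.sub_im]
    exact (Complex.abs_im_le_norm _).trans_lt hzw

private theorem dis_gp {h : ℝ} (hh : 0 < h) {z w : ℂ} (hzw : ‖z - w‖ < h) :
    ‖gp h ((cell h w).1, (cell h z).2) - z‖ ≤ 3 * h := by
  have h1 := cell_near hh z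
  have h2 : gp h ((cell h w).1, (cell h z).2) - z =
      (gp h (cell h z) - z) + ((h * (((cell h w).1 : ℝ) - ((cell h z).1 : ℝ)) : ℝ) : ℂ) := by
    unfold gp
    push_cast
    ring
  rw [h2]
  refine (norm_add_le _ _).trans ?_
  have h3 : ‖((h * (((cell h w).1 : ℝ) - ((cell h z).1 : ℝ)) : ℝ) : ℂ)‖ ≤ h := by
    rw [Complex.norm_real, Real.norm_eq_abs, abs_mul, abs_of_pos hh]
    have h4 : |((cell h w).1 : ℝ) - ((cell h z).1 : ℝ)| ≤ 1 := by
      rcases (dis_cell hh hzw).1 with h5 | h5 | h5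
      · rw [h5]; simp
      · rw [h5]; push_cast; simp
      · rw [h5]; push_cast
        rw [show ((cell h w).1 : ℝ) - (((cell h w).1 : ℝ) + 1) = -1 by ring]
        simp
    nlinarith
  linarith

theorem discretize {a b : ℝ} (hab : a ≤ b) {z : ℝ → ℂ} (hz : ContinuousOn z (Icc a b))
    (hz1 : ∀ s ∈ Icc a b, ‖z s‖ ≤ 1) {h δ : ℝ} (hh : 0 < h) (hδ : 0 < δ) :
    ∃ (N : ℕ) (u : ℕ → ℝ) (v : ℕ → ℤ × ℤ), (∀ i < N, u i ≤ u (i + 1)) ∧ u 0 = a ∧ u N = b ∧
      (∀ i ≤ N, u i ∈ Icc a b) ∧ (∀ i < N, u (i + 1) - u i < δ) ∧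
      (∀ i < N, Step (v i) (v (i + 1))) ∧ (∀ i ≤ N, ‖z (u i) - zr h (v i)‖ ≤ 8 * h) ∧
      v 0 = cell h (z a) ∧ v N = cell h (z b) := by
  obtain ⟨t0, ht0, hunif⟩ := Metric.uniformContinuousOn_iff.1
    (isCompact_Icc.uniformContinuousOn_of_continuous hz) h hh
  obtain ⟨n, hn⟩ := exists_nat_gt ((b - a) / min t0 δ)
  have hm : 0 < min t0 δ := lt_min ht0 hδ
  have hn1 : (b - a) < (n : ℝ) * min t0 δ := by rwa [div_lt_iff₀ hm] at hn
  have hnpos : 0 < (n : ℝ) := by
    by_contra hc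
    have : (n : ℝ) * min t0 δ ≤ 0 := mul_nonpos_of_nonpos_of_nonneg (not_lt.1 hc) hm.le
    linarith
  have hstep : (b - a) / n < min t0 δ := by
    rw [div_lt_iff₀ hnpos]
    linarith
  have hstep0 : 0 ≤ (b - a) / n := div_nonneg (by linarith) hnpos.le
  let s : ℕ → ℝ := fun k => a + k * ((b - a) / n)
  have hs0 : s 0 = a := by simp [s]
  have hsn : s n = b := by
    show a + n * ((b - a) / n) = b
    field_simp
    ring
  have hss : ∀ k, s (k + 1) - s k = (b - a) / n := by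
    intro k
    show a + ((k + 1 : ℕ) : ℝ) * ((b - a) / n) - (a + k * ((b - a) / n)) = _
    push_cast
    ring
  have hsm : ∀ k ≤ n, s k ∈ Icc a b := by
    intro k hk
    have hk' : (k : ℝ) ≤ n := Nat.cast_le.2 hk
    have h1 : (k : ℝ) * ((b - a) / n) ≤ n * ((b - a) / n) := mul_le_mul_of_nonneg_right hk' hstep0
    have h2 : 0 ≤ (k : ℝ) * ((b - a) / n) := by positivity
    have h3 : a + n * ((b - a) / n) = b := hsn
    exact ⟨by show a ≤ a + k * ((b - a) / n); linarith, by show a + k * ((b - a) / n) ≤ b; linarith⟩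
  have hzz : ∀ k < n, ‖z (s k) - z (s (k + 1))‖ < h := by
    intro k hk
    have h1 := hunif (s k) (hsm k hk.le) (s (k + 1)) (hsm (k + 1) hk) (by
      rw [dist_comm, Real.dist_eq, hss, abs_of_nonneg hstep0]
      exact hstep.trans_le (min_le_left _ _))
    rwa [dist_eq_norm] at h1
  let c : ℕ → ℤ × ℤ := fun k => cell h (z (s k))
  let v : ℕ → ℤ × ℤ := fun i => if i % 2 = 0 then c (i / 2) else ((c (i / 2 + 1)).1, (c (i / 2)).2)
  have hv0 : ∀ k, v (2 * k) = c k := by
    intro k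
    show (if (2 * k) % 2 = 0 then c (2 * k / 2) else _) = c k
    rw [if_pos (by omega)]
    congr 1
    omega
  have hv1 : ∀ k, v (2 * k + 1) = ((c (k + 1)).1, (c k).2) := by
    intro k
    show (if (2 * k + 1) % 2 = 0 then c ((2 * k + 1) / 2) else
      ((c ((2 * k + 1) / 2 + 1)).1, (c ((2 * k + 1) / 2)).2)) = _
    rw [if_neg (by omega)]
    have : (2 * k + 1) / 2 = k := by omega
    rw [this]
  have hdec : ∀ i, ∃ k, i = 2 * k ∨ i = 2 * k + 1 := fun i => ⟨i / 2, by omega⟩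
  refine ⟨2 * n, fun i => s (i / 2), v, ?_, ?_, ?_, ?_, ?_, ?_, ?_, ?_, ?_⟩
  · intro i hi
    obtain ⟨k, rfl | rfl⟩ := hdec i
    · have e1 : 2 * k / 2 = k := by omega
      have e2 : (2 * k + 1) / 2 = k := by omega
      show s (2 * k / 2) ≤ s ((2 * k + 1) / 2)
      rw [e1, e2]
    · have e1 : (2 * k + 1 + 1) / 2 = k + 1 := by omega
      have e2 : (2 * k + 1) / 2 = k := by omega
      show s ((2 * k + 1) / 2) ≤ s ((2 * k + 1 + 1) / 2)
      rw [e1, e2]
      have := hss k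
      linarith
  · exact hs0
  · show s (2 * n / 2) = b
    have e1 : 2 * n / 2 = n := by omega
    rw [e1]
    exact hsn
  · intro i hi
    exact hsm _ (by omega)
  · intro i hi
    obtain ⟨k, rfl | rfl⟩ := hdec i
    · have e1 : 2 * k / 2 = k := by omega
      have e2 : (2 * k + 1) / 2 = k := by omega
      show s ((2 * k + 1) / 2) - s (2 * k / 2) < δ
      rw [e1, e2, sub_self]
      exact hδ
    · have e1 : (2 * k + 1 + 1) / 2 = k + 1 := by omega
      have e2 : (2 * k + 1) / 2 = k := by omega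
      show s ((2 * k + 1 + 1) / 2) - s ((2 * k + 1) / 2) < δ
      rw [e1, e2, hss]
      exact hstep.trans_le (min_le_right _ _)
  · intro i hi
    obtain ⟨k, rfl | rfl⟩ := hdec i
    · rw [hv0, hv1]
      have h1 := (dis_cell hh (hzz k (by omega))).1
      have h2 : (c (k + 1)).1 = (c k).1 ∨ (c (k + 1)).1 = (c k).1 + 1 ∨ (c k).1 = (c (k + 1)).1 + 1 := h1
      rcases h2 with h2 | h2 | h2
      · left
        exact Prod.ext h2.symm rfl
      · right; right
        exact ⟨rfl, Or.inl h2⟩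
      · right; right
        exact ⟨rfl, Or.inr h2⟩
    · have e1 : 2 * k + 1 + 1 = 2 * (k + 1) := by ring
      rw [e1, hv0, hv1]
      have h1 := (dis_cell hh (hzz k (by omega))).2
      have h2 : (c (k + 1)).2 = (c k).2 ∨ (c (k + 1)).2 = (c k).2 + 1 ∨ (c k).2 = (c (k + 1)).2 + 1 := h1
      rcases h2 with h2 | h2 | h2
      · left
        exact Prod.ext rfl h2.symm
      · right; left
        exact ⟨rfl, Or.inl h2⟩
      · right; left
        exact ⟨rfl, Or.inr h2⟩
  · intro i hi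
    obtain ⟨k, rfl | rfl⟩ := hdec i
    · have e1 : 2 * k / 2 = k := by omega
      show ‖z (s (2 * k / 2)) - zr h (v (2 * k))‖ ≤ 8 * h
      rw [e1, hv0]
      have h1 := zr_near (hz1 _ (hsm k (by omega))) (cell_near hh (z (s k)))
      show ‖z (s k) - zr h (cell h (z (s k)))‖ ≤ 8 * h
      linarith
    · have e2 : (2 * k + 1) / 2 = k := by omega
      show ‖z (s ((2 * k + 1) / 2)) - zr h (v (2 * k + 1))‖ ≤ 8 * h
      rw [e2, hv1]
      have h1 := zr_near (hz1 _ (hsm k (by omega))) (dis_gp hh (hzz k (by omega)))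
      show ‖z (s k) - zr h ((cell h (z (s (k + 1)))).1, (cell h (z (s k))).2)‖ ≤ 8 * h
      linarith
  · have h1 := hv0 0
    rw [mul_zero] at h1
    rw [h1]
    show cell h (z (s 0)) = _
    rw [hs0]
  · rw [hv0]
    show cell h (z (s n)) = _
    rw [hsn]

end Pool.Agent.TRG
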