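import Mathlib
import Pool.Agent.TRG.Defs
import Pool.Agent.TRG.WND

/-
WRC: the winding number is constant on a rectangle that is avoided by the walk.  (60 lines)
PROOF. If the walk never visits u (v i <> u for all i <= N) then cur N v u w = 0 and cur N v w u = 0 for all w (every term vanishes).
Hence by wind_left: wind (a-1,b) = wind (a,b) if (a,b) is not visited; by wind_down: wind (a,b) = wind (a,b-1) if (a,b) is not visited.
In the rectangle: for a1 <= a, a + 1 <= a2, b in [b1,b2]: wind (a,b) = wind (a+1,b), since (a+1,b) is not visited (it lies in the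
forbidden set [a1,a2+1] x [b1,b2+1]); so wind (a,b) = wind (a1,b) for all a in [a1,a2] (Int.le_induction). In the same way
wind (a1,b) = wind (a1,b+1) for b1 <= b, b + 1 <= b2, since (a1,b+1) is not visited; so wind (a,b) = wind (a1,b1).
-/

open MeasureTheory Set Filter Topology Manifold
open scoped ENNReal NNReal ContDiff
open Pool.Agent.MIR (cis cp hol Jw Pic Tan PL ip gd)
open Pool.Agent.H74.Surf

noncomputable section

namespace Pool.Agent.TRG

private theorem wrc_cur {N : ℕ} {v : ℕ → ℤ × ℤ} {u w : ℤ × ℤ} (h : ∀ i ≤ N, v i ≠ u) : cur N v u w = 0 := by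
  unfold cur
  refine Finset.sum_eq_zero fun i hi => ?_
  have hi' := Finset.mem_range.1 hi
  rw [if_neg (fun hc => h i hi'.le hc.1), if_neg (fun hc => h (i + 1) hi' hc.2), sub_zero]

private theorem wrc_const {N : ℕ} {v : ℕ → ℤ × ℤ} (hs : ∀ i < N, Step (v i) (v (i + 1)))
    (hc : v N = v 0) {a1 a2 b1 b2 : ℤ}
    (hv : ∀ i ≤ N, ¬(a1 ≤ (v i).1 ∧ (v i).1 ≤ a2 + 1 ∧ b1 ≤ (v i).2 ∧ (v i).2 ≤ b2 + 1))
    (f : ℤ × ℤ) (hf : a1 ≤ f.1 ∧ f.1 ≤ a2 ∧ b1 ≤ f.2 ∧ f.2 ≤ b2) :
    wind N v f = wind N v (a1, b1) := by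
  obtain ⟨x, y⟩ := f
  obtain ⟨h1, h2, h3, h4⟩ := hf
  simp only at h1 h2 h3 h4
  have step1 : ∀ a : ℤ, a1 ≤ a → a ≤ a2 → wind N v (a, y) = wind N v (a1, y) := by
    intro a ha
    induction a, ha using Int.le_induction with
    | base => intro _; rfl
    | succ n hn ih =>
      intro hn2
      have e := wind_left N v (n + 1) y
      rw [wrc_cur (fun i hi hc => hv i hi (by rw [hc]; simp only; omega)), add_sub_cancel_right, sub_eq_zero] at e
      rw [← e]
      exact ih (by omega)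
  have step2 : ∀ b : ℤ, b1 ≤ b → b ≤ b2 → wind N v (a1, b) = wind N v (a1, b1) := by
    intro b hb
    induction b, hb using Int.le_induction with
    | base => intro _; rfl
    | succ n hn ih =>
      intro hn2
      have e := wind_down hs hc a1 (n + 1)
      rw [wrc_cur (fun i hi hc => hv i hi (by rw [hc]; simp only; omega)), add_sub_cancel_right, sub_eq_zero] at e
      rw [e]
      exact ih (by omega)
  rw [step1 x h1 h2, step2 y h3 h4]

theorem wind_rect {N : ℕ} {v : ℕ → ℤ × ℤ} (hs : ∀ i < N, Step (v i) (v (i + 1)))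
    (hc : v N = v 0) {a1 a2 b1 b2 : ℤ}
    (hv : ∀ i ≤ N, ¬(a1 ≤ (v i).1 ∧ (v i).1 ≤ a2 + 1 ∧ b1 ≤ (v i).2 ∧ (v i).2 ≤ b2 + 1))
    {f g : ℤ × ℤ} (hf : a1 ≤ f.1 ∧ f.1 ≤ a2 ∧ b1 ≤ f.2 ∧ f.2 ≤ b2)
    (hg : a1 ≤ g.1 ∧ g.1 ≤ a2 ∧ b1 ≤ g.2 ∧ g.2 ≤ b2) : wind N v f = wind N v g := by
  rw [wrc_const hs hc hv f hf, wrc_const hs hc hv g hg]

end Pool.Agent.TRG
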