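import Mathlib
import Pool.Agent.TRG.Defs
import Pool.Agent.TRG.ACT
import Pool.Agent.TRG.GRD
import Pool.Agent.TRG.WRC
import Pool.Agent.TRG.DIS

/-
BND: the boundary chain.  (100 lines)
PROOF. (a) choose rho < 1 with |p| <= rho for all p in P (finite set; rho = 0 if P is empty), h0 = (1 - rho)/40.
(b) apply DIS to z t = cis (3 t) on [0, 2 pi/3] with del = eta; a i = (v i, phi (u i)). Pi (phi (u i)) = cis (3 u i) = z (u i), so the nodes are near;
 d (phi (u i)) (phi (u (i+1))) <= |u i - u (i+1)| < eta. cis 0 = cis (2 pi) = 1, so v 0 = v N = cell h 1.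
(c) for p in P: wind (cell h p) = wind (0,0) by wind_rect with the rectangle a1 = min 0 (cell h p).1, a2 = max 0 (cell h p).1, b1 = min 0 (cell h p).2,
 b2 = max 0 (cell h p).2: a vertex w of the forbidden set has |w.1| <= |(cell h p).1| + 1 and |w.2| <= |(cell h p).2| + 1, so |h w.1| <= |Re p| + 2h, |h w.2| <= |Im p| + 2h and
 |gp h w| <= |p| + 4h <= rho + 4h < 1, so zr h w = gp h w has norm <= rho + 4h; but a vertex of the walk satisfies |zr h (v i)| >= |z (u i)| - 8h = 1 - 8h > rho + 4h. So the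
 walk avoids the forbidden set. c0 = wind (0,0).
 (|gp h w|: | |h w.1| , |h w.2| | in the Euclidean norm: |(x + 2h, y + 2h)| <= |(x,y)| + |(2h,2h)| <= |p| + 4h, with x = |Re p|, y = |Im p|.)
-/

open MeasureTheory Set Filter Topology Manifold
open scoped ENNReal NNReal ContDiff
open Pool.Agent.MIR (cis cp hol Jw Pic Tan PL ip gd)
open Pool.Agent.H74.Surf

noncomputable section

namespace Pool.Agent.TRG

variable {X : Type} {d : X → X → ℝ} {r : X → X} {Pi : X → ℂ} {P : Finset ℂ} {φ : ℝ → X}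

private theorem exists_rho (P : Finset ℂ) (hP : ∀ p ∈ P, ‖p‖ < 1) :
    ∃ ρ : ℝ, ρ < 1 ∧ ∀ p ∈ P, ‖p‖ ≤ ρ := by
  rcases P.eq_empty_or_nonempty with rfl | hne
  · exact ⟨0, zero_lt_one, fun p hp => absurd hp (Finset.notMem_empty p)⟩
  · obtain ⟨q, hq, hmax⟩ := P.exists_max_image (fun p => ‖p‖) hne
    exact ⟨‖q‖, hP q hq, hmax⟩

private theorem coord_le {h x : ℝ} (hh : 0 < h) {w : ℤ} (h1 : min 0 ⌊x / h⌋ ≤ w)
    (h2 : w ≤ max 0 ⌊x / h⌋ + 1) : |h * (w : ℝ)| ≤ |x| + 2 * h := by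
  have f1 : h * (⌊x / h⌋ : ℝ) ≤ x := by
    have := Int.floor_le (x / h)
    rwa [le_div_iff₀ hh, mul_comm] at this
  have f2 : x < h * (⌊x / h⌋ : ℝ) + h := by
    have := Int.lt_floor_add_one (x / h)
    rw [div_lt_iff₀ hh] at this
    linarith [mul_comm h ((⌊x / h⌋ : ℝ) + 1), mul_add h (⌊x / h⌋ : ℝ) 1]
  have g1 : min 0 (⌊x / h⌋ : ℝ) ≤ (w : ℝ) := by exact_mod_cast h1
  have g2 : (w : ℝ) ≤ max 0 (⌊x / h⌋ : ℝ) + 1 := by exact_mod_cast h2
  have a1 := neg_abs_le x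
  have a2 := le_abs_self x
  have a3 := abs_nonneg x
  rw [abs_le]
  constructor
  · rcases min_le_iff.1 g1 with h3 | h3
    · have : 0 ≤ h * (w : ℝ) := mul_nonneg hh.le h3
      linarith
    · have : h * (⌊x / h⌋ : ℝ) ≤ h * (w : ℝ) := mul_le_mul_of_nonneg_left h3 hh.le
      linarith
  · rcases le_total (0 : ℝ) (⌊x / h⌋ : ℝ) with h3 | h3
    · rw [max_eq_right h3] at g2
      have : h * (w : ℝ) ≤ h * ((⌊x / h⌋ : ℝ) + 1) := mul_le_mul_of_nonneg_left g2 hh.le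
      rw [mul_add] at this
      linarith
    · rw [max_eq_left h3] at g2
      have : h * (w : ℝ) ≤ h * (0 + 1) := mul_le_mul_of_nonneg_left g2 hh.le
      linarith

private theorem norm_gp_le {h : ℝ} (hh : 0 < h) {p : ℂ} {w : ℤ × ℤ}
    (h1 : |h * (w.1 : ℝ)| ≤ |p.re| + 2 * h) (h2 : |h * (w.2 : ℝ)| ≤ |p.im| + 2 * h) :
    ‖gp h w‖ ≤ ‖p‖ + 4 * h := by
  have hp := norm_nonneg p
  refine (sq_le_sq₀ (norm_nonneg _) (by linarith)).1 ?_
  rw [Complex.sq_norm, Complex.normSq_apply, gp_re, gp_im]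
  have e1 : (h * (w.1 : ℝ)) * (h * (w.1 : ℝ)) ≤ (|p.re| + 2 * h) * (|p.re| + 2 * h) := by
    rw [← abs_mul_abs_self (h * (w.1 : ℝ))]
    exact mul_le_mul h1 h1 (abs_nonneg _) ((abs_nonneg _).trans h1)
  have e2 : (h * (w.2 : ℝ)) * (h * (w.2 : ℝ)) ≤ (|p.im| + 2 * h) * (|p.im| + 2 * h) := by
    rw [← abs_mul_abs_self (h * (w.2 : ℝ))]
    exact mul_le_mul h2 h2 (abs_nonneg _) ((abs_nonneg _).trans h2)
  have e3 : ‖p‖ ^ 2 = |p.re| * |p.re| + |p.im| * |p.im| := by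
    rw [Complex.sq_norm, Complex.normSq_apply, abs_mul_abs_self, abs_mul_abs_self]
  have e4 := Complex.abs_re_le_norm p
  have e5 := Complex.abs_im_le_norm p
  nlinarith [mul_le_mul_of_nonneg_left e4 hh.le, mul_le_mul_of_nonneg_left e5 hh.le, sq_nonneg h]

private theorem norm_cis (t : ℝ) : ‖cis t‖ = 1 := by
  unfold Pool.Agent.MIR.cis
  exact Complex.norm_exp_ofReal_mul_I _

private theorem cis_two_pi : cis (3 * (2 * Real.pi / 3)) = cis (3 * 0) := by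
  unfold Pool.Agent.MIR.cis
  have h1 : (3 * (2 * Real.pi / 3) : ℝ) = 2 * Real.pi := by ring
  rw [h1]
  push_cast
  rw [Complex.exp_two_pi_mul_I]
  simp

theorem bd_chain (F : Fill d r Pi P φ) :
    ∃ h0 > 0, ∀ η > 0, ∀ h, 0 < h → h < h0 → ∃ (N : ℕ) (a : ℕ → (ℤ × ℤ) × X) (c0 : ZMod 3),
      Arc d Pi h η N a ∧ (a N).1 = (a 0).1 ∧ (a 0).2 = φ 0 ∧ (a N).2 = φ (2 * Real.pi / 3) ∧
      (∀ i ≤ N, ∃ t, (a i).2 = φ t) ∧
      ∀ p ∈ P, wind N (fun i => (a i).1) (cell h p) = c0 := by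
  obtain ⟨ρ, hρ, hρP⟩ := exists_rho P F.inner
  refine ⟨(1 - ρ) / 40, by linarith, fun η hη h hh hh0 => ?_⟩
  have hz : ContinuousOn (fun t : ℝ => cis (3 * t)) (Icc 0 (2 * Real.pi / 3)) := by
    unfold Pool.Agent.MIR.cis
    fun_prop
  obtain ⟨N, u, v, u1, u0, uN, _, uδ, vs, vn, v0, vN⟩ := discretize
    (a := 0) (b := 2 * Real.pi / 3) (by positivity) (z := fun t : ℝ => cis (3 * t)) hz
    (fun s _ => (norm_cis _).le) hh hη
  have hc : v N = v 0 := by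
    rw [v0, vN]
    show cell h (cis (3 * (2 * Real.pi / 3))) = cell h (cis (3 * 0))
    rw [cis_two_pi]
  refine ⟨N, fun i => (v i, φ (u i)), wind N v (0, 0), ⟨fun i hi => ?_, fun i hi => ⟨vs i hi, ?_⟩⟩,
    hc, ?_, ?_, fun i _ => ⟨u i, rfl⟩, fun p hp => ?_⟩
  · show ‖Pi (φ (u i)) - zr h (v i)‖ ≤ 8 * h
    rw [F.bdry]
    exact vn i hi
  · show d (φ (u i)) (φ (u (i + 1))) ≤ η
    refine (F.lip _ _).trans ?_
    rw [abs_sub_comm, abs_of_nonneg (sub_nonneg.2 (u1 i hi))]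
    exact (uδ i hi).le
  · show φ (u 0) = φ 0
    rw [u0]
  · show φ (u N) = φ (2 * Real.pi / 3)
    rw [uN]
  · show wind N v (cell h p) = wind N v (0, 0)
    refine wind_rect vs hc (a1 := min 0 (cell h p).1) (a2 := max 0 (cell h p).1)
      (b1 := min 0 (cell h p).2) (b2 := max 0 (cell h p).2) ?_
      ⟨min_le_right _ _, le_max_right _ _, min_le_right _ _, le_max_right _ _⟩
      ⟨min_le_left _ _, le_max_left _ _, min_le_left _ _, le_max_left _ _⟩
    rintro i hi ⟨w1, w2, w3, w4⟩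
    have k1 := coord_le hh w1 w2
    have k2 := coord_le hh w3 w4
    have k3 := norm_gp_le hh k1 k2
    have k4 := hρP p hp
    have k5 : ‖gp h (v i)‖ ≤ 1 := by linarith
    have k6 := vn i hi
    rw [zr_eq' k5] at k6
    have k7 : ‖cis (3 * u i)‖ ≤ ‖cis (3 * u i) - gp h (v i)‖ + ‖gp h (v i)‖ := by
      have := norm_add_le (cis (3 * u i) - gp h (v i)) (gp h (v i))
      rwa [sub_add_cancel] at this
    rw [norm_cis] at k7
    have k8 : ‖cis (3 * u i) - gp h (v i)‖ ≤ 8 * h := k6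
    linarith

end Pool.Agent.TRG
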