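import Mathlib
import Pool.Agent.TRG.Defs

/-
EXA: a closed 1-cochain on the grid is exact.  (60 lines)
PROOF.
(0) For every k : Int -> A there is G : Int -> A with G (n+1) - G n = k n for all n, G 0 = 0. (Define G n = sum over
  Finset.Ico 0 n of k for n >= 0 and minus the sum over Finset.Ico n 0 for n < 0; or use Int recursion Int.inductionOn' ; or
  G n = sum_{i in range n.toNat} k i - sum_{i in range (-n).toNat} k (-(i+1)).)
(1) Choose G0 for k = kh (., 0), and for every a choose V a for k = kv (a, .), V a 0 = 0. Put g (a,b) = G0 a + V a b.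
  Then g (a,b+1) - g (a,b) = kv (a,b).
(2) kh (a,b) = g (a+1,b) - g (a,b) by induction on b (Int.induction_on, up and down): b = 0: G0 (a+1) - G0 a. Step: by hflat
  kh (a,b+1) = kh (a,b) + kv (a+1,b) - kv (a,b) and g (a+1,b+1) - g (a,b+1) = (g (a+1,b) + kv (a+1,b)) - (g (a,b) + kv (a,b)).
-/

open MeasureTheory Set Filter Topology Manifold
open scoped ENNReal NNReal ContDiff
open Pool.Agent.MIR (cis cp hol Jw Pic Tan PL ip gd)
open Pool.Agent.H74.Surf

noncomputable section

namespace Pool.Agent.TRG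

private theorem exists_prim {A : Type} [AddCommGroup A] (k : ℤ → A) :
    ∃ G : ℤ → A, G 0 = 0 ∧ ∀ n, G (n + 1) - G n = k n := by
  refine ⟨fun n => ∑ i ∈ Finset.range n.toNat, k i -
    ∑ i ∈ Finset.range (-n).toNat, k (-((i : ℤ) + 1)), by simp, fun n => ?_⟩
  rcases lt_or_ge n 0 with h | h
  · obtain ⟨m, rfl⟩ : ∃ m : ℕ, n = -((m : ℤ) + 1) := ⟨(-n - 1).toNat, by omega⟩
    have h1 : (-((m : ℤ) + 1) + 1).toNat = 0 := by omega
    have h2 : (-((m : ℤ) + 1)).toNat = 0 := by omega
    have h3 : (-(-((m : ℤ) + 1) + 1)).toNat = m := by omega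
    have h4 : (-(-((m : ℤ) + 1))).toNat = m + 1 := by omega
    simp only [h1, h2, h3, h4, Finset.sum_range_succ, Finset.range_zero, Finset.sum_empty]
    abel
  · obtain ⟨m, rfl⟩ : ∃ m : ℕ, n = (m : ℤ) := ⟨n.toNat, by omega⟩
    have h1 : ((m : ℤ) + 1).toNat = m + 1 := by omega
    have h2 : ((m : ℤ)).toNat = m := by omega
    have h3 : (-((m : ℤ) + 1)).toNat = 0 := by omega
    have h4 : (-((m : ℤ))).toNat = 0 := by omega
    simp only [h1, h2, h3, h4, Finset.sum_range_succ, Finset.range_zero, Finset.sum_empty]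
    abel

theorem exact_of_flat {A : Type} [AddCommGroup A] (kh kv : ℤ × ℤ → A)
    (hflat : ∀ a b, kh (a, b) + kv (a + 1, b) = kv (a, b) + kh (a, b + 1)) :
    ∃ g : ℤ × ℤ → A, (∀ a b, kh (a, b) = g (a + 1, b) - g (a, b)) ∧
      ∀ a b, kv (a, b) = g (a, b + 1) - g (a, b) := by
  obtain ⟨G0, hG0, hG⟩ := exists_prim fun a => kh (a, 0)
  choose V hV0 hV using fun a : ℤ => exists_prim fun b => kv (a, b)
  refine ⟨fun p => G0 p.1 + V p.1 p.2, fun a b => ?_, fun a b => ?_⟩
  · show kh (a, b) = G0 (a + 1) + V (a + 1) b - (G0 a + V a b)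
    induction b using Int.induction_on with
    | zero =>
      rw [hV0, hV0, add_zero, add_zero]
      exact (hG a).symm
    | succ i ih =>
      have h1 := hflat a i
      have h2 : V (a + 1) ((i : ℤ) + 1) = kv (a + 1, (i : ℤ)) + V (a + 1) i := by
        rw [← hV (a + 1) i]; abel
      have h3 : V a ((i : ℤ) + 1) = kv (a, (i : ℤ)) + V a i := by
        rw [← hV a i]; abel
      have h4 : kh (a, (i : ℤ) + 1) = kh (a, (i : ℤ)) + kv (a + 1, (i : ℤ)) - kv (a, (i : ℤ)) := by
        rw [h1]; abel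
      rw [h4, h2, h3, ih]
      abel
    | pred i ih =>
      have h1 := hflat a (-(i : ℤ) - 1)
      rw [sub_add_cancel] at h1
      have h2 := hV (a + 1) (-(i : ℤ) - 1)
      have h3 := hV a (-(i : ℤ) - 1)
      rw [sub_add_cancel] at h2 h3
      have h4 : kh (a, -(i : ℤ) - 1) = kv (a, -(i : ℤ) - 1) + kh (a, -(i : ℤ)) -
          kv (a + 1, -(i : ℤ) - 1) := by
        rw [← h1]; abel
      rw [h4, ih, ← h2, ← h3]
      abel
  · show kv (a, b) = G0 a + V a (b + 1) - (G0 a + V a b)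
    rw [← hV a b]
    abel

end Pool.Agent.TRG
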