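import Mathlib
import Pool.Agent.TRG.Defs
import Pool.Agent.TRG.WND
import Pool.Agent.TRG.EXA

/-
STK: Stokes formula for closed grid walks.  (100 lines)
PROOF. (1) curv (ray f) g = (if g = f then 1 else 0). With g = (a,b): the horizontal steps give 0 (u.1 = w.1 fails); the vertical
  step (a+1,b) -> (a+1,b+1) gives 1 iff f.1 < a+1 and f.2 = b; the step (a,b+1) -> (a,b) gives -1 iff f.1 < a and f.2 = b; the
  difference is 1 iff f.1 = a and f.2 = b. (split_ifs, omega.)
(2) k' u w = k u w - sum_{f in S} curv k f * ray f u w is antisymmetric (ray_anti) and curv k' g = curv k g - sum_{f in S} curv k f *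
  (if g = f then 1 else 0) = 0 for all g (curv is additive; g in S: the sum is curv k g; g not in S: both are 0).
(3) Put kh (a,b) = k' (a,b) (a+1,b), kv (a,b) = k' (a,b) (a,b+1). By antisymmetry curv k' (a,b) = kh (a,b) + kv (a+1,b)
  - kh (a,b+1) - kv (a,b) = 0. EXA gives g with k' u w = g w - g u for every Step u w: equal points: k' u u = - k' u u, and x = -x
  implies x = 0 in ZMod 3 (decide); the four directions by kh, kv and antisymmetry.
(4) Sum over the closed walk: sum k' (v i) (v (i+1)) = g (v N) - g (v 0) = 0, i.e. sum k = sum_{f in S} curv k f * wind N v f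
  (exchange the sums).
-/

open MeasureTheory Set Filter Topology Manifold
open scoped ENNReal NNReal ContDiff
open Pool.Agent.MIR (cis cp hol Jw Pic Tan PL ip gd)
open Pool.Agent.H74.Surf

noncomputable section

namespace Pool.Agent.TRG

private theorem curv_ray (f g : ℤ × ℤ) : curv (ray f) g = if g = f then 1 else 0 := by
  obtain ⟨f1, f2⟩ := f
  obtain ⟨a, b⟩ := g
  have h1 : ray (f1, f2) (a, b) (a + 1, b) = 0 := by
    simp only [ray, true_and]
    split_ifs <;> first | (exfalso; omega) | rfl
  have h2 : ray (f1, f2) (a + 1, b) (a + 1, b + 1) = if f1 ≤ a ∧ b = f2 then 1 else 0 := by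
    simp only [ray, true_and]
    split_ifs <;> first | (exfalso; omega) | rfl
  have h3 : ray (f1, f2) (a + 1, b + 1) (a, b + 1) = 0 := by
    simp only [ray, true_and]
    split_ifs <;> first | (exfalso; omega) | rfl
  have h4 : ray (f1, f2) (a, b + 1) (a, b) = if f1 < a ∧ b = f2 then -1 else 0 := by
    simp only [ray, true_and]
    split_ifs <;> first | (exfalso; omega) | rfl
  simp only [curv]
  rw [h1, h2, h3, h4]
  simp only [Prod.mk.injEq]
  split_ifs <;> first | (exfalso; omega) | simp

private theorem zmod3_self {x : ZMod 3} (h : x = -x) : x = 0 := by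
  revert x
  decide

theorem stokes {κ : ℤ × ℤ → ℤ × ℤ → ZMod 3} (hanti : ∀ u w, κ w u = -κ u w)
    (S : Finset (ℤ × ℤ)) (hflat : ∀ f, f ∉ S → curv κ f = 0) {N : ℕ} {v : ℕ → ℤ × ℤ}
    (hs : ∀ i < N, Step (v i) (v (i + 1))) (hc : v N = v 0) :
    ∑ i ∈ Finset.range N, κ (v i) (v (i + 1)) = ∑ f ∈ S, curv κ f * wind N v f := by
  set κ' : ℤ × ℤ → ℤ × ℤ → ZMod 3 := fun u w => κ u w - ∑ f ∈ S, curv κ f * ray f u w with hκ'
  have anti : ∀ u w, κ' w u = -κ' u w := by
    intro u w
    simp only [hκ']
    rw [hanti u w]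
    have h1 : ∑ f ∈ S, curv κ f * ray f w u = -∑ f ∈ S, curv κ f * ray f u w := by
      rw [← Finset.sum_neg_distrib]
      exact Finset.sum_congr rfl fun f _ => by rw [ray_anti]; ring
    rw [h1]
    ring
  have flat : ∀ g, curv κ' g = 0 := by
    intro g
    have h1 : curv κ' g = curv κ g - ∑ f ∈ S, curv κ f * curv (ray f) g := by
      simp only [curv, hκ', mul_add, Finset.sum_add_distrib]
      ring
    rw [h1]
    by_cases hg : g ∈ S
    · rw [Finset.sum_eq_single g]
      · rw [curv_ray, if_pos rfl, mul_one, sub_self]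
      · intro f _ hf
        rw [curv_ray, if_neg (fun h => hf h.symm), mul_zero]
      · intro h; exact absurd hg h
    · rw [hflat g hg, Finset.sum_eq_zero, sub_zero]
      intro f hf
      rw [curv_ray, if_neg, mul_zero]
      rintro rfl
      exact hg hf
  obtain ⟨g, hgh, hgv⟩ := exact_of_flat (fun p => κ' p (p.1 + 1, p.2)) (fun p => κ' p (p.1, p.2 + 1))
    (by
      intro a b
      have h1 := flat (a, b)
      simp only [curv] at h1
      have h2 := anti (a, b + 1) (a + 1, b + 1)
      have h3 := anti (a, b) (a, b + 1)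
      rw [h2, h3] at h1
      show κ' (a, b) (a + 1, b) + κ' (a + 1, b) (a + 1, b + 1) =
        κ' (a, b) (a, b + 1) + κ' (a, b + 1) (a + 1, b + 1)
      linear_combination h1)
  have hstep : ∀ u w, Step u w → κ' u w = g w - g u := by
    rintro ⟨u1, u2⟩ ⟨w1, w2⟩ (h | ⟨h, h' | h'⟩ | ⟨h, h' | h'⟩)
    · obtain ⟨rfl, rfl⟩ := Prod.mk.inj h
      rw [sub_self]
      exact zmod3_self (anti _ _)
    · simp only at h h'
      subst h h'
      exact hgv u1 u2
    · simp only at h h'
      subst h h'
      rw [anti]
      have h1 := hgv u1 w2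
      simp only at h1
      rw [h1]
      ring
    · simp only at h h'
      subst h h'
      exact hgh u1 u2
    · simp only at h h'
      subst h h'
      rw [anti]
      have h1 := hgh w1 u2
      simp only at h1
      rw [h1]
      ring
  have hsum : ∑ i ∈ Finset.range N, κ' (v i) (v (i + 1)) = 0 := by
    have h1 : ∀ i ∈ Finset.range N, κ' (v i) (v (i + 1)) = g (v (i + 1)) - g (v i) := fun i hi =>
      hstep _ _ (hs i (Finset.mem_range.1 hi))
    refine (Finset.sum_congr rfl h1).trans ((Finset.sum_range_sub (fun j => g (v j)) N).trans ?_)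
    simp only [hc, sub_self]
  simp only [hκ'] at hsum
  rw [Finset.sum_sub_distrib, Finset.sum_comm, sub_eq_zero] at hsum
  rw [hsum]
  refine Finset.sum_congr rfl fun f _ => ?_
  rw [wind, Finset.mul_sum]

end Pool.Agent.TRG
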