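import Mathlib
import Pool.Agent.TRG.Defs
import Pool.Agent.TRG.WRC
import Pool.Agent.TRG.STK

/-
CLU: Stokes formula when the curvature is supported in finitely many separated squares.  (60 lines)
PROOF. S p = Finset.Icc ((f p).1 - m) ((f p).1 + m) x Finset.Icc ((f p).2 - m) ((f p).2 + m), S = P.biUnion S. The S p (p in P) are pairwise
disjoint: g in S p and in S q gives |(f p).1 - (f q).1| <= 2m and |(f p).2 - (f q).2| <= 2m. Outside S the curvature is 0 (hflat).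
Put e p = sum_{g in S p} curv k g. By stokes and Finset.sum_biUnion: sum k = sum_p sum_{g in S p} curv k g * wind g, and
wind g = wind (f p) for g in S p by wind_rect with a1 = (f p).1 - m, a2 = (f p).1 + m etc. (the walk avoids |v.1 - (f p).1| <= m+1,
|v.2 - (f p).2| <= m+1, which contains [a1,a2+1] x [b1,b2+1]).
-/

open MeasureTheory Set Filter Topology Manifold
open scoped ENNReal NNReal ContDiff
open Pool.Agent.MIR (cis cp hol Jw Pic Tan PL ip gd)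
open Pool.Agent.H74.Surf

noncomputable section

namespace Pool.Agent.TRG

private def CLUS (f : ℂ → ℤ × ℤ) (m : ℤ) (p : ℂ) : Finset (ℤ × ℤ) :=
  Finset.Icc ((f p).1 - m) ((f p).1 + m) ×ˢ Finset.Icc ((f p).2 - m) ((f p).2 + m)

private theorem CLU_mem {f : ℂ → ℤ × ℤ} {m : ℤ} {p : ℂ} {g : ℤ × ℤ} :
    g ∈ CLUS f m p ↔ |g.1 - (f p).1| ≤ m ∧ |g.2 - (f p).2| ≤ m := by
  unfold CLUS
  rw [Finset.mem_product, Finset.mem_Icc, Finset.mem_Icc, abs_le, abs_le]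
  constructor
  · rintro ⟨⟨h1, h2⟩, h3, h4⟩
    exact ⟨⟨by linarith, by linarith⟩, by linarith, by linarith⟩
  · rintro ⟨⟨h1, h2⟩, h3, h4⟩
    exact ⟨⟨by linarith, by linarith⟩, by linarith, by linarith⟩

theorem clusters {κ : ℤ × ℤ → ℤ × ℤ → ZMod 3} (hanti : ∀ u w, κ w u = -κ u w)
    (P : Finset ℂ) (f : ℂ → ℤ × ℤ) {m : ℤ} (hm : 0 ≤ m)
    (hsep : ∀ p ∈ P, ∀ q ∈ P, p ≠ q →
      ¬(|(f p).1 - (f q).1| ≤ 2 * m ∧ |(f p).2 - (f q).2| ≤ 2 * m))
    (hflat : ∀ g : ℤ × ℤ, (∀ p ∈ P, ¬(|g.1 - (f p).1| ≤ m ∧ |g.2 - (f p).2| ≤ m)) →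
      curv κ g = 0) :
    ∃ e : ℂ → ZMod 3, ∀ (N : ℕ) (v : ℕ → ℤ × ℤ), (∀ i < N, Step (v i) (v (i + 1))) →
      v N = v 0 →
      (∀ i ≤ N, ∀ p ∈ P, ¬(|(v i).1 - (f p).1| ≤ m + 1 ∧ |(v i).2 - (f p).2| ≤ m + 1)) →
      ∑ i ∈ Finset.range N, κ (v i) (v (i + 1)) = ∑ p ∈ P, e p * wind N v (f p) := by
  classical
  refine ⟨fun p => ∑ g ∈ CLUS f m p, curv κ g, fun N v hs hc hv => ?_⟩
  have h1 := stokes hanti (P.biUnion (CLUS f m)) (fun g hg => hflat g fun p hp hcon =>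
    hg (Finset.mem_biUnion.2 ⟨p, hp, CLU_mem.2 hcon⟩)) hs hc
  rw [h1, Finset.sum_biUnion]
  · refine Finset.sum_congr rfl fun p hp => ?_
    rw [Finset.sum_mul]
    refine Finset.sum_congr rfl fun g hg => ?_
    have hg' := CLU_mem.1 hg
    rw [abs_le, abs_le] at hg'
    rw [wind_rect hs hc (a1 := (f p).1 - m) (a2 := (f p).1 + m) (b1 := (f p).2 - m)
      (b2 := (f p).2 + m) (f := g) (g := f p) ?_ ?_ ?_]
    · intro i hi hcon
      refine hv i hi p hp ⟨abs_le.2 ⟨?_, ?_⟩, abs_le.2 ⟨?_, ?_⟩⟩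
      · linarith [hcon.1]
      · linarith [hcon.2.1]
      · linarith [hcon.2.2.1]
      · linarith [hcon.2.2.2]
    · exact ⟨by linarith [hg'.1.1], by linarith [hg'.1.2], by linarith [hg'.2.1], by linarith [hg'.2.2]⟩
    · exact ⟨by linarith, by linarith, by linarith, by linarith⟩
  · intro p hp q hq hpq
    rw [Function.onFun, Finset.disjoint_left]
    intro g hg hg'
    have h2 := CLU_mem.1 hg
    have h3 := CLU_mem.1 hg'
    rw [abs_le, abs_le] at h2 h3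
    refine hsep p hp q hq hpq ⟨abs_le.2 ⟨?_, ?_⟩, abs_le.2 ⟨?_, ?_⟩⟩
    · linarith [h2.1.1, h2.1.2, h3.1.1, h3.1.2]
    · linarith [h2.1.1, h2.1.2, h3.1.1, h3.1.2]
    · linarith [h2.2.1, h2.2.2, h3.2.1, h3.2.2]
    · linarith [h2.2.1, h2.2.2, h3.2.1, h3.2.2]

end Pool.Agent.TRG
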