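import Mathlib
import Pool.Agent.TRG.Defs
import Pool.Agent.TRG.ACT
import Pool.Agent.TRG.GRD

/-
LAB: labels of the nodes of a chain; the type of a closed chain is the sum of a cochain.  (150 lines)
PROOF. Write D j x = act r j x. Choose b : Int x Int -> X with Pi (b v) = zr h v (C.surj, norm_zr_le). If G v holds then
del <= d (b v) (r (b v)), so (cov_dist) for all i <> j:  d (D i (b v)) (D j (b v)) = d (b v) (D (j - i) (b v)) >= del   (*)
(apply D (-i): cov_inv, act_add, act_zero).
LABELS: if |Pi x - zr h v| <= 8h there is l with d x (D l (b v)) < e1 (hlift x (b v)). If G v, l is unique by (*) and 2 e1 < del.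
COCHAIN: for a Step u w with G u, G w, |Pi (b w) - Pi (b u)| = |zr w - zr u| <= 2h <= 8h, so there is j with d (b w) (D j (b u)) < e1, unique by (*).
 Define k0 u w = that j if Step u w, G u, G w hold (Classical.choose), else 0, and k u w = - k0 u w.
 Antisymmetry: Step, and the condition, are symmetric in u, w; d (b w) (D j (b u)) = d (D (-j) (b w)) (b u), so -j is the number for (w,u), by uniqueness.
FLATNESS: corners v1 = (a,b), v2 = (a+1,b), v3 = (a+1,b+1), v4 = (a,b+1), all in G, consecutive ones are Steps. With j1 = k0 v1 v2 etc: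
 b v2 ~ D j1 (b v1), b v3 ~ D j2 (b v2) ~ D (j2+j1) (b v1), b v4 ~ D (j3+j2+j1) (b v1), b v1 ~ D (j4+j3+j2+j1) (b v1) within 4 e1 < del,
 so the sum is 0 by (*) (if it were j <> 0, d (b v1) (D j (b v1)) >= del).
TYPE: Let l i be a label of (a i): d x_i (D (l i) (b v_i)) < e1. For i < N put j = k0 v_i v_{i+1}. Then D (l (i+1)) (D j (b v_i)) is within e1 of
 D (l (i+1)) (b v_{i+1}), which is within e1 of x_{i+1}, within e1 of x_i (the step, d x_i x_{i+1} <= e1), within e1 of D (l i) (b v_i). (If v_i = v_{i+1}: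
 Step holds, j = 0 by uniqueness because d (b v) (D 0 (b v)) = 0 < e1; so this case is included.) Total < 4 e1 < del, hence by (*)
 l (i+1) + j = l i, i.e. l (i+1) - l i = k v_i v_{i+1}. Sum: l N - l 0 = sum k. As v_N = v_0: d x_N (D (l N) (b v_0)) < e1 and
 d (D (l N - l 0) x_0) (D (l N) (b v_0)) = d x_0 (D (l 0) (b v_0)) < e1; so d x_N (D (l N - l 0) x_0) <= 2 e1.
-/

open MeasureTheory Set Filter Topology Manifold
open scoped ENNReal NNReal ContDiff
open Pool.Agent.MIR (cis cp hol Jw Pic Tan PL ip gd)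
open Pool.Agent.H74.Surf

noncomputable section

namespace Pool.Agent.TRG

variable {X : Type} {d : X → X → ℝ} {r : X → X} {Pi : X → ℂ} {P : Finset ℂ}

private theorem LAB_step {u w : ℤ × ℤ} (h : Step u w) : Step w u := by
  rcases h with h | ⟨h, h' | h'⟩ | ⟨h, h' | h'⟩
  · exact Or.inl h.symm
  · exact Or.inr (Or.inl ⟨h.symm, Or.inr h'⟩)
  · exact Or.inr (Or.inl ⟨h.symm, Or.inl h'⟩)
  · exact Or.inr (Or.inr ⟨h.symm, Or.inr h'⟩)
  · exact Or.inr (Or.inr ⟨h.symm, Or.inl h'⟩)

/-- the translates of a point are separated -/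
private theorem LAB_sep (C : Cov3 d r Pi P) {δ : ℝ} {x : X} (hx : δ ≤ d x (r x)) {i j : ZMod 3}
    (h : d (act r i x) (act r j x) < δ) : i = j := by
  by_contra hij
  have e : act r j x = act r i (act r (j - i) x) := by
    rw [← act_add C.cube]
    congr 1
    ring
  rw [e, cov_inv C, cov_dist C (sub_ne_zero.2 (Ne.symm hij))] at h
  linarith

/-- composition of two steps -/
private theorem LAB_comp (C : Cov3 d r Pi P) {x y z : X} {i j : ZMod 3} {s t : ℝ}
    (h1 : d y (act r i x) < s) (h2 : d z (act r j y) < t) : d z (act r (j + i) x) < t + s := by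
  rw [act_add C.cube]
  have h3 := C.tri z (act r j y) (act r j (act r i x))
  rw [cov_inv C] at h3
  linarith

theorem labels (C : Cov3 d r Pi P) {h ε δ : ℝ} (hh : 0 < h) (hε : 0 < ε)
    (hlift : ∀ x y, ‖Pi x - Pi y‖ ≤ 8 * h → ∃ j, d x (act r j y) < ε)
    (G : ℤ × ℤ → Prop) (hG : ∀ v, G v → ∀ x, Pi x = zr h v → δ ≤ d x (r x))
    (hδ : 12 * ε ≤ δ) :
    ∃ κ : ℤ × ℤ → ℤ × ℤ → ZMod 3, (∀ u w, κ w u = -κ u w) ∧
      (∀ a b : ℤ, G (a, b) → G (a + 1, b) → G (a + 1, b + 1) → G (a, b + 1) →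
        curv κ (a, b) = 0) ∧
      ∀ (N : ℕ) (a : ℕ → (ℤ × ℤ) × X), Arc d Pi h ε N a → (∀ i ≤ N, G (a i).1) →
        (a N).1 = (a 0).1 →
        d (a N).2 (act r (∑ i ∈ Finset.range N, κ (a i).1 (a (i + 1)).1) (a 0).2) ≤ 2 * ε := by
  classical
  have hsurj : ∀ v : ℤ × ℤ, ∃ x, Pi x = zr h v := fun v => C.surj _ (norm_zr_le h v)
  choose b hb using hsurj
  have hsep : ∀ v, G v → ∀ i j : ZMod 3, d (act r i (b v)) (act r j (b v)) < δ → i = j :=
    fun v hv i j hij => LAB_sep C (hG v hv (b v) (hb v)) hij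
  have hex : ∀ u w, Step u w → ∃ j, d (b w) (act r j (b u)) < ε := by
    intro u w hs
    refine hlift _ _ ?_
    rw [hb, hb]
    exact (zr_step hh (LAB_step hs)).trans (by linarith)
  let κ : ℤ × ℤ → ℤ × ℤ → ZMod 3 := fun u w =>
    if hc : Step u w ∧ G u ∧ G w then -Classical.choose (hex u w hc.1) else 0
  have hκ : ∀ u w, Step u w → G u → G w → d (b w) (act r (-κ u w) (b u)) < ε := by
    intro u w hs hu hw
    have hc : Step u w ∧ G u ∧ G w := ⟨hs, hu, hw⟩
    have e : κ u w = -Classical.choose (hex u w hc.1) := dif_pos hc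
    rw [e, neg_neg]
    exact Classical.choose_spec (hex u w hc.1)
  refine ⟨κ, ?_, ?_, ?_⟩
  · -- antisymmetry
    intro u w
    by_cases hc : Step u w ∧ G u ∧ G w
    · obtain ⟨hs, hu, hw⟩ := hc
      have h1 := hκ u w hs hu hw
      have h2 := hκ w u (LAB_step hs) hw hu
      -- `b u` is near to `D (κ u w) (b w)`
      have h3 : d (act r (κ u w) (b w)) (b u) < ε := by
        have e : b u = act r (κ u w) (act r (-κ u w) (b u)) := by
          rw [← act_add C.cube, add_neg_cancel, act_zero]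
        rw [e, cov_inv C]
        exact h1
      have h4 := C.tri (act r (κ u w) (b w)) (b u) (act r (-κ w u) (b w))
      have h5 := hsep w hw (κ u w) (-κ w u) (by linarith)
      rw [h5, neg_neg]
    · have hc' : ¬ (Step w u ∧ G w ∧ G u) := fun h => hc ⟨LAB_step h.1, h.2.2, h.2.1⟩
      have e1 : κ u w = 0 := dif_neg hc
      have e2 : κ w u = 0 := dif_neg hc'
      rw [e1, e2, neg_zero]
  · -- flatness
    intro p q g1 g2 g3 g4
    have s1 : Step (p, q) (p + 1, q) := Or.inr (Or.inr ⟨rfl, Or.inl rfl⟩)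
    have s2 : Step (p + 1, q) (p + 1, q + 1) := Or.inr (Or.inl ⟨rfl, Or.inl rfl⟩)
    have s3 : Step (p + 1, q + 1) (p, q + 1) := Or.inr (Or.inr ⟨rfl, Or.inr rfl⟩)
    have s4 : Step (p, q + 1) (p, q) := Or.inr (Or.inl ⟨rfl, Or.inr rfl⟩)
    have h1 := hκ _ _ s1 g1 g2
    have h2 := hκ _ _ s2 g2 g3
    have h3 := hκ _ _ s3 g3 g4
    have h4 := hκ _ _ s4 g4 g1
    have h5 := LAB_comp C (LAB_comp C (LAB_comp C h1 h2) h3) h4
    have h6 := hsep (p, q) g1 0 (-κ (p, q + 1) (p, q) + (-κ (p + 1, q + 1) (p, q + 1) +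
      (-κ (p + 1, q) (p + 1, q + 1) + -κ (p, q) (p + 1, q)))) (by
        rw [act_zero]
        linarith)
    show κ (p, q) (p + 1, q) + κ (p + 1, q) (p + 1, q + 1) +
      κ (p + 1, q + 1) (p, q + 1) + κ (p, q + 1) (p, q) = 0
    linear_combination h6
  · -- the type of a closed chain
    rintro N a ⟨ha1, ha2⟩ hGa hcl
    have hlab : ∀ i ≤ N, ∃ l, d (a i).2 (act r l (b (a i).1)) < ε := by
      intro i hi
      refine hlift _ _ ?_
      rw [hb]
      exact ha1 i hi
    obtain ⟨l0, hl0⟩ := hlab 0 (Nat.zero_le N)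
    have key : ∀ n ≤ N, d (a n).2 (act r
        (l0 + ∑ i ∈ Finset.range n, κ (a i).1 (a (i + 1)).1) (b (a n).1)) < ε := by
      intro n
      induction n with
      | zero =>
        intro _
        rw [Finset.sum_range_zero, add_zero]
        exact hl0
      | succ n ih =>
        intro hn
        have h1 := ih (by omega)
        obtain ⟨l', hl'⟩ := hlab (n + 1) hn
        obtain ⟨hst, hds⟩ := ha2 n (by omega)
        have h2 := hκ _ _ hst (hGa n (by omega)) (hGa (n + 1) hn)
        set S := l0 + ∑ i ∈ Finset.range n, κ (a i).1 (a (i + 1)).1 with hS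
        set j := -κ (a n).1 (a (n + 1)).1 with hj
        -- `x_{n+1}` is near to `D (l' + j) (b v_n)`
        have h3 := LAB_comp C h2 hl'
        have h4 : d (act r S (b (a n).1)) (act r (l' + j) (b (a n).1)) < δ := by
          have t1 := C.tri (act r S (b (a n).1)) (a n).2 (act r (l' + j) (b (a n).1))
          have t2 := C.tri (a n).2 (a (n + 1)).2 (act r (l' + j) (b (a n).1))
          have t3 := C.symm (act r S (b (a n).1)) (a n).2
          linarith
        have h5 := hsep _ (hGa n (by omega)) _ _ h4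
        have h6 : l0 + ∑ i ∈ Finset.range (n + 1), κ (a i).1 (a (i + 1)).1 = l' := by
          rw [Finset.sum_range_succ, ← add_assoc, ← hS, h5, hj]
          ring
        rw [h6]
        exact hl'
    have h1 := key N le_rfl
    set S := ∑ i ∈ Finset.range N, κ (a i).1 (a (i + 1)).1 with hS
    have h2 : d (act r S (a 0).2) (act r (l0 + S) (b (a N).1)) < ε := by
      rw [hcl, add_comm l0 S, act_add C.cube, cov_inv C]
      exact hl0
    have h3 := C.tri (a N).2 (act r (l0 + S) (b (a N).1)) (act r S (a 0).2)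
    have h4 := C.symm (act r (l0 + S) (b (a N).1)) (act r S (a 0).2)
    linarith

end Pool.Agent.TRG
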