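import Mathlib
import Pool.Agent.TRG.Defs
import Pool.Agent.TRG.ACT
import Pool.Agent.TRG.GRD
import Pool.Agent.TRG.CLU
import Pool.Agent.TRG.LAB

/-
COV: the type of a closed chain away from the branch points is a linear function of its winding numbers.  (150 lines)
PROOF. (1) Choose rho > 0 with rho <= R, |p| + rho <= 1 for p in P, and rho <= |p - q| / 2 for p <> q in P (finitely many positive numbers;
  Finset induction or Finset.exists_min_image / inf'). C.free (rho/2) gives del > 0. e1 = min eps del / 24 (> 0). C.lift e1 gives d2 > 0.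
  h0 = min (d2 / 16) (rho / 200), eta = e1. Let 0 < h < h0.
(2) G v : for all p in P, rho/2 <= |zr h v - p|. LAB applies (hlift: |Pi x - Pi y| <= 8h < d2; hG: C.free; 12 e1 <= del). It gives k.
(3) CLU with f = cell h and m = ceil (rho / (2h)) + 2. 
  Facts: for p in P, |Re p / h - (cell h p).1| <= 1 and the same for Im.
  (a) If zr h v is at distance < rho/2 from p then |zr h v| < 1, so zr h v = gp h v (zr_eq), |h v.1 - Re p| < rho/2, hence
      |v.1 - (cell h p).1| <= rho/(2h) + 1 <= m - 1, and the same for v.2.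
  hflat: if g is in no cluster then all corners (g.1,g.2), (g.1+1,g.2), (g.1+1,g.2+1), (g.1,g.2+1) satisfy G: otherwise a corner v has
      |v.1 - (cell h p).1| <= m - 1, |v.2 - (cell h p).2| <= m - 1 for some p, and |g.1 - v.1| <= 1, |g.2 - v.2| <= 1, contradiction.
  hsep: |(cell p).1 - (cell q).1| <= 2m and the same for the second coordinate imply |p - q| <= |Re(p-q)| + |Im(p-q)|... use
      |Re (p-q)| <= h (2m + 2), |Im (p-q)| <= h (2m+2), h m <= rho/2 + 3h, so |p - q|^2 <= 2 (rho + 8h)^2 < (2 rho)^2 as 8h <= rho/25; but 2 rho <= |p - q|.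
(4) Let a be a chain as in the statement, v i = (a i).1. For p in P: |zr h (v i) - p| >= R - 8h >= rho - 8h >= rho/2, so G (v i).
  The walk avoids the clusters: if |(v i).1 - (cell p).1| <= m+1 and the same for the second coordinate, then |Re (gp h (v i) - p)| <= h (m + 2)
  <= rho/2 + 5h + ... (h m <= rho/2 + 3h, so <= rho/2 + 5h), same for Im, so |gp h (v i) - p|^2 <= 2 (rho/2 + 5h)^2, i.e.
  |gp h (v i) - p| <= 0.71 rho + 8h < rho - 8h (h < rho/200; square both sides: 2 (rho/2 + rho/40)^2 <= 0.552 rho^2 < (0.96 rho)^2). In particular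
  |gp h (v i)| < |p| + rho <= 1, so zr h (v i) = gp h (v i) (zr_eq') and |zr h (v i) - p| < rho - 8h, a contradiction.
  So sum k (v i) (v (i+1)) = sum_p e p * wind (cell h p), and LAB gives the claim with 2 e1 <= eps.
-/

open MeasureTheory Set Filter Topology Manifold
open scoped ENNReal NNReal ContDiff
open Pool.Agent.MIR (cis cp hol Jw Pic Tan PL ip gd)
open Pool.Agent.H74.Surf

noncomputable section

namespace Pool.Agent.TRG

variable {X : Type} {d : X → X → ℝ} {r : X → X} {Pi : X → ℂ} {P : Finset ℂ}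

private theorem COV_pos {α : Type*} (s : Finset α) (f : α → ℝ) (hf : ∀ a ∈ s, 0 < f a) :
    ∃ t > 0, ∀ a ∈ s, t ≤ f a := by
  classical
  induction s using Finset.induction_on with
  | empty => exact ⟨1, one_pos, by simp⟩
  | insert a s ha ih =>
    obtain ⟨t, ht, h⟩ := ih fun b hb => hf b (Finset.mem_insert_of_mem hb)
    refine ⟨min t (f a), lt_min ht (hf a (Finset.mem_insert_self _ _)), fun b hb => ?_⟩
    rcases Finset.mem_insert.1 hb with rfl | hb
    · exact min_le_right _ _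
    · exact (min_le_left _ _).trans (h b hb)

private theorem COV_rho (hP : ∀ p ∈ P, ‖p‖ < 1) {R : ℝ} (hR : 0 < R) :
    ∃ ρ > 0, ρ ≤ R ∧ (∀ p ∈ P, ‖p‖ + ρ ≤ 1) ∧
      ∀ p ∈ P, ∀ q ∈ P, p ≠ q → 2 * ρ ≤ ‖p - q‖ := by
  obtain ⟨t1, ht1, h1⟩ := COV_pos P (fun p => 1 - ‖p‖) fun p hp => sub_pos.2 (hP p hp)
  obtain ⟨t2, ht2, h2⟩ := COV_pos P.offDiag (fun x : ℂ × ℂ => ‖x.1 - x.2‖) fun x hx => by
    rw [Finset.mem_offDiag] at hx
    exact norm_pos_iff.2 (sub_ne_zero.2 hx.2.2)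
  refine ⟨min R (min t1 (t2 / 2)), lt_min hR (lt_min ht1 (by positivity)), min_le_left _ _,
    fun p hp => ?_, fun p hp q hq hpq => ?_⟩
  · have h3 := h1 p hp
    have h4 : min R (min t1 (t2 / 2)) ≤ t1 := (min_le_right _ _).trans (min_le_left _ _)
    linarith
  · have h3 := h2 (p, q) (Finset.mem_offDiag.2 ⟨hp, hq, hpq⟩)
    have h4 : min R (min t1 (t2 / 2)) ≤ t2 / 2 := (min_le_right _ _).trans (min_le_right _ _)
    simp only at h3
    linarith

private theorem COV_sq {z : ℂ} {t : ℝ} (h1 : |z.re| ≤ t) (h2 : |z.im| ≤ t) :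
    ‖z‖ ^ 2 ≤ 2 * t ^ 2 := by
  rw [Complex.sq_norm, Complex.normSq_apply]
  have h3 := sq_le_sq' (by linarith [(abs_le.1 h1).1]) (abs_le.1 h1).2
  have h4 := sq_le_sq' (by linarith [(abs_le.1 h2).1]) (abs_le.1 h2).2
  nlinarith

/-- The corner of the grid square of a real number. -/
private theorem COV_cell {h : ℝ} (hh : 0 < h) (x : ℝ) :
    h * (⌊x / h⌋ : ℤ) ≤ x ∧ x < h * (⌊x / h⌋ : ℤ) + h := by
  have h1 := Int.floor_le (x / h)
  have h2 := Int.lt_floor_add_one (x / h)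
  rw [le_div_iff₀ hh] at h1
  rw [div_lt_iff₀ hh] at h2
  constructor
  · linarith
  · linarith

private theorem COV_far {h : ℝ} (hh : 0 < h) {x y : ℝ} {a b : ℤ}
    (hx : x = h * a) (hb1 : h * b ≤ y) (hb2 : y < h * b + h) {n : ℤ} (hn : |a - b| ≤ n) :
    |x - y| ≤ h * n + h := by
  have h1 : ((|a - b| : ℤ) : ℝ) ≤ n := by exact_mod_cast hn
  rw [Int.cast_abs, Int.cast_sub] at h1
  obtain ⟨h2, h3⟩ := abs_le.1 h1
  have h4 := mul_le_mul_of_nonneg_left h3 hh.le
  have h5 := mul_le_mul_of_nonneg_left h2 hh.le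
  rw [hx, abs_le]
  constructor
  · nlinarith
  · nlinarith

private theorem COV_close {h : ℝ} (hh : 0 < h) {x y t : ℝ} {a b n : ℤ}
    (hx : x = h * a) (hb1 : h * b ≤ y) (hb2 : y < h * b + h) (hxy : |x - y| < t)
    (hn : t + h ≤ h * n) : |a - b| ≤ n := by
  obtain ⟨h1, h2⟩ := abs_lt.1 hxy
  rw [abs_le]
  constructor
  · have h3 : h * ((-n : ℤ) : ℝ) ≤ h * ((a - b : ℤ) : ℝ) := by
      push_cast
      nlinarith
    exact_mod_cast le_of_mul_le_mul_left h3 hh
  · have h3 : h * ((a - b : ℤ) : ℝ) ≤ h * (n : ℝ) := by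
      push_cast
      nlinarith
    exact_mod_cast le_of_mul_le_mul_left h3 hh

theorem cov (C : Cov3 d r Pi P) {R ε : ℝ} (hR : 0 < R) (hε : 0 < ε) :
    ∃ h0 > 0, ∃ η > 0, ∀ h, 0 < h → h < h0 → ∃ e : ℂ → ZMod 3,
      ∀ (N : ℕ) (a : ℕ → (ℤ × ℤ) × X), Arc d Pi h η N a →
        (∀ i ≤ N, ∀ p ∈ P, R ≤ ‖Pi (a i).2 - p‖) → (a N).1 = (a 0).1 →
        d (a N).2 (act r (∑ p ∈ P, e p * wind N (fun i => (a i).1) (cell h p)) (a 0).2) ≤ ε := by
  obtain ⟨ρ, hρ, hρR, hρ1, hρ2⟩ := COV_rho C.inner hR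
  obtain ⟨δ, hδ, hfree⟩ := C.free (ρ / 2) (by positivity)
  obtain ⟨e1, he1, he1ε, he1δ⟩ : ∃ e1 > 0, 2 * e1 ≤ ε ∧ 12 * e1 ≤ δ := by
    refine ⟨min ε δ / 24, by positivity, ?_, ?_⟩
    · have := min_le_left ε δ
      linarith
    · have := min_le_right ε δ
      linarith
  obtain ⟨d2, hd2, hlift⟩ := C.lift e1 he1
  refine ⟨min (d2 / 16) (ρ / 200), by positivity, e1, he1, fun h hh hh0 => ?_⟩
  have hhd : h < d2 / 16 := lt_of_lt_of_le hh0 (min_le_left _ _)
  have hhρ : h < ρ / 200 := lt_of_lt_of_le hh0 (min_le_right _ _)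
  let G : ℤ × ℤ → Prop := fun v => ∀ p ∈ P, ρ / 2 ≤ ‖zr h v - p‖
  obtain ⟨κ, hanti, hflat0, htype⟩ := labels C hh he1
    (fun x y hxy => hlift x y (by linarith)) G
    (fun v hv x hx => hfree x fun p hp => by rw [hx]; exact hv p hp) he1δ
  -- the size of the clusters
  obtain ⟨m, hm1, hm2⟩ : ∃ m : ℤ, ρ / 2 + 2 * h ≤ h * m ∧ h * m < ρ / 2 + 3 * h := by
    refine ⟨⌈ρ / (2 * h)⌉ + 2, ?_, ?_⟩
    · have h1 := Int.le_ceil (ρ / (2 * h))
      have h2 : h * (ρ / (2 * h)) = ρ / 2 := by field_simp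
      have h3 := mul_le_mul_of_nonneg_left h1 hh.le
      push_cast
      linarith
    · have h1 := Int.ceil_lt_add_one (ρ / (2 * h))
      have h2 : h * (ρ / (2 * h)) = ρ / 2 := by field_simp
      have h3 := mul_lt_mul_of_pos_left h1 hh
      push_cast
      linarith
  have hm0 : 0 ≤ m := by
    have h1 : h * ((0 : ℤ) : ℝ) ≤ h * (m : ℝ) := by
      push_cast
      nlinarith
    exact_mod_cast le_of_mul_le_mul_left h1 hh
  have hc1 : ∀ p : ℂ, h * ((cell h p).1 : ℝ) ≤ p.re ∧ p.re < h * ((cell h p).1 : ℝ) + h :=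
    fun p => COV_cell hh p.re
  have hc2 : ∀ p : ℂ, h * ((cell h p).2 : ℝ) ≤ p.im ∧ p.im < h * ((cell h p).2 : ℝ) + h :=
    fun p => COV_cell hh p.im
  -- nodes near a branch point
  have hnear : ∀ v : ℤ × ℤ, ∀ p ∈ P, ‖zr h v - p‖ < ρ / 2 →
      |v.1 - (cell h p).1| ≤ m - 1 ∧ |v.2 - (cell h p).2| ≤ m - 1 := by
    intro v p hp hv
    have h1 : ‖zr h v‖ < 1 := by
      have h2 := norm_sub_norm_le (zr h v) p
      have h3 := hρ1 p hp
      linarith
    rw [zr_eq h1] at hv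
    have h4 : h * (m : ℝ) = h * ((m - 1 : ℤ) : ℝ) + h := by
      push_cast
      ring
    constructor
    · refine COV_close (x := (gp h v).re) (y := p.re) (t := ρ / 2) hh (gp_re h v) (hc1 p).1
        (hc1 p).2 ?_ (by linarith)
      have h5 := Complex.abs_re_le_norm (gp h v - p)
      rw [Complex.sub_re] at h5
      linarith
    · refine COV_close (x := (gp h v).im) (y := p.im) (t := ρ / 2) hh (gp_im h v) (hc2 p).1
        (hc2 p).2 ?_ (by linarith)
      have h5 := Complex.abs_im_le_norm (gp h v - p)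
      rw [Complex.sub_im] at h5
      linarith
  obtain ⟨e, he⟩ := clusters hanti P (fun p => cell h p) hm0
    (by
      rintro p hp q hq hpq ⟨h1, h2⟩
      have h3 := hρ2 p hp q hq hpq
      obtain ⟨a1, a2⟩ := hc1 p
      obtain ⟨b1, b2⟩ := hc2 p
      have h4 : |h * ((cell h p).1 : ℝ) - q.re| ≤ h * ((2 * m : ℤ) : ℝ) + h :=
        COV_far hh rfl (hc1 q).1 (hc1 q).2 h1
      have h5 : |h * ((cell h p).2 : ℝ) - q.im| ≤ h * ((2 * m : ℤ) : ℝ) + h :=
        COV_far hh rfl (hc2 q).1 (hc2 q).2 h2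
      push_cast at h4 h5
      obtain ⟨h6, h7⟩ := abs_le.1 h4
      obtain ⟨h8, h9⟩ := abs_le.1 h5
      have h10 : |(p - q).re| ≤ ρ + 8 * h := by
        rw [Complex.sub_re, abs_le]
        constructor
        · nlinarith
        · nlinarith
      have h11 : |(p - q).im| ≤ ρ + 8 * h := by
        rw [Complex.sub_im, abs_le]
        constructor
        · nlinarith
        · nlinarith
      have h12 := COV_sq h10 h11
      have h13 : (2 * ρ) ^ 2 ≤ ‖p - q‖ ^ 2 := pow_le_pow_left₀ (by positivity) h3 2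
      have h14 : (ρ + 8 * h) ^ 2 ≤ (ρ + ρ / 25) ^ 2 :=
        pow_le_pow_left₀ (by positivity) (by linarith) 2
      nlinarith [mul_pos hρ hρ])
    (by
      intro g hg
      have hcorner : ∀ v : ℤ × ℤ, |g.1 - v.1| ≤ 1 → |g.2 - v.2| ≤ 1 → G v := by
        intro v hv1 hv2 p hp
        by_contra hlt
        obtain ⟨h1, h2⟩ := hnear v p hp (not_le.1 hlt)
        refine hg p hp ⟨?_, ?_⟩
        · have h3 := abs_sub_le g.1 v.1 (cell h p).1
          omega
        · have h3 := abs_sub_le g.2 v.2 (cell h p).2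
          omega
      exact hflat0 g.1 g.2 (hcorner _ (by simp) (by simp)) (hcorner _ (by simp) (by simp))
        (hcorner _ (by simp) (by simp)) (hcorner _ (by simp) (by simp)))
  refine ⟨e, fun N a harc hfar hcl => ?_⟩
  -- the nodes of the chain are far from the branch points
  have hzr : ∀ i ≤ N, ∀ p ∈ P, ρ - 8 * h ≤ ‖zr h (a i).1 - p‖ := by
    intro i hi p hp
    have h1 := hfar i hi p hp
    have h2 := harc.1 i hi
    have h3 : ‖Pi (a i).2 - p‖ ≤ ‖Pi (a i).2 - zr h (a i).1‖ + ‖zr h (a i).1 - p‖ := by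
      have := norm_add_le (Pi (a i).2 - zr h (a i).1) (zr h (a i).1 - p)
      rwa [sub_add_sub_cancel] at this
    linarith
  have hG : ∀ i ≤ N, G (a i).1 := by
    intro i hi p hp
    have := hzr i hi p hp
    show ρ / 2 ≤ _
    linarith
  have h1 := he N (fun i => (a i).1) (fun i hi => (harc.2 i hi).1) hcl (by
    rintro i hi p hp ⟨h1, h2⟩
    have h3 := COV_far hh (gp_re h (a i).1) (hc1 p).1 (hc1 p).2 h1
    have h4 := COV_far hh (gp_im h (a i).1) (hc2 p).1 (hc2 p).2 h2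
    push_cast at h3 h4
    have h5 : |(gp h (a i).1 - p).re| ≤ ρ / 2 + 5 * h := by
      rw [Complex.sub_re]
      nlinarith
    have h6 : |(gp h (a i).1 - p).im| ≤ ρ / 2 + 5 * h := by
      rw [Complex.sub_im]
      nlinarith
    have h7 := COV_sq h5 h6
    have h8 : (ρ / 2 + 5 * h) ^ 2 ≤ (ρ / 2 + ρ / 40) ^ 2 :=
      pow_le_pow_left₀ (by positivity) (by linarith) 2
    have h9 : ‖gp h (a i).1 - p‖ < ρ - 8 * h := by
      have h10 : ‖gp h (a i).1 - p‖ ^ 2 < (96 / 100 * ρ) ^ 2 := by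
        nlinarith [mul_pos hρ hρ]
      have h11 := lt_of_pow_lt_pow_left₀ 2 (by positivity) h10
      linarith
    have h10 : ‖gp h (a i).1‖ ≤ 1 := by
      have h11 := norm_sub_norm_le (gp h (a i).1) p
      have h12 := hρ1 p hp
      linarith
    have h11 := hzr i hi p hp
    rw [zr_eq' h10] at h11
    linarith)
  have h2 := htype N a harc hG hcl
  rw [h1] at h2
  exact h2.trans he1ε

end Pool.Agent.TRG
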