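import Mathlib
import Pool.Agent.TRG.Defs
import Pool.Agent.TRG.ACT
import Pool.Agent.TRG.ARC

/-
LGM: odd paths.  (80 lines)
PROOF. odd_far (Lemma G): take t, l with d (phi t) x + d x (act l (phi (t+pi))) <= c. If l = 0: pi <= d (phi t) (phi (t+pi)) <= c and d x (act j x) >= 0.
 If l <> 0: with y = act (-l) x: d (phi t) (phi (t+pi)) <= d (phi t) x + d x y + d y (act (-l) (act l (phi (t+pi)))), the last term is
 d (act (-l) x) (act (-l) (act l (phi(t+pi)))) = d x (act l (phi (t+pi))) (cov_inv, act_add, act_zero), and d x (act (-l) x) = d x (r x) = d x (act j x) (cov_dist twice).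
odd_sub: t, l for x_0. d (phi t) x_k <= d (phi t) x_0 + d x_0 x_k <= ... + cost k a (cost_ge). herr for x_k, x_k' (same vertex, both within 8h of
 zr h v): d x_k (act j x_k') <= err; d x_k' x_N <= cost N a - cost k' a (cost_ge for the shifted chain, sub_cost); herr for x_N, x_0:
 d x_N (act i x_0) <= err. So d x_k (act (j + (i + l)) (phi (t+pi))) <= err + (cost N - cost k') + err + d x_0 (act l (phi (t+pi))) by cov_inv and act_add.
node_far: odd_sub with k' = k = i, odd_far with j = 1 (act_one): pi <= c + cost N a + 2 err + d x_i (r x_i), and c + cost N a < pi - lev.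
sub_short: arc by sub_arc, closed: (a (k + (k' - k))).1 = (a k').1 = (a k).1, odd by odd_sub, total (sub_cost):
 c + cost k + (cost N - cost k') + 2 err + (cost k' - cost k) = c + cost N + 2 err < pi - (lev - 2 err).
-/

open MeasureTheory Set Filter Topology Manifold
open scoped ENNReal NNReal ContDiff
open Pool.Agent.MIR (cis cp hol Jw Pic Tan PL ip gd)
open Pool.Agent.H74.Surf

noncomputable section

namespace Pool.Agent.TRG

variable {X : Type} {d : X → X → ℝ} {r : X → X} {Pi : X → ℂ} {P : Finset ℂ} {φ : ℝ → X}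
  {h η err lev : ℝ}

theorem odd_far (F : Fill d r Pi P φ) {x : X} {c : ℝ} (ho : Odd3 d r φ x c) {j : ZMod 3}
    (hj : j ≠ 0) : Real.pi ≤ c + d x (act r j x) := by
  obtain ⟨t, l, hl⟩ := ho
  have hanti := F.antip t
  have hnn := cov_nonneg F.toCov3 x (act r j x)
  by_cases h0 : l = 0
  · subst h0
    rw [act_zero] at hl
    have h1 := F.tri (φ t) x (φ (t + Real.pi))
    linarith
  · have h1 := F.tri (φ t) x (φ (t + Real.pi))
    have h2 := F.tri x (act r (-l) x) (φ (t + Real.pi))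
    have h3 := cov_inv F.toCov3 l (act r (-l) x) (φ (t + Real.pi))
    rw [← act_add F.cube, add_neg_cancel, act_zero] at h3
    have h4 := cov_dist F.toCov3 (neg_ne_zero.mpr h0) x
    have h5 := cov_dist F.toCov3 hj x
    linarith

/-- Two nodes over the same grid point differ nearly by the action. -/
private theorem err_node (herr : ∀ x y, ‖Pi x - Pi y‖ ≤ 16 * h → ∃ j, d x (act r j y) ≤ err)
    {u v : (ℤ × ℤ) × X} (hu : ‖Pi u.2 - zr h u.1‖ ≤ 8 * h) (hv : ‖Pi v.2 - zr h v.1‖ ≤ 8 * h)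
    (e : u.1 = v.1) : ∃ j, d u.2 (act r j v.2) ≤ err := by
  refine herr _ _ ?_
  rw [e] at hu
  have h1 : Pi u.2 - Pi v.2 = (Pi u.2 - zr h v.1) - (Pi v.2 - zr h v.1) := by ring
  rw [h1]
  have h2 := norm_sub_le (Pi u.2 - zr h v.1) (Pi v.2 - zr h v.1)
  linarith

theorem odd_sub (F : Fill d r Pi P φ)
    (herr : ∀ x y, ‖Pi x - Pi y‖ ≤ 16 * h → ∃ j, d x (act r j y) ≤ err)
    {N : ℕ} {a : ℕ → (ℤ × ℤ) × X} {c : ℝ} (s : Short d r φ Pi h η lev N a c) {k k' : ℕ}
    (hk : k ≤ N) (hk' : k' ≤ N) (e : (a k).1 = (a k').1) :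
    Odd3 d r φ (a k).2 (c + cost d k a + (cost d N a - cost d k' a) + 2 * err) := by
  obtain ⟨t, l, hc⟩ := s.odd
  obtain ⟨j, hj⟩ := err_node herr (s.arc.1 k hk) (s.arc.1 k' hk') e
  obtain ⟨i, hi⟩ := err_node herr (s.arc.1 N le_rfl) (s.arc.1 0 (Nat.zero_le N)) s.closed
  refine ⟨t, j + (i + l), ?_⟩
  have h1 := F.tri (φ t) (a 0).2 (a k).2
  have h2 := cost_ge F.toCov3 k a
  have h3 := F.tri (a k).2 (act r j (a k').2) (act r (j + (i + l)) (φ (t + Real.pi)))
  rw [act_add F.cube j (i + l), cov_inv F.toCov3] at h3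
  have h4 := F.tri (a k').2 (a N).2 (act r (i + l) (φ (t + Real.pi)))
  have h5 := cost_ge F.toCov3 (N - k') (fun n => a (k' + n))
  rw [sub_cost d a hk'] at h5
  simp only [add_zero, Nat.add_sub_cancel' hk'] at h5
  have h6 := F.tri (a N).2 (act r i (a 0).2) (act r (i + l) (φ (t + Real.pi)))
  rw [act_add F.cube i l, cov_inv F.toCov3] at h6
  rw [act_add F.cube i l] at h4
  rw [act_add F.cube j (i + l), act_add F.cube i l]
  rw [act_add F.cube i l] at h3
  linarith

theorem node_far (F : Fill d r Pi P φ)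
    (herr : ∀ x y, ‖Pi x - Pi y‖ ≤ 16 * h → ∃ j, d x (act r j y) ≤ err)
    {N : ℕ} {a : ℕ → (ℤ × ℤ) × X} {c : ℝ} (s : Short d r φ Pi h η lev N a c) {i : ℕ}
    (hi : i ≤ N) : lev - 2 * err ≤ d (a i).2 (r (a i).2) := by
  have h1 := odd_sub F herr s hi hi rfl
  have h2 := odd_far F h1 (j := 1) (by decide)
  rw [act_one] at h2
  have h3 := s.short
  linarith

theorem sub_short (F : Fill d r Pi P φ)
    (herr : ∀ x y, ‖Pi x - Pi y‖ ≤ 16 * h → ∃ j, d x (act r j y) ≤ err)
    {N : ℕ} {a : ℕ → (ℤ × ℤ) × X} {c : ℝ} (s : Short d r φ Pi h η lev N a c) {k k' : ℕ}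
    (hk : k ≤ k') (hk' : k' ≤ N) (e : (a k).1 = (a k').1) :
    Short d r φ Pi h η (lev - 2 * err) (k' - k) (fun i => a (k + i))
      (c + cost d k a + (cost d N a - cost d k' a) + 2 * err) := by
  refine ⟨sub_arc s.arc hk hk', ?_, ?_, ?_⟩
  · simp only [Nat.add_sub_cancel' hk, add_zero]
    exact e.symm
  · simp only [add_zero]
    exact odd_sub F herr s (hk.trans hk') hk' e
  · rw [sub_cost d a hk]
    have h3 := s.short
    linarith

end Pool.Agent.TRG
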