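import Mathlib
import Pool.Agent.TRG.Defs
import Pool.Agent.TRG.ACT
import Pool.Agent.TRG.ARC

/-
SPL: replacing a part of a chain by another chain with the same end vertices in the grid.  (70 lines)
PROOF. Nodes over the same grid vertex have projections at distance <= 16 h; so herr gives j' with d (b n).2 (act r j' (a k2).2) <= err and
j with d (a k1).2 (act r j (b 0).2) <= err. Let s i = a (k2 + i) (N - k2 steps), t = cat n b (tr r j' s) (n + 1 + (N - k2) steps),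
a' = cat k1 a (tr r j t), N' = k1 + 1 + (n + 1 + (N - k2)). cat_arc twice, sub_arc, tr_arc (Step u u holds by Or.inl rfl; err <= eta).
Costs: cat_sum, tr_cost, sub_cost; the two joints cost d (b n).2 (act r j' (a k2).2) <= err and
d (a k1).2 (act r j (b 0).2) <= err. lsum: cat_sum with F x y = L x.1 y.1; the joints give L u u = 0 (same vertex), (tr r j a i).1 = (a i).1.
a' 0 = a 0 (cat at 0 <= k1), (a' N').1 = (a N).1 (k2 + (N - k2) = N).
-/

open MeasureTheory Set Filter Topology Manifold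
open scoped ENNReal NNReal ContDiff
open Pool.Agent.MIR (cis cp hol Jw Pic Tan PL ip gd)
open Pool.Agent.H74.Surf

noncomputable section

namespace Pool.Agent.TRG

variable {X : Type} {d : X → X → ℝ} {r : X → X} {Pi : X → ℂ} {P : Finset ℂ} {h η err : ℝ}

theorem splice (C : Cov3 d r Pi P)
    (herr : ∀ x y, ‖Pi x - Pi y‖ ≤ 16 * h → ∃ j, d x (act r j y) ≤ err) (hη : err ≤ η)
    {N : ℕ} {a : ℕ → (ℤ × ℤ) × X} (ha : Arc d Pi h η N a) {k1 k2 : ℕ} (hk1 : k1 ≤ N)
    (hk2 : k2 ≤ N) {n : ℕ} {b : ℕ → (ℤ × ℤ) × X} (hb : Arc d Pi h η n b)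
    (e0 : (b 0).1 = (a k1).1) (e1 : (b n).1 = (a k2).1) :
    ∃ (N' : ℕ) (a' : ℕ → (ℤ × ℤ) × X), Arc d Pi h η N' a' ∧ a' 0 = a 0 ∧
      (a' N').1 = (a N).1 ∧
      cost d N' a' ≤ cost d k1 a + cost d n b + (cost d N a - cost d k2 a) + 2 * err ∧
      ∀ L : ℤ × ℤ → ℤ × ℤ → ZMod 3, (∀ u, L u u = 0) →
        lsum L N' a' = lsum L k1 a + lsum L n b + (lsum L N a - lsum L k2 a) := by
  have hclose : ∀ u v : (ℤ × ℤ) × X, ‖Pi u.2 - zr h u.1‖ ≤ 8 * h → ‖Pi v.2 - zr h v.1‖ ≤ 8 * h →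
      u.1 = v.1 → ‖Pi u.2 - Pi v.2‖ ≤ 16 * h := by
    intro u v h1 h2 h3
    rw [← h3] at h2
    have h4 : Pi u.2 - Pi v.2 = (Pi u.2 - zr h u.1) - (Pi v.2 - zr h u.1) := by ring
    rw [h4]
    exact le_trans (norm_sub_le _ _) (by linarith)
  obtain ⟨j', hj'⟩ := herr (b n).2 (a k2).2
    (hclose _ _ (hb.1 n le_rfl) (ha.1 k2 hk2) e1)
  obtain ⟨j, hj⟩ := herr (a k1).2 (b 0).2
    (hclose _ _ (ha.1 k1 hk1) (hb.1 0 (Nat.zero_le n)) e0.symm)
  obtain ⟨M, hM⟩ : ∃ M, M = N - k2 := ⟨_, rfl⟩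
  obtain ⟨s, hs⟩ : ∃ s : ℕ → (ℤ × ℤ) × X, s = fun i => a (k2 + i) := ⟨_, rfl⟩
  obtain ⟨t, ht⟩ : ∃ t : ℕ → (ℤ × ℤ) × X, t = cat n b (tr r j' s) := ⟨_, rfl⟩
  have hs0 : s 0 = a k2 := by rw [hs]; rfl
  have hsM : s M = a N := by
    rw [hs, hM]
    show a (k2 + (N - k2)) = a N
    congr 1
    omega
  have ht0 : t 0 = b 0 := by
    rw [ht]
    unfold cat
    rw [if_pos (Nat.zero_le n)]
  have htM : t (n + 1 + M) = tr r j' s M := by
    rw [ht]
    unfold cat
    rw [if_neg (by omega)]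
    congr 1
    omega
  have hsarc : Arc d Pi h η M s := by
    rw [hM, hs]
    exact sub_arc ha hk2 le_rfl
  have htarc : Arc d Pi h η (n + 1 + M) t := by
    rw [ht]
    refine cat_arc hb (tr_arc C j' hsarc) ?_ ?_
    · show Step (b n).1 (s 0).1
      rw [hs0, e1]
      exact Or.inl rfl
    · show d (b n).2 (act r j' (s 0).2) ≤ η
      rw [hs0]
      exact le_trans hj' hη
  have ha1 : Arc d Pi h η k1 a :=
    ⟨fun i hi => ha.1 i (le_trans hi hk1), fun i hi => ha.2 i (lt_of_lt_of_le hi hk1)⟩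
  refine ⟨k1 + 1 + (n + 1 + M), cat k1 a (tr r j t), ?_, ?_, ?_, ?_, ?_⟩
  · refine cat_arc ha1 (tr_arc C j htarc) ?_ ?_
    · show Step (a k1).1 (t 0).1
      rw [ht0, e0]
      exact Or.inl rfl
    · show d (a k1).2 (act r j (t 0).2) ≤ η
      rw [ht0]
      exact le_trans hj hη
  · unfold cat
    rw [if_pos (Nat.zero_le k1)]
  · have h1 : cat k1 a (tr r j t) (k1 + 1 + (n + 1 + M)) = tr r j t (n + 1 + M) := by
      unfold cat
      rw [if_neg (by omega)]
      congr 1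
      omega
    rw [h1]
    show (t (n + 1 + M)).1 = (a N).1
    rw [htM]
    show (s M).1 = (a N).1
    rw [hsM]
  · have c1 : cost d (k1 + 1 + (n + 1 + M)) (cat k1 a (tr r j t)) =
        cost d k1 a + d (a k1).2 (tr r j t 0).2 + cost d (n + 1 + M) (tr r j t) :=
      cat_sum (fun x y : (ℤ × ℤ) × X => d x.2 y.2) k1 (n + 1 + M) a (tr r j t)
    have c2 : cost d (n + 1 + M) t =
        cost d n b + d (b n).2 (tr r j' s 0).2 + cost d M (tr r j' s) := by
      rw [ht]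
      exact cat_sum (fun x y : (ℤ × ℤ) × X => d x.2 y.2) n M b (tr r j' s)
    have c3 : cost d M s = cost d N a - cost d k2 a := by
      rw [hM, hs]
      exact sub_cost d a hk2
    have c4 : d (a k1).2 (tr r j t 0).2 ≤ err := by
      show d (a k1).2 (act r j (t 0).2) ≤ err
      rw [ht0]
      exact hj
    have c5 : d (b n).2 (tr r j' s 0).2 ≤ err := by
      show d (b n).2 (act r j' (s 0).2) ≤ err
      rw [hs0]
      exact hj'
    rw [c1, tr_cost C, c2, tr_cost C, c3]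
    linarith
  · intro L hL
    have c1 : lsum L (k1 + 1 + (n + 1 + M)) (cat k1 a (tr r j t)) =
        lsum L k1 a + L (a k1).1 (tr r j t 0).1 + lsum L (n + 1 + M) (tr r j t) :=
      cat_sum (fun x y : (ℤ × ℤ) × X => L x.1 y.1) k1 (n + 1 + M) a (tr r j t)
    have c2 : lsum L (n + 1 + M) t =
        lsum L n b + L (b n).1 (tr r j' s 0).1 + lsum L M (tr r j' s) := by
      rw [ht]
      exact cat_sum (fun x y : (ℤ × ℤ) × X => L x.1 y.1) n M b (tr r j' s)
    have c3 : lsum L M s = lsum L N a - lsum L k2 a := by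
      rw [hM, hs]
      exact sub_lsum L a hk2
    have c4 : L (a k1).1 (tr r j t 0).1 = 0 := by
      show L (a k1).1 (t 0).1 = 0
      rw [ht0, e0]
      exact hL _
    have c5 : L (b n).1 (tr r j' s 0).1 = 0 := by
      show L (b n).1 (s 0).1 = 0
      rw [hs0, e1]
      exact hL _
    have c6 : lsum L (n + 1 + M) (tr r j t) = lsum L (n + 1 + M) t := rfl
    have c7 : lsum L M (tr r j' s) = lsum L M s := rfl
    rw [c1, c4, c6, c2, c5, c7, c3]
    ring

end Pool.Agent.TRG
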