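import Mathlib
import Pool.Agent.TRG.Defs
import Pool.Agent.TRG.ACT
import Pool.Agent.TRG.ARC
import Pool.Agent.TRG.SPL
import Pool.Agent.TRG.LGM

/-
EXC: the exchange lemma.  (130 lines)
PROOF. First assume k1 <= k2 (the general case follows by exchanging (k1,m1) with (k2,m2), which changes the sign of both sides).
L u u = 0 by hL u u (x = -x implies x = 0 in ZMod 3, decide). Short (lev) implies Short (lev - 2 err) since 0 <= err, so lsum L N a = 0 = lsum L N' b.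
(0 <= err follows from herr for x = y... herr x x gives d x (act j x) <= err, and d >= 0; take x = (a 0).2.)
Arc A from the vertex v1 = (a k1).1 to v2 = (a k2).1 along a: i |-> a (k1 + i), k2 - k1 steps, cost al = cost k2 a - cost k1 a,
 lsum = lsum L k2 a - lsum L k1 a.
Case m1 <= m2. Arc B: i |-> b (m1 + i), m2 - m1 steps, cost be = cost m2 b - cost m1 b, lsum = lsum L m2 b - lsum L m1 b.
 (i) if c + cost N a - al + be + 2 err < pi - (lev - 2 err): splice B into a between k1 and k2: the new chain a' is Short (lev - 2 err) with the same c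
   (a' 0 = a 0, so Odd3 is unchanged; closed: (a' N').1 = (a N).1 = (a 0).1 = (a' 0).1), so 0 = lsum L N'' a' = lsum L k1 a + lsum B + 0 - lsum L k2 a. Done.
 (ii) if c' + cost N' b - be + al + 2 err < pi - (lev - 2 err): splice A into b between m1 and m2: 0 = lsum L m1 b + lsum A + 0 - lsum L m2 b. Done.
 One of (i), (ii) holds since c + cost N a + c' + cost N' b < 2 (pi - lev) (otherwise the sum of the left sides, which is c + cost a + c' + cost b + 4 err, is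
 >= 2 pi - 2 lev + 4 err).
Case m2 <= m1. B = reversed arc of b from m2 to m1: first i |-> b (m2 + i), m1 - m2 steps, then rev_arc, rev_cost, rev_lsum: it goes from
 v1 = (b m1).1 to v2 = (b m2).1, cost be = cost m1 b - cost m2 b, lsum = -(lsum L m1 b - lsum L m2 b) = lsum L m2 b - lsum L m1 b.
 (i) as before. (ii) splice the reversed arc of A (from v2 = (b m2).1 to v1 = (b m1).1, cost al, lsum -(lsum L k2 a - lsum L k1 a)) into b between m2 and m1:
   0 = lsum L m2 b - (lsum L k2 a - lsum L k1 a) + 0 - lsum L m1 b. Done.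
-/

open MeasureTheory Set Filter Topology Manifold
open scoped ENNReal NNReal ContDiff
open Pool.Agent.MIR (cis cp hol Jw Pic Tan PL ip gd)
open Pool.Agent.H74.Surf

noncomputable section

namespace Pool.Agent.TRG

variable {X : Type} {d : X → X → ℝ} {r : X → X} {Pi : X → ℂ} {P : Finset ℂ} {φ : ℝ → X}
  {h η err lev : ℝ}

private theorem exc_arc (C : Cov3 d r Pi P) {L : ℤ × ℤ → ℤ × ℤ → ZMod 3} (hL : ∀ u w, L w u = -L u w)
    {N : ℕ} {a : ℕ → (ℤ × ℤ) × X} (ha : Arc d Pi h η N a) {k1 k2 : ℕ} (hk1 : k1 ≤ N) (hk2 : k2 ≤ N) :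
    ∃ (n : ℕ) (b : ℕ → (ℤ × ℤ) × X), Arc d Pi h η n b ∧ (b 0).1 = (a k1).1 ∧ (b n).1 = (a k2).1 ∧
      cost d n b = |cost d k2 a - cost d k1 a| ∧ lsum L n b = lsum L k2 a - lsum L k1 a := by
  rcases le_total k1 k2 with hk | hk
  · refine ⟨k2 - k1, fun i => a (k1 + i), sub_arc ha hk hk2, rfl, ?_, ?_, sub_lsum L a hk⟩
    · show (a (k1 + (k2 - k1))).1 = (a k2).1
      rw [Nat.add_sub_cancel' hk]
    · rw [sub_cost d a hk, abs_of_nonneg (sub_nonneg.mpr (cost_mono C a hk))]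
  · refine ⟨k1 - k2, fun i => (fun i => a (k2 + i)) (k1 - k2 - i), rev_arc C (sub_arc ha hk hk1), ?_, ?_, ?_, ?_⟩
    · show (a (k2 + (k1 - k2 - 0))).1 = (a k1).1
      rw [Nat.sub_zero, Nat.add_sub_cancel' hk]
    · show (a (k2 + (k1 - k2 - (k1 - k2)))).1 = (a k2).1
      rw [Nat.sub_self, Nat.add_zero]
    · rw [rev_cost C (k1 - k2) (fun i => a (k2 + i)), sub_cost d a hk, abs_sub_comm,
        abs_of_nonneg (sub_nonneg.mpr (cost_mono C a hk))]
    · rw [rev_lsum hL (k1 - k2) (fun i => a (k2 + i)), sub_lsum L a hk]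
      ring

private theorem exc_core (F : Fill d r Pi P φ)
    (herr : ∀ x y, ‖Pi x - Pi y‖ ≤ 16 * h → ∃ j, d x (act r j y) ≤ err) (hη : err ≤ η) (he : 0 ≤ err)
    {L : ℤ × ℤ → ℤ × ℤ → ZMod 3} (hL0 : ∀ u, L u u = 0)
    (hz : ∀ N a c, Short d r φ Pi h η (lev - 2 * err) N a c → lsum L N a = 0)
    {N : ℕ} {a : ℕ → (ℤ × ℤ) × X} {c : ℝ} (sa : Short d r φ Pi h η lev N a c) {k1 k2 : ℕ} (hk1 : k1 ≤ N)
    (hk2 : k2 ≤ N) {n : ℕ} {b : ℕ → (ℤ × ℤ) × X} (hb : Arc d Pi h η n b) (e0 : (b 0).1 = (a k1).1)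
    (e1 : (b n).1 = (a k2).1)
    (hs : c + cost d N a - (cost d k2 a - cost d k1 a) + cost d n b + 2 * err < Real.pi - (lev - 2 * err)) :
    lsum L n b = lsum L k2 a - lsum L k1 a := by
  obtain ⟨N', a', h1, h2, h3, h4, h5⟩ := splice F.toCov3 herr hη sa.arc hk1 hk2 hb e0 e1
  have s' : Short d r φ Pi h η (lev - 2 * err) N' a' c := by
    refine ⟨h1, ?_, ?_, ?_⟩
    · rw [h3, h2, sa.closed]
    · rw [h2]
      exact sa.odd
    · linarith
  have s0 : Short d r φ Pi h η (lev - 2 * err) N a c := ⟨sa.arc, sa.closed, sa.odd, by linarith [sa.short]⟩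
  have h6 := hz _ _ _ s'
  have h7 := hz _ _ _ s0
  rw [h5 L hL0, h7] at h6
  linear_combination h6

private theorem exc_le (F : Fill d r Pi P φ)
    (herr : ∀ x y, ‖Pi x - Pi y‖ ≤ 16 * h → ∃ j, d x (act r j y) ≤ err) (hη : err ≤ η) (he : 0 ≤ err)
    {L : ℤ × ℤ → ℤ × ℤ → ZMod 3} (hL : ∀ u w, L w u = -L u w)
    (hz : ∀ N a c, Short d r φ Pi h η (lev - 2 * err) N a c → lsum L N a = 0)
    {N N' : ℕ} {a b : ℕ → (ℤ × ℤ) × X} {c c' : ℝ} (sa : Short d r φ Pi h η lev N a c)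
    (sb : Short d r φ Pi h η lev N' b c') {k1 k2 m1 m2 : ℕ} (hk1 : k1 ≤ N) (hk2 : k2 ≤ N)
    (hm1 : m1 ≤ N') (hm2 : m2 ≤ N') (e1 : (a k1).1 = (b m1).1) (e2 : (a k2).1 = (b m2).1) (hk : k1 ≤ k2) :
    lsum L k2 a - lsum L k1 a = lsum L m2 b - lsum L m1 b := by
  have hL0 : ∀ u, L u u = 0 := by
    intro u
    have h1 := hL u u
    revert h1
    generalize L u u = x
    revert x
    decide
  obtain ⟨nB, B, hB, hB0, hB1, hBc, hBl⟩ := exc_arc F.toCov3 hL sb.arc hm1 hm2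
  have hal : 0 ≤ cost d k2 a - cost d k1 a := sub_nonneg.mpr (cost_mono F.toCov3 a hk)
  have hsa := sa.short
  have hsb := sb.short
  by_cases hi : c + cost d N a - (cost d k2 a - cost d k1 a) + cost d nB B + 2 * err <
      Real.pi - (lev - 2 * err)
  · have h1 := exc_core F herr hη he hL0 hz sa hk1 hk2 hB (hB0.trans e1.symm) (hB1.trans e2.symm) hi
    rw [← h1, hBl]
  · push Not at hi
    rcases le_total m1 m2 with hm | hm
    · obtain ⟨nA, A, hA, hA0, hA1, hAc, hAl⟩ := exc_arc F.toCov3 hL sa.arc hk1 hk2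
      rw [abs_of_nonneg (sub_nonneg.mpr (cost_mono F.toCov3 b hm))] at hBc
      rw [abs_of_nonneg hal] at hAc
      have h1 := exc_core F herr hη he hL0 hz sb hm1 hm2 hA (hA0.trans e1) (hA1.trans e2) (by linarith)
      rw [← h1, hAl]
    · obtain ⟨nA, A, hA, hA0, hA1, hAc, hAl⟩ := exc_arc F.toCov3 hL sa.arc hk2 hk1
      rw [abs_sub_comm, abs_of_nonneg (sub_nonneg.mpr (cost_mono F.toCov3 b hm))] at hBc
      rw [abs_sub_comm, abs_of_nonneg hal] at hAc
      have h1 := exc_core F herr hη he hL0 hz sb hm2 hm1 hA (hA0.trans e2) (hA1.trans e1) (by linarith)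
      linear_combination hAl - h1

theorem exchange (F : Fill d r Pi P φ)
    (herr : ∀ x y, ‖Pi x - Pi y‖ ≤ 16 * h → ∃ j, d x (act r j y) ≤ err) (hη : err ≤ η)
    (hh : 0 < h) {L : ℤ × ℤ → ℤ × ℤ → ZMod 3} (hL : ∀ u w, L w u = -L u w)
    (hz : ∀ N a c, Short d r φ Pi h η (lev - 2 * err) N a c → lsum L N a = 0)
    {N N' : ℕ} {a b : ℕ → (ℤ × ℤ) × X} {c c' : ℝ} (sa : Short d r φ Pi h η lev N a c)
    (sb : Short d r φ Pi h η lev N' b c') {k1 k2 m1 m2 : ℕ} (hk1 : k1 ≤ N) (hk2 : k2 ≤ N)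
    (hm1 : m1 ≤ N') (hm2 : m2 ≤ N') (e1 : (a k1).1 = (b m1).1) (e2 : (a k2).1 = (b m2).1) :
    lsum L k2 a - lsum L k1 a = lsum L m2 b - lsum L m1 b := by
  have he : 0 ≤ err := by
    obtain ⟨j, hj⟩ := herr (a 0).2 (a 0).2 (by rw [sub_self, norm_zero]; positivity)
    exact (cov_nonneg F.toCov3 _ _).trans hj
  rcases le_total k1 k2 with hk | hk
  · exact exc_le F herr hη he hL hz sa sb hk1 hk2 hm1 hm2 e1 e2 hk
  · have h1 := exc_le F herr hη he hL hz sa sb hk2 hk1 hm2 hm1 e2 e1 hk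
    linear_combination -h1

end Pool.Agent.TRG
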