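import Mathlib
import Pool.Agent.TRG.Defs

/-
POT: a common potential on the union of two walks.  (60 lines)
PROOF. Case 1: there are k0 <= N, m0 <= N' with v k0 = w m0; put c = th1 k0 - th2 m0. Case 2: otherwise, c = 0.
Define th u = th1 k for some k <= N with v k = u if there is one (Classical.choose); else th2 m + c for some m <= N' with w m = u if there is one; else 0.
Claim A: th (v k) = th1 k for all k <= N (by e1). Claim B: th (w m) = th2 m + c for all m <= N': if w m is not visited by v this is e2.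
If w m = v k with k <= N, then we are in case 1 and e gives th1 k - th1 k0 = th2 m - th2 m0, so th (w m) = th1 k = th2 m + c.
Then th (v (i+1)) - th (v i) = th1 (i+1) - th1 i = L (v i) (v (i+1)), and the same for w.
-/

open MeasureTheory Set Filter Topology Manifold
open scoped ENNReal NNReal ContDiff
open Pool.Agent.MIR (cis cp hol Jw Pic Tan PL ip gd)
open Pool.Agent.H74.Surf

noncomputable section

namespace Pool.Agent.TRG

theorem potential (L : ℤ × ℤ → ℤ × ℤ → ZMod 3) {N N' : ℕ} {v w : ℕ → ℤ × ℤ}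
    {θ1 θ2 : ℕ → ZMod 3} (h1 : ∀ i < N, θ1 (i + 1) - θ1 i = L (v i) (v (i + 1)))
    (h2 : ∀ i < N', θ2 (i + 1) - θ2 i = L (w i) (w (i + 1)))
    (e1 : ∀ k ≤ N, ∀ k' ≤ N, v k = v k' → θ1 k = θ1 k')
    (e2 : ∀ m ≤ N', ∀ m' ≤ N', w m = w m' → θ2 m = θ2 m')
    (e : ∀ k ≤ N, ∀ k' ≤ N, ∀ m ≤ N', ∀ m' ≤ N', v k = w m → v k' = w m' →
      θ1 k' - θ1 k = θ2 m' - θ2 m) :
    ∃ θ : ℤ × ℤ → ZMod 3, (∀ i < N, L (v i) (v (i + 1)) = θ (v (i + 1)) - θ (v i)) ∧
      ∀ i < N', L (w i) (w (i + 1)) = θ (w (i + 1)) - θ (w i) := by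
  classical
  obtain ⟨c, hc⟩ : ∃ c : ZMod 3, ∀ k ≤ N, ∀ m ≤ N', v k = w m → θ1 k = θ2 m + c := by
    by_cases h : ∃ k0 ≤ N, ∃ m0 ≤ N', v k0 = w m0
    · obtain ⟨k0, hk0, m0, hm0, h0⟩ := h
      refine ⟨θ1 k0 - θ2 m0, fun k hk m hm hkm => ?_⟩
      have h3 := e k0 hk0 k hk m0 hm0 m hm h0 hkm
      linear_combination h3
    · exact ⟨0, fun k hk m hm hkm => absurd ⟨k, hk, m, hm, hkm⟩ h⟩
  let θ : ℤ × ℤ → ZMod 3 := fun u =>
    if h : ∃ k ≤ N, v k = u then θ1 (Classical.choose h)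
    else if h : ∃ m ≤ N', w m = u then θ2 (Classical.choose h) + c else 0
  have hA : ∀ k ≤ N, θ (v k) = θ1 k := by
    intro k hk
    have h : ∃ k' ≤ N, v k' = v k := ⟨k, hk, rfl⟩
    have hθ : θ (v k) = θ1 (Classical.choose h) := dif_pos h
    rw [hθ]
    exact e1 _ (Classical.choose_spec h).1 _ hk (Classical.choose_spec h).2
  have hB : ∀ m ≤ N', θ (w m) = θ2 m + c := by
    intro m hm
    by_cases h : ∃ k ≤ N, v k = w m
    · obtain ⟨k, hk, hkm⟩ := h
      rw [← hkm, hA k hk]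
      exact hc k hk m hm hkm
    · have h' : ∃ m' ≤ N', w m' = w m := ⟨m, hm, rfl⟩
      have hθ : θ (w m) = θ2 (Classical.choose h') + c := by
        show (if h : ∃ k ≤ N, v k = w m then θ1 (Classical.choose h)
          else if h : ∃ m' ≤ N', w m' = w m then θ2 (Classical.choose h) + c else 0) = _
        rw [dif_neg h, dif_pos h']
      rw [hθ, e2 _ (Classical.choose_spec h').1 _ hm (Classical.choose_spec h').2]
  refine ⟨θ, fun i hi => ?_, fun i hi => ?_⟩
  · rw [hA _ hi, hA _ hi.le, h1 i hi]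
  · rw [hB _ hi, hB _ hi.le, ← h2 i hi]
    ring

end Pool.Agent.TRG
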