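import Mathlib
import Pool.Agent.TRG.Defs
import Pool.Agent.TRG.WND

/-
WFS: the winding number vanishes outside a finite set of squares.  (60 lines)
PROOF. Choose B with |(v i).1| <= B and |(v i).2| <= B for all i <= N (finite maximum). Claim: wind f = 0 unless
-B <= f.1 <= B and -B <= f.2 <= B (then the support is contained in Icc (-B) B x Icc (-B) B, a finite set).
 f.1 > B: the condition f.1 < u.1 never holds. f.2 > B: u.2 = f.2 and w.2 = f.2 never hold. f.2 < -B: same.
 f.1 < -B: now f.1 < u.1 always holds, and for every Step u w between points of the walk ray f u w = g w - g u with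
 g u = (if f.2 + 1 <= u.2 then 1 else 0): the up-step from f.2 to f.2+1 gives 1, the down-step gives -1, all other steps 0
 (horizontal steps do not change u.2; vertical steps change it by 1). The sum telescopes to g (v N) - g (v 0) = 0.
-/

open MeasureTheory Set Filter Topology Manifold
open scoped ENNReal NNReal ContDiff
open Pool.Agent.MIR (cis cp hol Jw Pic Tan PL ip gd)
open Pool.Agent.H74.Surf

noncomputable section

namespace Pool.Agent.TRG

private theorem ray_eq_sub {f u w : ℤ × ℤ} (hs : Step u w) (hf : f.1 < u.1) :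
    ray f u w = (if f.2 + 1 ≤ w.2 then 1 else 0) - (if f.2 + 1 ≤ u.2 then 1 else 0) := by
  obtain ⟨f1, f2⟩ := f
  obtain ⟨u1, u2⟩ := u
  obtain ⟨w1, w2⟩ := w
  simp only [Step, Prod.mk.injEq] at hs
  simp only [ray] at *
  split_ifs <;> first | (exfalso; omega) | simp

private theorem ray_zero_of {f u w : ℤ × ℤ} (h : u.1 ≤ f.1 ∨ (u.2 ≠ f.2 ∧ w.2 ≠ f.2)) :
    ray f u w = 0 := by
  simp only [ray]
  split_ifs <;> first | (exfalso; omega) | rfl

theorem wind_finite {N : ℕ} {v : ℕ → ℤ × ℤ} (hs : ∀ i < N, Step (v i) (v (i + 1)))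
    (hc : v N = v 0) : (Function.support (wind N v)).Finite := by
  obtain ⟨B, hB⟩ : ∃ B : ℤ, ∀ i ≤ N, |(v i).1| ≤ B ∧ |(v i).2| ≤ B := by
    refine ⟨∑ i ∈ Finset.range (N + 1), (|(v i).1| + |(v i).2|), fun i hi => ?_⟩
    have h1 : |(v i).1| + |(v i).2| ≤ ∑ i ∈ Finset.range (N + 1), (|(v i).1| + |(v i).2|) :=
      Finset.single_le_sum (f := fun i => |(v i).1| + |(v i).2|) (fun i _ => by positivity)
        (Finset.mem_range.2 (by omega))
    have h2 := abs_nonneg (v i).1
    have h3 := abs_nonneg (v i).2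
    constructor <;> linarith
  refine Set.Finite.subset ((Set.finite_Icc (-B) B).prod (Set.finite_Icc (-B) B)) ?_
  intro f hf
  by_contra hn
  apply hf
  have hn' : ¬ (((-B ≤ f.1 ∧ f.1 ≤ B)) ∧ ((-B ≤ f.2 ∧ f.2 ≤ B))) := by
    intro h
    exact hn ⟨h.1, h.2⟩
  unfold wind
  by_cases h1 : B < f.1 ∨ B < f.2 ∨ f.2 < -B
  · refine Finset.sum_eq_zero fun i hi => ?_
    have hi' := Finset.mem_range.1 hi
    have h2 := hB i (by omega)
    have h3 := hB (i + 1) (by omega)
    rw [abs_le, abs_le] at h2 h3
    refine ray_zero_of ?_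
    omega
  · have h4 : f.1 < -B := by omega
    have h5 : ∀ i ∈ Finset.range N, ray f (v i) (v (i + 1)) =
        (if f.2 + 1 ≤ (v (i + 1)).2 then 1 else 0 : ZMod 3) -
          (if f.2 + 1 ≤ (v i).2 then 1 else 0 : ZMod 3) := by
      intro i hi
      have hi' := Finset.mem_range.1 hi
      have h2 := hB i (by omega)
      rw [abs_le, abs_le] at h2
      exact ray_eq_sub (hs i hi') (by omega)
    refine (Finset.sum_congr rfl h5).trans
      ((Finset.sum_range_sub (fun j => (if f.2 + 1 ≤ (v j).2 then 1 else 0 : ZMod 3)) N).trans ?_)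
    simp only [hc, sub_self]

end Pool.Agent.TRG
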