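import Mathlib
import Pool.Agent.TRG.Defs
import Pool.Agent.TRG.WND
import Pool.Agent.TRG.WFS

/-
PRD: the product lemma.  (150 lines)
PROOF. n1 = wind N v, n2 = wind N' w, n = n1 * n2 : Int x Int -> ZMod 3, finite support (WFS). Put
 Jh (a,b) = n (a,b) - n (a,b-1),  Jv (a,b) = n (a-1,b) - n (a,b)  (finite supports).
(1) If Jv (a,b) <> 0 then cur N v (a,b) (a,b+1) <> 0 or cur N' w (a,b) (a,b+1) <> 0, since by wind_left
   Jv = n1(a-1,b) n2(a-1,b) - n1(a,b) n2(a,b) = cur1 * n2(a-1,b) + n1(a,b) * cur2. If cur N v u u' <> 0 then some step of v goes from u to u' or from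
   u' to u (i < N), and then by h1 and antisymmetry (ray_anti) L(u,u') := sum_p L p * ray (f p) u u' = th u' - th u. So
      Jv (a,b) * L((a,b),(a,b+1)) = Jv (a,b) * (th (a,b+1) - th (a,b)) for all a b.
   In the same way (wind_down) Jh (a,b) * L((a,b),(a+1,b)) = Jh (a,b) * (th (a+1,b) - th (a,b)); here L((a,b),(a+1,b)) = 0 because u.1 <> w.1 (ray = 0).
(2) sum over all (a,b) (finsum over Int x Int, or a finite sum over a big box) of Jv (a,b) * L((a,b),(a,b+1)) = sum_p L p * n (f p):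
   ray f (a,b) (a,b+1) = (if f.1 < a and b = f.2 then 1 else 0), and sum_{a > f.1} (n (a-1,f.2) - n (a,f.2)) = n f (telescoping, finite support).
(3) sum_{(a,b)} [ Jv (a,b) (th (a,b+1) - th (a,b)) + Jh (a,b) (th (a+1,b) - th (a,b)) ] = sum_{(a,b)} th (a,b) [ Jv (a,b-1) - Jv (a,b)
   + Jh (a-1,b) - Jh (a,b) ] (shift the summation index; finsum_comp_equiv or a box outside which everything vanishes), and the bracket is 0:
   Jv (a,b-1) - Jv (a,b) = n(a-1,b-1) - n(a,b-1) - n(a-1,b) + n(a,b), Jh (a-1,b) - Jh (a,b) = n(a-1,b) - n(a-1,b-1) - n(a,b) + n(a,b-1).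
(1)+(2)+(3): sum_p L p * n (f p) = sum Jv * L = sum [Jv (th(a,b+1)-th(a,b)) + Jh (th(a+1,b)-th(a,b))] = 0.
A convenient way: choose B such that n vanishes unless |a| < B, |b| < B and |(f p).1|, |(f p).2| < B for all p in P, and sum over
Finset.Icc (-B) B x Finset.Icc (-B) B; shifting lemma for functions vanishing when |a| >= B or |b| >= B.
-/

open MeasureTheory Set Filter Topology Manifold
open scoped ENNReal NNReal ContDiff
open Pool.Agent.MIR (cis cp hol Jw Pic Tan PL ip gd)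
open Pool.Agent.H74.Surf

noncomputable section

namespace Pool.Agent.TRG

private def prdL (P : Finset ℂ) (f : ℂ → ℤ × ℤ) (L : ℂ → ZMod 3) (u u' : ℤ × ℤ) : ZMod 3 :=
  ∑ p ∈ P, L p * ray (f p) u u'

private theorem prd_cur {N : ℕ} {v : ℕ → ℤ × ℤ} {u u' : ℤ × ℤ} (h : cur N v u u' ≠ 0) :
    ∃ i < N, (v i = u ∧ v (i + 1) = u') ∨ (v i = u' ∧ v (i + 1) = u) := by
  by_contra hc
  push Not at hc
  refine h (Finset.sum_eq_zero fun i hi => ?_)
  have h1 := hc i (Finset.mem_range.1 hi)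
  rw [if_neg (fun h2 => h1.1 h2.1 h2.2), if_neg (fun h2 => h1.2 h2.1 h2.2), sub_zero]

private theorem prd_theta {N : ℕ} {v : ℕ → ℤ × ℤ} {P : Finset ℂ} {f : ℂ → ℤ × ℤ} {L : ℂ → ZMod 3}
    {θ : ℤ × ℤ → ZMod 3}
    (h1 : ∀ i < N, ∑ p ∈ P, L p * ray (f p) (v i) (v (i + 1)) = θ (v (i + 1)) - θ (v i))
    {u u' : ℤ × ℤ} (h : cur N v u u' ≠ 0) : prdL P f L u u' = θ u' - θ u := by
  obtain ⟨i, hi, ⟨h2, h3⟩ | ⟨h2, h3⟩⟩ := prd_cur h
  · have h4 := h1 i hi
    rw [h2, h3] at h4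
    exact h4
  · have h4 := h1 i hi
    rw [h2, h3] at h4
    have h5 : ∑ p ∈ P, L p * ray (f p) u' u = -prdL P f L u u' := by
      unfold prdL
      rw [← Finset.sum_neg_distrib]
      refine Finset.sum_congr rfl fun p _ => ?_
      rw [ray_anti (f p) u u']
      ring
    rw [h5] at h4
    linear_combination -h4

private theorem prd_tele (c : ℤ → ZMod 3) (x y : ℤ) (h : x ≤ y) :
    ∑ a ∈ Finset.Ioc x y, (c (a - 1) - c a) = c x - c y := by
  induction y, h using Int.leInduction with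
  | base => simp
  | succ y hy ih =>
    have h1 : Finset.Ioc x (y + 1) = insert (y + 1) (Finset.Ioc x y) := by
      ext a
      rw [Finset.mem_insert, Finset.mem_Ioc, Finset.mem_Ioc]
      omega
    rw [h1, Finset.sum_insert (by rw [Finset.mem_Ioc]; omega), ih]
    have h2 : y + 1 - 1 = y := by ring
    rw [h2]
    ring

private def prdBox (B : ℤ) : Finset (ℤ × ℤ) := Finset.Icc (-B) B ×ˢ Finset.Icc (-B) B

private theorem prd_mem {B : ℤ} {u : ℤ × ℤ} : u ∈ prdBox B ↔ (-B ≤ u.1 ∧ u.1 ≤ B) ∧ (-B ≤ u.2 ∧ u.2 ≤ B) := by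
  unfold prdBox
  rw [Finset.mem_product, Finset.mem_Icc, Finset.mem_Icc]

private theorem prd_shift {B : ℤ} (g : ℤ × ℤ → ZMod 3) (e : ℤ × ℤ ≃ ℤ × ℤ)
    (h1 : ∀ u, g u ≠ 0 → u ∈ prdBox B) (h2 : ∀ u, g (e u) ≠ 0 → u ∈ prdBox B) :
    ∑ u ∈ prdBox B, g (e u) = ∑ u ∈ prdBox B, g u := by
  rw [← finsum_eq_sum_of_support_subset g (fun u hu => h1 u hu),
    ← finsum_eq_sum_of_support_subset (fun u => g (e u)) (fun u hu => h2 u hu)]
  exact finsum_comp_equiv e

private def prdUp : ℤ × ℤ ≃ ℤ × ℤ where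
  toFun u := (u.1, u.2 + 1)
  invFun u := (u.1, u.2 - 1)
  left_inv u := by ext <;> simp
  right_inv u := by ext <;> simp

private def prdRt : ℤ × ℤ ≃ ℤ × ℤ where
  toFun u := (u.1 + 1, u.2)
  invFun u := (u.1 - 1, u.2)
  left_inv u := by ext <;> simp
  right_inv u := by ext <;> simp

private theorem prd_ray_up (f u : ℤ × ℤ) :
    ray f u (u.1, u.2 + 1) = if f.1 < u.1 ∧ u.2 = f.2 then 1 else 0 := by
  unfold ray
  by_cases h : f.1 < u.1 ∧ u.2 = f.2
  · rw [if_pos h, if_pos ⟨rfl, h.1, h.2, by show u.2 + 1 = f.2 + 1; rw [h.2]⟩]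
  · rw [if_neg h, if_neg (fun h1 => h ⟨h1.2.1, h1.2.2.1⟩), if_neg]
    rintro ⟨-, -, h1, h2⟩
    have h3 : u.2 + 1 = f.2 := h1
    omega

private theorem prd_ray_rt (f u : ℤ × ℤ) : ray f u (u.1 + 1, u.2) = 0 := by
  unfold ray
  rw [if_neg, if_neg]
  · rintro ⟨h1, -⟩
    have h2 : u.1 = u.1 + 1 := h1
    omega
  · rintro ⟨h1, -⟩
    have h2 : u.1 = u.1 + 1 := h1
    omega

/-- a box containing a finite set and finitely many other points -/
private theorem prd_box (s : Set (ℤ × ℤ)) (hs : s.Finite) (P : Finset ℂ) (f : ℂ → ℤ × ℤ) :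
    ∃ B : ℤ, (∀ u ∈ s, (-B ≤ u.1 ∧ u.1 ≤ B) ∧ (-B ≤ u.2 ∧ u.2 ≤ B)) ∧
      ∀ p ∈ P, (-B ≤ (f p).1 ∧ (f p).1 ≤ B) ∧ (-B ≤ (f p).2 ∧ (f p).2 ≤ B) := by
  classical
  let T : Finset (ℤ × ℤ) := hs.toFinset ∪ P.image f
  refine ⟨∑ u ∈ T, (|u.1| + |u.2|), fun u hu => ?_, fun p hp => ?_⟩
  · have h1 : |u.1| + |u.2| ≤ ∑ u ∈ T, (|u.1| + |u.2|) :=
      Finset.single_le_sum (f := fun u : ℤ × ℤ => |u.1| + |u.2|) (fun u _ => by positivity)
        (Finset.mem_union_left _ (hs.mem_toFinset.2 hu))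
    have h2 := abs_nonneg u.1
    have h3 := abs_nonneg u.2
    have h4 := abs_le.1 (show |u.1| ≤ ∑ u ∈ T, (|u.1| + |u.2|) by linarith)
    have h5 := abs_le.1 (show |u.2| ≤ ∑ u ∈ T, (|u.1| + |u.2|) by linarith)
    exact ⟨h4, h5⟩
  · have h1 : |(f p).1| + |(f p).2| ≤ ∑ u ∈ T, (|u.1| + |u.2|) :=
      Finset.single_le_sum (f := fun u : ℤ × ℤ => |u.1| + |u.2|) (fun u _ => by positivity)
        (Finset.mem_union_right _ (Finset.mem_image_of_mem f hp))
    have h2 := abs_nonneg (f p).1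
    have h3 := abs_nonneg (f p).2
    have h4 := abs_le.1 (show |(f p).1| ≤ ∑ u ∈ T, (|u.1| + |u.2|) by linarith)
    have h5 := abs_le.1 (show |(f p).2| ≤ ∑ u ∈ T, (|u.1| + |u.2|) by linarith)
    exact ⟨h4, h5⟩

theorem prod_zero {N N' : ℕ} {v w : ℕ → ℤ × ℤ} (hv : ∀ i < N, Step (v i) (v (i + 1)))
    (hw : ∀ i < N', Step (w i) (w (i + 1))) (cv : v N = v 0) (cw : w N' = w 0)
    (P : Finset ℂ) (f : ℂ → ℤ × ℤ) (L : ℂ → ZMod 3) (θ : ℤ × ℤ → ZMod 3)
    (h1 : ∀ i < N, ∑ p ∈ P, L p * ray (f p) (v i) (v (i + 1)) = θ (v (i + 1)) - θ (v i))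
    (h2 : ∀ i < N', ∑ p ∈ P, L p * ray (f p) (w i) (w (i + 1)) = θ (w (i + 1)) - θ (w i)) :
    ∑ p ∈ P, L p * (wind N v (f p) * wind N' w (f p)) = 0 := by
  classical
  let n : ℤ × ℤ → ZMod 3 := fun u => wind N v u * wind N' w u
  have hfin : (Function.support n).Finite := by
    refine (wind_finite hv cv).subset fun u hu => ?_
    rw [Function.mem_support] at hu ⊢
    exact fun h => hu (by show wind N v u * wind N' w u = 0; rw [h, zero_mul])
  obtain ⟨B0, hB0, hBf⟩ := prd_box _ hfin P f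
  have hn : ∀ u, n u ≠ 0 → (-B0 ≤ u.1 ∧ u.1 ≤ B0) ∧ (-B0 ≤ u.2 ∧ u.2 ≤ B0) := fun u hu => hB0 u hu
  set B := B0 + 2 with hB
  let Jv : ℤ × ℤ → ZMod 3 := fun u => n (u.1 - 1, u.2) - n u
  let Jh : ℤ × ℤ → ZMod 3 := fun u => n u - n (u.1, u.2 - 1)
  have hJv : ∀ u, Jv u ≠ 0 → (-B0 ≤ u.1 ∧ u.1 ≤ B0 + 1) ∧ (-B0 ≤ u.2 ∧ u.2 ≤ B0) := by
    intro u hu
    by_cases h3 : n u = 0
    · have h4 : n (u.1 - 1, u.2) ≠ 0 := fun h4 => hu (by
        show n (u.1 - 1, u.2) - n u = 0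
        rw [h3, h4, sub_zero])
      have h5 := hn _ h4
      simp only at h5
      omega
    · have h5 := hn _ h3
      omega
  have hJh : ∀ u, Jh u ≠ 0 → (-B0 ≤ u.1 ∧ u.1 ≤ B0) ∧ (-B0 ≤ u.2 ∧ u.2 ≤ B0 + 1) := by
    intro u hu
    by_cases h3 : n u = 0
    · have h4 : n (u.1, u.2 - 1) ≠ 0 := fun h4 => hu (by
        show n u - n (u.1, u.2 - 1) = 0
        rw [h3, h4, sub_zero])
      have h5 := hn _ h4
      simp only at h5
      omega
    · have h5 := hn _ h3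
      omega
  -- the currents see only edges where the potential is defined
  have k1 : ∀ u, Jv u * prdL P f L u (u.1, u.2 + 1) = Jv u * (θ (u.1, u.2 + 1) - θ u) := by
    intro u
    have e1 : Jv u = cur N v u (u.1, u.2 + 1) * wind N' w (u.1 - 1, u.2) +
        wind N v u * cur N' w u (u.1, u.2 + 1) := by
      have a1 := wind_left N v u.1 u.2
      have a2 := wind_left N' w u.1 u.2
      show wind N v (u.1 - 1, u.2) * wind N' w (u.1 - 1, u.2) - wind N v u * wind N' w u = _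
      have a3 : (u.1, u.2) = u := rfl
      rw [a3] at a1 a2
      rw [← a1, ← a2]
      ring
    by_cases c1 : cur N v u (u.1, u.2 + 1) = 0
    · by_cases c2 : cur N' w u (u.1, u.2 + 1) = 0
      · rw [e1, c1, c2]
        ring
      · rw [prd_theta h2 c2]
    · rw [prd_theta h1 c1]
  have k2 : ∀ u, Jh u * (θ (u.1 + 1, u.2) - θ u) = 0 := by
    intro u
    have e0 : prdL P f L u (u.1 + 1, u.2) = 0 := by
      unfold prdL
      refine Finset.sum_eq_zero fun p _ => ?_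
      rw [prd_ray_rt, mul_zero]
    have e1 : Jh u = cur N v u (u.1 + 1, u.2) * wind N' w u +
        wind N v (u.1, u.2 - 1) * cur N' w u (u.1 + 1, u.2) := by
      have a1 := wind_down hv cv u.1 u.2
      have a2 := wind_down hw cw u.1 u.2
      show wind N v u * wind N' w u - wind N v (u.1, u.2 - 1) * wind N' w (u.1, u.2 - 1) = _
      have a3 : (u.1, u.2) = u := rfl
      rw [a3] at a1 a2
      rw [← a1, ← a2]
      ring
    by_cases c1 : cur N v u (u.1 + 1, u.2) = 0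
    · by_cases c2 : cur N' w u (u.1 + 1, u.2) = 0
      · rw [e1, c1, c2]
        ring
      · rw [← prd_theta h2 c2, e0, mul_zero]
    · rw [← prd_theta h1 c1, e0, mul_zero]
  -- summation by parts
  have s1 : ∑ u ∈ prdBox B, Jv u * θ (u.1, u.2 + 1) = ∑ u ∈ prdBox B, Jv (u.1, u.2 - 1) * θ u := by
    have h3 := prd_shift (B := B) (fun u => Jv (u.1, u.2 - 1) * θ u) prdUp (fun u hu => by
      have h4 := hJv _ (left_ne_zero_of_mul hu)
      simp only at h4
      rw [prd_mem]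
      omega) (fun u hu => by
      have h4 := hJv _ (left_ne_zero_of_mul hu)
      have h5 : (prdUp u).1 = u.1 := rfl
      have h6 : (prdUp u).2 = u.2 + 1 := rfl
      simp only [h5, h6] at h4
      rw [prd_mem]
      omega)
    rw [← h3]
    refine Finset.sum_congr rfl fun u _ => ?_
    have h5 : ((prdUp u).1, (prdUp u).2 - 1) = u := prdUp.left_inv u
    show _ = Jv ((prdUp u).1, (prdUp u).2 - 1) * θ (prdUp u)
    rw [h5]
    rfl
  have s2 : ∑ u ∈ prdBox B, Jh u * θ (u.1 + 1, u.2) = ∑ u ∈ prdBox B, Jh (u.1 - 1, u.2) * θ u := by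
    have h3 := prd_shift (B := B) (fun u => Jh (u.1 - 1, u.2) * θ u) prdRt (fun u hu => by
      have h4 := hJh _ (left_ne_zero_of_mul hu)
      simp only at h4
      rw [prd_mem]
      omega) (fun u hu => by
      have h4 := hJh _ (left_ne_zero_of_mul hu)
      have h5 : (prdRt u).1 = u.1 + 1 := rfl
      have h6 : (prdRt u).2 = u.2 := rfl
      simp only [h5, h6] at h4
      rw [prd_mem]
      omega)
    rw [← h3]
    refine Finset.sum_congr rfl fun u _ => ?_
    have h5 : ((prdRt u).1 - 1, (prdRt u).2) = u := prdRt.left_inv u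
    show _ = Jh ((prdRt u).1 - 1, (prdRt u).2) * θ (prdRt u)
    rw [h5]
    rfl
  have s3 : ∑ u ∈ prdBox B, (Jv u * (θ (u.1, u.2 + 1) - θ u) + Jh u * (θ (u.1 + 1, u.2) - θ u)) = 0 := by
    have e1 : ∑ u ∈ prdBox B, (Jv u * (θ (u.1, u.2 + 1) - θ u) + Jh u * (θ (u.1 + 1, u.2) - θ u)) =
        ∑ u ∈ prdBox B, Jv u * θ (u.1, u.2 + 1) + ∑ u ∈ prdBox B, Jh u * θ (u.1 + 1, u.2) -
          ∑ u ∈ prdBox B, (Jv u + Jh u) * θ u := by
      rw [← Finset.sum_add_distrib, ← Finset.sum_sub_distrib]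
      refine Finset.sum_congr rfl fun u _ => ?_
      ring
    rw [e1, s1, s2, ← Finset.sum_add_distrib, ← Finset.sum_sub_distrib]
    refine Finset.sum_eq_zero fun u _ => ?_
    show (n (u.1 - 1, u.2 - 1) - n (u.1, u.2 - 1)) * θ u + (n (u.1 - 1, u.2) - n (u.1 - 1, u.2 - 1)) * θ u -
      ((n (u.1 - 1, u.2) - n u) + (n u - n (u.1, u.2 - 1))) * θ u = 0
    ring
  -- evaluation
  have t1 : ∑ u ∈ prdBox B, Jv u * prdL P f L u (u.1, u.2 + 1) = ∑ p ∈ P, L p * n (f p) := by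
    have e1 : ∀ u, Jv u * prdL P f L u (u.1, u.2 + 1) =
        ∑ p ∈ P, L p * (Jv u * (if (f p).1 < u.1 ∧ u.2 = (f p).2 then 1 else 0)) := by
      intro u
      unfold prdL
      rw [Finset.mul_sum]
      refine Finset.sum_congr rfl fun p _ => ?_
      rw [prd_ray_up]
      ring
    rw [Finset.sum_congr rfl fun u _ => e1 u, Finset.sum_comm]
    refine Finset.sum_congr rfl fun p hp => ?_
    rw [← Finset.mul_sum]
    congr 1
    obtain ⟨⟨b1, b2⟩, b3, b4⟩ := hBf p hp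
    have e2 : ∑ u ∈ prdBox B, Jv u * (if (f p).1 < u.1 ∧ u.2 = (f p).2 then 1 else 0) =
        ∑ a ∈ Finset.Ioc (f p).1 B, (n (a - 1, (f p).2) - n (a, (f p).2)) := by
      have e3 : ∀ u, Jv u * (if (f p).1 < u.1 ∧ u.2 = (f p).2 then (1 : ZMod 3) else 0) =
          if (f p).1 < u.1 ∧ u.2 = (f p).2 then Jv u else 0 := by
        intro u
        split_ifs <;> simp
      rw [Finset.sum_congr rfl fun u _ => e3 u, ← Finset.sum_filter]
      refine Finset.sum_nbij' (fun u => u.1) (fun a => (a, (f p).2)) ?_ ?_ ?_ ?_ ?_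
      · intro u hu
        rw [Finset.mem_filter, prd_mem] at hu
        rw [Finset.mem_Ioc]
        omega
      · intro a ha
        rw [Finset.mem_Ioc] at ha
        rw [Finset.mem_filter, prd_mem]
        refine ⟨⟨⟨?_, ?_⟩, ?_, ?_⟩, ?_, rfl⟩
        · show -B ≤ a
          omega
        · show a ≤ B
          omega
        · show -B ≤ (f p).2
          omega
        · show (f p).2 ≤ B
          omega
        · show (f p).1 < a
          omega
      · intro u hu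
        rw [Finset.mem_filter] at hu
        exact Prod.ext rfl hu.2.2.symm
      · intro a _
        rfl
      · intro u hu
        rw [Finset.mem_filter] at hu
        show n (u.1 - 1, u.2) - n u = n (u.1 - 1, (f p).2) - n (u.1, (f p).2)
        rw [← hu.2.2]
    rw [e2, prd_tele (fun a => n (a, (f p).2)) (f p).1 B (by omega)]
    have e4 : n (B, (f p).2) = 0 := by
      by_contra h3
      have h4 := (hn _ h3).1.2
      simp only at h4
      omega
    show n ((f p).1, (f p).2) - n (B, (f p).2) = n (f p)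
    rw [e4, sub_zero]
  show ∑ p ∈ P, L p * n (f p) = 0
  rw [← t1, Finset.sum_congr rfl fun u _ => k1 u]
  rw [← s3]
  refine Finset.sum_congr rfl fun u _ => ?_
  rw [k2 u, add_zero]

end Pool.Agent.TRG
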