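import Mathlib
import Pool.Agent.TRG.Defs
import Pool.Agent.TRG.ARC
import Pool.Agent.TRG.LGM
import Pool.Agent.TRG.EXC
import Pool.Agent.TRG.POT
import Pool.Agent.TRG.PRD

/-
SPN: products of winding vectors of short loops are combinations of winding vectors of (slightly less) short loops.  (90 lines)
PROOF. Suppose n1 * n2 is not in the span W of Cls (lev - 2 err). There is a linear functional l on (P -> ZMod 3) vanishing on W with
l (n1 * n2) <> 0 (Submodule.exists_le_ker_of_notMem, or the dual of a vector space over the field ZMod 3; Fact (Nat.Prime 3)). Put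
L0 p = l (Pi.single p 1) for p in P, extended by 0 to all complex numbers, so l n = sum_{p : P} L0 p * n p (LinearMap.pi_apply_eq_sum_univ or
decompose n = sum of n p • Pi.single p 1), and for the cochain L u w = sum_{p in P} L0 p * ray (cell h p) u w:
 lsum L N a = sum_{p in P} L0 p * wind N (fun i => (a i).1) (cell h p) = l (winding vector)   (exchange the sums; sum over the subtype P = sum over p in P,
 Finset.sum_coe_sort / Finset.sum_attach). L is antisymmetric (ray_anti). Hence lsum L N a = 0 for every Short (lev - 2 err).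
Let (N1,a,c), (N2,b,c') be Short loops for n1, n2, v i = (a i).1, w i = (b i).1, th1 k = lsum L k a, th2 k = lsum L k b.
 h1, h2: lsum succ. e1: for k <= k': sub_short and hz give lsum L k' a - lsum L k a = 0 (sub_lsum); for k' <= k symmetric. e2: same.
 e: exchange. POT gives th. PRD (with f = cell h, L0, th) gives sum_p L0 p * (n1 p * n2 p) = 0, i.e. l (n1 * n2) = 0, contradiction.
-/

open MeasureTheory Set Filter Topology Manifold
open scoped ENNReal NNReal ContDiff
open Pool.Agent.MIR (cis cp hol Jw Pic Tan PL ip gd)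
open Pool.Agent.H74.Surf

noncomputable section

namespace Pool.Agent.TRG

variable {X : Type} {d : X → X → ℝ} {r : X → X} {Pi : X → ℂ} {P : Finset ℂ} {φ : ℝ → X}
  {h η err lev : ℝ}

private theorem spn_fun {P : Finset ℂ} (l : (P → ZMod 3) →ₗ[ZMod 3] ZMod 3) :
    ∃ L0 : ℂ → ZMod 3, ∀ g : ℂ → ZMod 3, l (fun p : P => g p) = ∑ p ∈ P, L0 p * g p := by
  classical
  refine ⟨fun z => if hz : z ∈ P then l (fun j => if (⟨z, hz⟩ : P) = j then 1 else 0) else 0, fun g => ?_⟩
  rw [LinearMap.pi_apply_eq_sum_univ, ← Finset.sum_coe_sort P]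
  refine Finset.sum_congr rfl fun p _ => ?_
  rw [smul_eq_mul, mul_comm]
  simp

private theorem spn_lsum {X : Type} {P : Finset ℂ} {L0 : ℂ → ZMod 3} {h : ℝ} (N : ℕ) (a : ℕ → (ℤ × ℤ) × X) :
    lsum (fun u w => ∑ p ∈ P, L0 p * ray (cell h p) u w) N a =
      ∑ p ∈ P, L0 p * wind N (fun i => (a i).1) (cell h p) := by
  unfold lsum wind
  rw [Finset.sum_comm]
  refine Finset.sum_congr rfl fun p _ => ?_
  rw [Finset.mul_sum]

theorem span_mul (F : Fill d r Pi P φ)
    (herr : ∀ x y, ‖Pi x - Pi y‖ ≤ 16 * h → ∃ j, d x (act r j y) ≤ err) (hη : err ≤ η)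
    (hh : 0 < h) {n1 n2 : P → ZMod 3} (h1 : n1 ∈ Cls d r φ Pi P h η lev)
    (h2 : n2 ∈ Cls d r φ Pi P h η lev) :
    n1 * n2 ∈ Submodule.span (ZMod 3) (Cls d r φ Pi P h η (lev - 2 * err)) := by
  classical
  have : Fact (Nat.Prime 3) := ⟨Nat.prime_three⟩
  by_contra hnot
  obtain ⟨l, hl1, hl2⟩ := Submodule.exists_le_ker_of_notMem hnot
  obtain ⟨L0, hL0⟩ := spn_fun l
  obtain ⟨N, a, c, sa, rfl⟩ := h1
  obtain ⟨N', b, c', sb, rfl⟩ := h2
  set Lc : ℤ × ℤ → ℤ × ℤ → ZMod 3 := fun u w => ∑ p ∈ P, L0 p * ray (cell h p) u w with hLc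
  have hanti : ∀ u w, Lc w u = -Lc u w := by
    intro u w
    simp only [hLc]
    rw [← Finset.sum_neg_distrib]
    refine Finset.sum_congr rfl fun p _ => ?_
    rw [ray_anti]
    ring
  have hz : ∀ N a c, Short d r φ Pi h η (lev - 2 * err) N a c → lsum Lc N a = 0 := by
    intro N a c s
    have hm : (fun p : P => wind N (fun i => (a i).1) (cell h (p : ℂ))) ∈
        Submodule.span (ZMod 3) (Cls d r φ Pi P h η (lev - 2 * err)) :=
      Submodule.subset_span ⟨N, a, c, s, rfl⟩
    have h0 := hl2 hm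
    rw [LinearMap.mem_ker] at h0
    rw [hL0 (fun z => wind N (fun i => (a i).1) (cell h z))] at h0
    rw [hLc, spn_lsum]
    exact h0
  have hsub : ∀ (N : ℕ) (a : ℕ → (ℤ × ℤ) × X) (c : ℝ), Short d r φ Pi h η lev N a c →
      ∀ k ≤ N, ∀ k' ≤ N, (a k).1 = (a k').1 → lsum Lc k a = lsum Lc k' a := by
    intro N a c s k hk k' hk' e
    rcases le_total k k' with hkk | hkk
    · have h3 := hz _ _ _ (sub_short F herr s hkk hk' e)
      rw [sub_lsum Lc a hkk, sub_eq_zero] at h3
      exact h3.symm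
    · have h3 := hz _ _ _ (sub_short F herr s hkk hk e.symm)
      rw [sub_lsum Lc a hkk, sub_eq_zero] at h3
      exact h3
  have hstep : ∀ (a : ℕ → (ℤ × ℤ) × X) (i : ℕ), lsum Lc (i + 1) a - lsum Lc i a = Lc (a i).1 (a (i + 1)).1 := by
    intro a i
    unfold lsum
    rw [Finset.sum_range_succ]
    ring
  obtain ⟨θ, hθ1, hθ2⟩ := potential Lc (N := N) (N' := N') (v := fun i => (a i).1) (w := fun i => (b i).1)
    (θ1 := fun k => lsum Lc k a) (θ2 := fun k => lsum Lc k b) (fun i _ => hstep a i) (fun i _ => hstep b i)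
    (fun k hk k' hk' e => hsub N a c sa k hk k' hk' e) (fun k hk k' hk' e => hsub N' b c' sb k hk k' hk' e)
    (fun k hk k' hk' m hm m' hm' e1 e2 => exchange F herr hη hh hanti hz sa sb hk hk' hm hm' e1 e2)
  have hprod := prod_zero (N := N) (N' := N') (v := fun i => (a i).1) (w := fun i => (b i).1)
    (fun i hi => (sa.arc.2 i hi).1) (fun i hi => (sb.arc.2 i hi).1) sa.closed sb.closed P (fun z => cell h z) L0 θ
    hθ1 hθ2
  apply hl1
  have h5 := hL0 (fun z => wind N (fun i => (a i).1) (cell h z) * wind N' (fun i => (b i).1) (cell h z))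
  rw [hprod] at h5
  exact h5

end Pool.Agent.TRG
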