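import Mathlib
import Pool.Agent.TRG.Defs
import Pool.Agent.TRG.ACT
import Pool.Agent.TRG.ARC
import Pool.Agent.TRG.LGM

/-
TYP: short loops have type 0.  (40 lines)
PROOF. Let psi be the sum. By node_far and hfar the nodes satisfy the assumption of hcov, so d x_N (act psi x_0) <= eps. If psi <> 0, odd_far at x_0 gives
pi <= c + d x_0 (act psi x_0) <= c + d x_0 x_N + d x_N (act psi x_0) <= c + cost N a + eps < pi - lev + eps <= pi, a contradiction.
-/

open MeasureTheory Set Filter Topology Manifold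
open scoped ENNReal NNReal ContDiff
open Pool.Agent.MIR (cis cp hol Jw Pic Tan PL ip gd)
open Pool.Agent.H74.Surf

noncomputable section

namespace Pool.Agent.TRG

variable {X : Type} {d : X → X → ℝ} {r : X → X} {Pi : X → ℂ} {P : Finset ℂ} {φ : ℝ → X}
  {h η err lev : ℝ}

theorem type_zero (F : Fill d r Pi P φ)
    (herr : ∀ x y, ‖Pi x - Pi y‖ ≤ 16 * h → ∃ j, d x (act r j y) ≤ err) {R ε : ℝ}
    (hfar : ∀ x, lev - 2 * err ≤ d x (r x) → ∀ p ∈ P, R ≤ ‖Pi x - p‖) {e : ℂ → ZMod 3}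
    (hcov : ∀ (N : ℕ) (a : ℕ → (ℤ × ℤ) × X), Arc d Pi h η N a →
      (∀ i ≤ N, ∀ p ∈ P, R ≤ ‖Pi (a i).2 - p‖) → (a N).1 = (a 0).1 →
      d (a N).2 (act r (∑ p ∈ P, e p * wind N (fun i => (a i).1) (cell h p)) (a 0).2) ≤ ε)
    (hε : ε ≤ lev) {N : ℕ} {a : ℕ → (ℤ × ℤ) × X} {c : ℝ} (s : Short d r φ Pi h η lev N a c) :
    ∑ p ∈ P, e p * wind N (fun i => (a i).1) (cell h p) = 0 := by
  by_contra hψ
  have h1 := hcov N a s.arc (fun i hi => hfar (a i).2 (node_far F herr s hi)) s.closed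
  have h2 := odd_far F s.odd hψ
  have h3 := F.tri (a 0).2 (a N).2
    (act r (∑ p ∈ P, e p * wind N (fun i => (a i).1) (cell h p)) (a 0).2)
  have h4 := cost_ge F.toCov3 N a
  have h5 := s.short
  linarith

end Pool.Agent.TRG
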