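import Mathlib
import Pool.Agent.TRG.Defs
import Pool.Agent.TRG.ACT
import Pool.Agent.TRG.ARC
import Pool.Agent.TRG.LGM
import Pool.Agent.TRG.COV
import Pool.Agent.TRG.SPN
import Pool.Agent.TRG.ALG
import Pool.Agent.TRG.TYP
import Pool.Agent.TRG.BND

/-
CMB: the combinatorial theorem: the short loops cannot exist for all branch points.  (150 lines)
PROOF.
(1) For p in P choose del_p > 0 from hl. Choose del > 0 with del <= del_p for all p in P, and del <= 1 (finite set).
(2) F.far (del/4) gives R1 > 0. Choose R > 0 with R <= R1 and R <= 1 - |p| for all p in P (F.inner).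
(3) COV for R and eps = del/4 gives h1, eta. Put m = P.card, err = min eta (del / (16 (m + 2))) / 2 (positive). F.lift err gives d2 > 0 with
 |Pi x - Pi y| < d2 -> exists j, d x (act j y) < err. For p in P, hl p eta gives h_p. bd_chain gives h2.
 Choose h > 0 with h < h1, h < h2, h < h_p for all p in P and 16 h < d2. So herr holds, err <= eta. COV gives e.
(4) Levels lev i = del - 2 err i. For i <= m + 1: lev i >= del - 2 (m+1) del/(32 (m+2))... >= del/2, and lev i - 2 err >= del/4.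
 E i = Cls d r phi Pi P h eta (lev i). E i is contained in E (i+1) (Short is monotone in lev, lev (i+1) <= lev i).
 SPN gives hmul (lev i - 2 err = lev (i+1)). hcov: for p in P the loop of hl p (with del_p; Short at level del_p implies Short at level del = lev 0) has
 wind (cell h p) <> 0.
 ALG with I = P (Fintype.card P = P.card = m, Fintype.card_coe): 1 in span (E (m+1)).
(5) The linear functional psi n = sum_{p : P} e p * n p vanishes on E (m+1) by TYP (lev = lev (m+1) >= del/2: lev - 2 err >= del/4, so hfar follows from F.far and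
 R <= R1; eps = del/4 <= lev), hence on the span (Submodule.span_le / span_induction), so psi 1 = sum_{p in P} e p = 0.
(6) The boundary chain of BND: its nodes are phi t with Pi (phi t) = cis (3t) of norm 1, so |Pi - p| >= 1 - |p| >= R. COV:
 d (phi (2 pi/3)) (act (sum_p e p * c0) (phi 0)) <= eps, and the sum is 0 * c0 = 0, so with phi (2 pi/3) = r (phi 0) (F.rot 0): d (r (phi 0)) (phi 0) <= eps <= 1/4.
(7) Odd3 (phi 0) (pi/3): t = 0, l = 1: act 1 (phi (0 + pi)) = r (phi pi) = phi (pi + 2 pi/3) = phi (5 pi/3), and phi (5 pi/3) = phi (-pi/3) since r (r (r (phi s))) = phi (s + 2 pi) = phi s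
 (s = -pi/3); d (phi 0) (phi (-pi/3)) <= pi/3. odd_far with j = 1: pi <= pi/3 + d (phi 0) (r (phi 0)) <= pi/3 + 1/4, a contradiction.
-/

open MeasureTheory Set Filter Topology Manifold
open scoped ENNReal NNReal ContDiff
open Pool.Agent.MIR (cis cp hol Jw Pic Tan PL ip gd)
open Pool.Agent.H74.Surf

noncomputable section

namespace Pool.Agent.TRG

variable {X : Type} {d : X → X → ℝ} {r : X → X} {Pi : X → ℂ} {P : Finset ℂ} {φ : ℝ → X}

private theorem CMB_min {ι : Type} (S : Finset ι) (Q : ι → ℝ → Prop)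
    (hQ : ∀ p ∈ S, ∃ δ > 0, Q p δ)
    (hm : ∀ p, ∀ δ δ', 0 < δ' → δ' ≤ δ → Q p δ → Q p δ') {B : ℝ} (hB : 0 < B) :
    ∃ δ > 0, δ ≤ B ∧ ∀ p ∈ S, Q p δ := by
  classical
  induction S using Finset.induction_on with
  | empty => exact ⟨B, hB, le_rfl, fun p hp => absurd hp (Finset.notMem_empty p)⟩
  | insert a S ha ih =>
    obtain ⟨δ1, h1, h1B, hQ1⟩ := ih (fun p hp => hQ p (Finset.mem_insert_of_mem hp))
    obtain ⟨δ2, h2, hQ2⟩ := hQ a (Finset.mem_insert_self a S)
    refine ⟨min δ1 δ2, lt_min h1 h2, (min_le_left _ _).trans h1B, fun p hp => ?_⟩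
    rcases Finset.mem_insert.1 hp with rfl | hp
    · exact hm _ _ _ (lt_min h1 h2) (min_le_right _ _) hQ2
    · exact hm _ _ _ (lt_min h1 h2) (min_le_left _ _) (hQ1 p hp)

private theorem CMB_short {h η lev lev' : ℝ} {N : ℕ} {a : ℕ → (ℤ × ℤ) × X} {c : ℝ}
    (s : Short d r φ Pi h η lev N a c) (hl : lev' ≤ lev) : Short d r φ Pi h η lev' N a c :=
  ⟨s.arc, s.closed, s.odd, by linarith [s.short]⟩

theorem comb (F : Fill d r Pi P φ)
    (hl : ∀ p ∈ P, ∃ δ > 0, ∀ η > 0, ∃ h0 > 0, ∀ h, 0 < h → h < h0 →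
      ∃ (N : ℕ) (a : ℕ → (ℤ × ℤ) × X) (c : ℝ), Short d r φ Pi h η δ N a c ∧
        wind N (fun i => (a i).1) (cell h p) ≠ 0) : False := by
  classical
  -- the level
  obtain ⟨del, hdel, hdel1, hl'⟩ := CMB_min P (fun p δ => ∀ η > 0, ∃ h0 > 0, ∀ h, 0 < h → h < h0 →
      ∃ (N : ℕ) (a : ℕ → (ℤ × ℤ) × X) (c : ℝ), Short d r φ Pi h η δ N a c ∧
        wind N (fun i => (a i).1) (cell h p) ≠ 0) hl (by
      intro p δ δ' _ hδ hq η hη
      obtain ⟨h0, hh0, hq'⟩ := hq η hη
      refine ⟨h0, hh0, fun h hh1 hh2 => ?_⟩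
      obtain ⟨N, a, c, s, hw⟩ := hq' h hh1 hh2
      exact ⟨N, a, c, CMB_short s hδ, hw⟩) (B := 1) one_pos
  -- the radius
  obtain ⟨R1, hR1, hfar1⟩ := F.far (del / 4) (by positivity)
  obtain ⟨R, hR, hRR1, hRp⟩ := CMB_min P (fun p R => R ≤ 1 - ‖p‖)
    (fun p hp => ⟨1 - ‖p‖, sub_pos.2 (F.inner p hp), le_rfl⟩)
    (fun p δ δ' _ h1 h2 => h1.trans h2) (B := R1) hR1
  -- the cochain
  obtain ⟨h1, hh1, η, hη, hcov0⟩ := cov F.toCov3 hR (ε := del / 4) (by positivity)
  obtain ⟨err, herr0, herrη, herrd⟩ : ∃ err > 0, err ≤ η ∧ 2 * err * (P.card + 2) ≤ del / 16 := by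
    have hm : (0 : ℝ) < (P.card : ℝ) + 2 := by positivity
    refine ⟨min η (del / (16 * (P.card + 2))) / 2, by positivity, ?_, ?_⟩
    · have := min_le_left η (del / (16 * (P.card + 2)))
      linarith
    · have h2 := min_le_right η (del / (16 * (P.card + 2)))
      have h3 := mul_le_mul_of_nonneg_right h2 hm.le
      have h4 : del / (16 * (P.card + 2)) * ((P.card : ℝ) + 2) = del / 16 := by
        field_simp
      rw [h4] at h3
      linarith
  obtain ⟨d2, hd2, hlift⟩ := F.lift err herr0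
  obtain ⟨h2, hh2, hbd⟩ := bd_chain F
  obtain ⟨h3, hh3, h3B, hlp⟩ := CMB_min P (fun p h0 => ∀ h, 0 < h → h < h0 →
      ∃ (N : ℕ) (a : ℕ → (ℤ × ℤ) × X) (c : ℝ), Short d r φ Pi h η del N a c ∧
        wind N (fun i => (a i).1) (cell h p) ≠ 0) (fun p hp => hl' p hp η hη)
      (fun p δ δ' _ hδ hq h hh1 hh2 => hq h hh1 (hh2.trans_le hδ))
      (B := min h1 (min h2 (d2 / 16))) (by positivity)
  have b1 : h3 ≤ h1 := h3B.trans (min_le_left _ _)
  have b2 : h3 ≤ h2 := h3B.trans ((min_le_right _ _).trans (min_le_left _ _))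
  have b3 : h3 ≤ d2 / 16 := h3B.trans ((min_le_right _ _).trans (min_le_right _ _))
  obtain ⟨h, hh, hhh⟩ : ∃ h, 0 < h ∧ h < h3 := ⟨h3 / 2, by positivity, by linarith⟩
  have herr : ∀ x y, ‖Pi x - Pi y‖ ≤ 16 * h → ∃ j, d x (act r j y) ≤ err := by
    intro x y hxy
    obtain ⟨j, hj⟩ := hlift x y (by linarith)
    exact ⟨j, hj.le⟩
  obtain ⟨e, hcov⟩ := hcov0 h hh (by linarith)
  -- the levels
  have hone := one_mem (I := P) (fun i => Cls d r φ Pi P h η (del - 2 * err * i))
    (by
      rintro i n ⟨N, a, c, s, hn⟩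
      refine ⟨N, a, c, CMB_short s ?_, hn⟩
      push_cast
      linarith)
    (by
      intro i x hx y hy
      have h5 := span_mul F herr herrη hh hx hy
      have h6 : del - 2 * err * (i : ℝ) - 2 * err = del - 2 * err * ((i + 1 : ℕ) : ℝ) := by
        push_cast
        ring
      rw [h6] at h5
      exact h5)
    (by
      intro p
      obtain ⟨N, a, c, s, hw⟩ := hlp (p : ℂ) p.2 h hh hhh
      refine ⟨fun p : P => wind N (fun i => (a i).1) (cell h (p : ℂ)), ⟨N, a, c, CMB_short s ?_, rfl⟩, hw⟩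
      simp)
  rw [Fintype.card_coe] at hone
  have hlev : del - 2 * err * ((P.card + 1 : ℕ) : ℝ) - 2 * err ≥ del / 4 := by
    push_cast
    nlinarith
  have hψ : ∀ n ∈ Submodule.span (ZMod 3) (Cls d r φ Pi P h η (del - 2 * err * ((P.card + 1 : ℕ) : ℝ))),
      ∑ p : P, e p * n p = 0 := by
    intro n hn
    induction hn using Submodule.span_induction with
    | mem n hn =>
      obtain ⟨N, a, c, s, rfl⟩ := hn
      have h5 := type_zero F herr (R := R) (ε := del / 4) (fun x hx p hp =>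
        hRR1.trans (hfar1 x (by linarith) p hp)) hcov (by linarith) s
      rw [← Finset.sum_coe_sort] at h5
      exact h5
    | zero => simp
    | add x y _ _ h5 h6 =>
      simp only [_root_.Pi.add_apply, mul_add, Finset.sum_add_distrib, h5, h6, add_zero]
    | smul k x _ h5 =>
      simp only [_root_.Pi.smul_apply, smul_eq_mul]
      have h6 : ∀ p : P, e p * (k * x p) = k * (e p * x p) := fun p => by ring
      simp only [h6]
      rw [← Finset.mul_sum, h5, mul_zero]
  have hsum : ∑ p ∈ P, e p = 0 := by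
    have h5 := hψ 1 hone
    simp only [_root_.Pi.one_apply, mul_one] at h5
    rw [← Finset.sum_coe_sort]
    exact h5
  -- the boundary chain
  obtain ⟨N, a, c0, ba, bc, b00, bN, bt, bw⟩ := hbd η hη h hh (by linarith)
  have h5 := hcov N a ba (by
    intro i hi p hp
    obtain ⟨t, ht⟩ := bt i hi
    rw [ht, F.bdry]
    have h6 : ‖cis (3 * t)‖ = 1 := by
      unfold Pool.Agent.MIR.cis
      exact Complex.norm_exp_ofReal_mul_I _
    have h7 := norm_sub_norm_le (cis (3 * t)) p
    have h8 := hRp p hp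
    linarith) bc
  have h6 : ∑ p ∈ P, e p * wind N (fun i => (a i).1) (cell h p) = 0 := by
    rw [Finset.sum_congr rfl (fun p hp => by rw [bw p hp]), ← Finset.sum_mul, hsum, zero_mul]
  rw [h6, act_zero, b00, bN] at h5
  have hper : ∀ s, φ (s + 2 * Real.pi) = φ s := by
    intro s
    have h7 := F.cube (φ s)
    rw [F.rot, F.rot, F.rot] at h7
    rw [← h7]
    congr 1
    ring
  have hodd : Odd3 d r φ (φ 0) (Real.pi / 3) := by
    refine ⟨0, 1, ?_⟩
    rw [F.refl, act_one, F.rot, zero_add]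
    have h7 : φ (0 + Real.pi + 2 * Real.pi / 3) = φ (-(Real.pi / 3)) := by
      rw [← hper (-(Real.pi / 3))]
      congr 1
      ring
    rw [h7]
    have h8 := F.lip 0 (-(Real.pi / 3))
    rw [sub_neg_eq_add, zero_add, abs_of_pos (by positivity)] at h8
    exact h8
  have h7 := odd_far F hodd (j := 1) one_ne_zero
  rw [act_one, F.rot, zero_add, F.symm] at h7
  have h8 := Real.pi_gt_three
  linarith

end Pool.Agent.TRG
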