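import Mathlib
import Pool.Agent.TRG.Defs
import Pool.Agent.TRG.FPA
import Pool.Agent.MIR.Cross
import Pool.Agent.MIR.Basic

/-
CRS: a curve from cis s to cis (s + pi) in the disc meets its image under the rotation om.  (50 lines)
PROOF. A = c '' Icc 0 1, B = (fun z => om * z) '' A. JoinedIn A (cis s) (cis (s + pi)) (JoinedIn.ofLine with c), JoinedIn B (cis (s + 2 pi/3)) (cis (s + pi + 2 pi/3))
(om * cis t = cis (t + 2 pi/3)). MIR cross with a = s, b = s + 2 pi/3, c = s + pi, d = s + 5 pi/3 < s + 2 pi: c t1 = om * c t2 with t1, t2 in [0,1]. If t2 <= t1 take t' = t2, t = t1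
(first alternative), otherwise t' = t1, t = t2 (second alternative).
-/

open MeasureTheory Set Filter Topology Manifold
open scoped ENNReal NNReal ContDiff
open Pool.Agent.MIR (cis cp hol Jw Pic Tan PL ip gd)
open Pool.Agent.H74.Surf

noncomputable section

namespace Pool.Agent.TRG

theorem self_cross {c : ℝ → ℂ} {s : ℝ} (hc : ContinuousOn c (Icc 0 1))
    (hc1 : ∀ u ∈ Icc (0 : ℝ) 1, ‖c u‖ ≤ 1) (h0 : c 0 = cis s) (h1 : c 1 = cis (s + Real.pi)) :
    ∃ t' t : ℝ, 0 ≤ t' ∧ t' ≤ t ∧ t ≤ 1 ∧ (c t = om * c t' ∨ c t' = om * c t) := by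
  have hpi := Real.pi_pos
  have hom : ∀ t, om * cis t = cis (t + 2 * Real.pi / 3) := fun t => by
    rw [om, add_comm, Pool.Agent.MIR.cis_add]
  set A : Set ℂ := c '' Icc 0 1 with hA
  set B : Set ℂ := (fun z => om * z) '' A with hB
  have hAsub : A ⊆ Metric.closedBall 0 1 := by
    rintro z ⟨u, hu, rfl⟩
    exact mem_closedBall_zero_iff.2 (hc1 u hu)
  have hBsub : B ⊆ Metric.closedBall 0 1 := by
    rintro z ⟨w, hw, rfl⟩
    refine mem_closedBall_zero_iff.2 ?_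
    show ‖om * w‖ ≤ 1
    rw [norm_om_mul]
    exact mem_closedBall_zero_iff.1 (hAsub hw)
  have hI : (c '' Icc 0 1 : Set ℂ) ⊆ A := subset_rfl
  have j1 : JoinedIn A (cis s) (cis (s + Real.pi)) := JoinedIn.ofLine hc h0 h1 hI
  have j2 : JoinedIn B (cis (s + 2 * Real.pi / 3)) (cis (s + Real.pi + 2 * Real.pi / 3)) := by
    refine JoinedIn.ofLine (f := fun u => om * c u) (continuousOn_const.mul hc) ?_ ?_ ?_
    · rw [h0, hom]
    · rw [h1, hom]
    · rintro z ⟨u, hu, rfl⟩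
      exact ⟨c u, ⟨u, hu, rfl⟩, rfl⟩
  obtain ⟨z, hzA, hzB⟩ := Pool.Agent.MIR.cross hAsub hBsub (a := s) (b := s + 2 * Real.pi / 3)
    (c := s + Real.pi) (d := s + Real.pi + 2 * Real.pi / 3) (by linarith) (by linarith) (by linarith)
    (by linarith) j1 j2
  obtain ⟨t1, ht1, rfl⟩ := hzA
  obtain ⟨w, ⟨t2, ht2, rfl⟩, hw⟩ := hzB
  have hw' : om * c t2 = c t1 := hw
  rcases le_total t2 t1 with h | h
  · exact ⟨t2, t1, ht2.1, h, ht1.2, Or.inl hw'.symm⟩
  · exact ⟨t1, t2, ht1.1, h, ht2.2, Or.inr hw'.symm⟩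

end Pool.Agent.TRG
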