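import Mathlib
import Pool.Agent.TRG.Defs
import Pool.Agent.TRG.ACT

open MeasureTheory Set Filter Topology Manifold
open scoped ENNReal NNReal ContDiff
open Pool.Agent.MIR (cis cp hol Jw Pic Tan PL ip gd)
open Pool.Agent.H74.Surf

noncomputable section

namespace Pool.Agent.TRG

variable {X : Type} {d : X → X → ℝ} {r : X → X} {Pi : X → ℂ} {P : Finset ℂ}

private lemma lpc_one (C : Cov3 d r Pi P) {Y : Type} [MetricSpace Y] {Q : ℂ → Y}
    (hQ : ∀ x y, dist (Q (Pi x)) (Q (Pi y)) = qd d r x y) (x : X) {z : ℂ} (hz : ‖z‖ ≤ 1) :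
    ∃ x', Pi x' = z ∧ d x x' = dist (Q (Pi x)) (Q z) := by
  obtain ⟨y, rfl⟩ := C.surj z hz
  rw [hQ, qd]
  rcases min_choice (d x y) (min (d x (r y)) (d x (r (r y)))) with h | h
  · exact ⟨y, rfl, h.symm⟩
  · rcases min_choice (d x (r y)) (d x (r (r y))) with h' | h'
    · exact ⟨r y, C.proj y, by rw [h, h']⟩
    · exact ⟨r (r y), by rw [C.proj, C.proj], by rw [h, h']⟩

theorem lift_chain (C : Cov3 d r Pi P) {Y : Type} [MetricSpace Y] {Q : ℂ → Y}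
    (hQ : ∀ x y, dist (Q (Pi x)) (Q (Pi y)) = qd d r x y) {N : ℕ} {z : ℕ → ℂ}
    (hz : ∀ i ≤ N, ‖z i‖ ≤ 1) {x0 : X} (h0 : Pi x0 = z 0) :
    ∃ x : ℕ → X, x 0 = x0 ∧ (∀ i ≤ N, Pi (x i) = z i) ∧
      ∀ i < N, d (x i) (x (i + 1)) = dist (Q (z i)) (Q (z (i + 1))) := by
  have h : ∀ (i : ℕ) (x : X), ∃ x', i + 1 ≤ N →
      (Pi x' = z (i + 1) ∧ d x x' = dist (Q (Pi x)) (Q (z (i + 1)))) := by
    intro i x
    by_cases hi : i + 1 ≤ N
    · obtain ⟨x', h1, h2⟩ := lpc_one C hQ x (hz (i + 1) hi)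
      exact ⟨x', fun _ => ⟨h1, h2⟩⟩
    · exact ⟨x, fun h => absurd h hi⟩
  choose g hg using h
  let x : ℕ → X := fun n => Nat.rec x0 (fun i y => g i y) n
  have hx : ∀ i, x (i + 1) = g i (x i) := fun i => rfl
  have hP : ∀ i ≤ N, Pi (x i) = z i := by
    intro i
    induction i with
    | zero => exact fun _ => h0
    | succ i _ =>
      intro hi
      rw [hx]
      exact (hg i (x i) hi).1
  refine ⟨x, rfl, hP, fun i hi => ?_⟩
  rw [hx, (hg i (x i) hi).2, hP i hi.le]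

end Pool.Agent.TRG
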