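import Mathlib
import Pool.Agent.TRG.Defs
import Pool.Agent.TRG.ACT
import Pool.Agent.TRG.LGM
import Pool.Agent.TRG.FPA

/-
LPO: lifts of the ends of the curve; the curve avoids the branch points.  (100 lines)
PROOF. Note: qd d r x y = d x (act r j y) for some j (min_choice, act_zero, act_one, act_two), and qd <= each of the three.
odd_lift: take y with Pi y = z (surj). dist (Q (Pi (phi s))) (Q (Pi y)) = qd (phi s) y = d (phi s) (act j y) for some j; put x0 = act j y (Pi x0 = z). And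
 dist (Q z) (Q (Pi (phi (s+pi)))) = qd x0 (phi (s+pi)) = d x0 (act l (phi (s+pi))) for some l. So Odd3 x0 (sum) with t = s.
 (Pi (phi s) = cis (3 s), Pi (phi (s+pi)) = cis (3 (s+pi)) by F.bdry.)
avoid: suppose Fp p (c u) = q in P, x with Pi x = q, r x = x, u in [0,1]. Then act j x = x for all j, and for z = q odd_lift gives x0 with Pi x0 = q = Pi x. hfib: x0 = x,
 r x or r (r x), so x0 = x. Odd3 x c0 with c0 = dist (Q (cis (3s))) (Q q) + dist (Q q) (Q (cis (3 (s+pi)))), and odd_far (j = 1): pi <= c0 + d x (act 1 x) = c0 + d x x = c0. But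
 c0 <= eVariationOn (Q o Fp p o c) (Icc 0 1) < pi: eVariationOn.edist_le on [0,u] and [u,1] and Icc_add_Icc (c 0 = cis s, Fp_cis; c 1 = cis (s+pi)). Contradiction.
-/

open MeasureTheory Set Filter Topology Manifold
open scoped ENNReal NNReal ContDiff
open Pool.Agent.MIR (cis cp hol Jw Pic Tan PL ip gd)
open Pool.Agent.H74.Surf

noncomputable section

namespace Pool.Agent.TRG

variable {X : Type} {d : X → X → ℝ} {r : X → X} {Pi : X → ℂ} {P : Finset ℂ} {φ : ℝ → X}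

private theorem qd_choice (d : X → X → ℝ) (r : X → X) (x y : X) :
    ∃ j : ZMod 3, qd d r x y = d x (act r j y) := by
  unfold qd
  rcases min_choice (d x y) (min (d x (r y)) (d x (r (r y)))) with h | h
  · exact ⟨0, by rw [h, act_zero]⟩
  · rw [h]
    rcases min_choice (d x (r y)) (d x (r (r y))) with h' | h'
    · exact ⟨1, by rw [h', act_one]⟩
    · exact ⟨2, by rw [h', act_two]⟩

theorem odd_lift (F : Fill d r Pi P φ) {Y : Type} [MetricSpace Y] {Q : ℂ → Y}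
    (hQ : ∀ x y, dist (Q (Pi x)) (Q (Pi y)) = qd d r x y) (s : ℝ) {z : ℂ} (hz : ‖z‖ ≤ 1) :
    ∃ x0, Pi x0 = z ∧ Odd3 d r φ x0
      (dist (Q (cis (3 * s))) (Q z) + dist (Q z) (Q (cis (3 * (s + Real.pi))))) := by
  obtain ⟨y, hy⟩ := F.surj z hz
  obtain ⟨j, hj⟩ := qd_choice d r (φ s) y
  have e1 : Pi (act r j y) = z := by rw [cov_proj F.toCov3, hy]
  obtain ⟨l, hl⟩ := qd_choice d r (act r j y) (φ (s + Real.pi))
  refine ⟨act r j y, e1, s, l, ?_⟩
  have h1 := hQ (φ s) y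
  have h2 := hQ (act r j y) (φ (s + Real.pi))
  rw [F.bdry, hy, hj] at h1
  rw [F.bdry, e1, hl] at h2
  rw [h1, h2]

theorem avoid (F : Fill d r Pi P φ) {Y : Type} [MetricSpace Y] {Q : ℂ → Y}
    (hQ : ∀ x y, dist (Q (Pi x)) (Q (Pi y)) = qd d r x y)
    (hfib : ∀ x y, Pi x = Pi y → y = x ∨ y = r x ∨ y = r (r x))
    (hfix : ∀ q ∈ P, ∃ x, Pi x = q ∧ r x = x) {p : ℂ} {c : ℝ → ℂ} {s : ℝ}
    (h0 : c 0 = cis s) (h1 : c 1 = cis (s + Real.pi))
    (hv : eVariationOn (Q ∘ Fp p ∘ c) (Icc 0 1) < ENNReal.ofReal Real.pi) :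
    ∀ u ∈ Icc (0 : ℝ) 1, Fp p (c u) ∉ P := by
  intro u hu hmem
  obtain ⟨x, hx, hrx⟩ := hfix _ hmem
  obtain ⟨x0, hx0, ho⟩ := odd_lift F hQ s (F.inner _ hmem).le
  have e0 : x0 = x := by
    rcases hfib x x0 (by rw [hx, hx0]) with h | h | h
    · exact h
    · rw [h, hrx]
    · rw [h, hrx, hrx]
  have hfar := odd_far F ho (j := 1) one_ne_zero
  rw [act_one, e0, hrx, F.refl, add_zero] at hfar
  have hsum := eVariationOn.Icc_add_Icc (Q ∘ Fp p ∘ c) (s := univ) hu.1 hu.2 (mem_univ u)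
  simp only [univ_inter] at hsum
  have ha : edist (Q (cis (3 * s))) (Q (Fp p (c u))) ≤ eVariationOn (Q ∘ Fp p ∘ c) (Icc 0 u) := by
    have := eVariationOn.edist_le (Q ∘ Fp p ∘ c) (left_mem_Icc.2 hu.1) (right_mem_Icc.2 hu.1)
    simpa only [Function.comp_apply, h0, Fp_cis] using this
  have hb : edist (Q (Fp p (c u))) (Q (cis (3 * (s + Real.pi)))) ≤
      eVariationOn (Q ∘ Fp p ∘ c) (Icc u 1) := by
    have := eVariationOn.edist_le (Q ∘ Fp p ∘ c) (left_mem_Icc.2 hu.2) (right_mem_Icc.2 hu.2)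
    simpa only [Function.comp_apply, h1, Fp_cis] using this
  have hlt : edist (Q (cis (3 * s))) (Q (Fp p (c u))) +
      edist (Q (Fp p (c u))) (Q (cis (3 * (s + Real.pi)))) < ENNReal.ofReal Real.pi :=
    lt_of_le_of_lt ((add_le_add ha hb).trans hsum.le) hv
  rw [edist_dist, edist_dist, ← ENNReal.ofReal_add dist_nonneg dist_nonneg,
    ENNReal.ofReal_lt_ofReal_iff Real.pi_pos] at hlt
  linarith

end Pool.Agent.TRG
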