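import Mathlib
import Pool.Agent.TRG.Defs
import Pool.Agent.TRG.ACT
import Pool.Agent.TRG.FPA
import Pool.Agent.TRG.FPB

/-
WCV: the model cover is a cyclic threefold cover branched over p.  (80 lines)
PROOF. refl, symm, tri: distance of complex numbers. inv: |om x - om y| = |x - y|. cube: om^3 = 1. proj: Fp_om. surj: Fp_surj. inner: hp.
lift: given eps take del = (1 - |p|) (eps/2)^3: Fp_lower gives |x^3 - y^3| <= (eps/2)^3, min3 gives |x - om^j y| <= eps/2 < eps for some j = 0, 1, 2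
 (act rotw j y has value y, om y, om (om y): act_zero, act_one, act_two).
free: given R let del > 0 with 2 del^3 < R (for instance del = min 1 (R/4): 2 del^3 <= 2 del <= R/2 < R). If |Fp p x - p| >= R then |x| > del, since otherwise Fp_ne' gives
 |Fp p x - p| <= 2 del^3 < R; and |x - om x| = |om - 1| |x| >= |x| (om_sub).
-/

open MeasureTheory Set Filter Topology Manifold
open scoped ENNReal NNReal ContDiff
open Pool.Agent.MIR (cis cp hol Jw Pic Tan PL ip gd)
open Pool.Agent.H74.Surf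

noncomputable section

namespace Pool.Agent.TRG

theorem wcov {p : ℂ} (hp : ‖p‖ < 1) :
    Cov3 (fun x y : Dw => dist x.1 y.1) rotw (fun w : Dw => Fp p w.1) {p} := by
  have hp' : 0 < 1 - ‖p‖ := sub_pos.2 hp
  refine ⟨fun x => dist_self _, fun x y => dist_comm _ _, fun x y z => dist_triangle _ _ _,
    fun x y => ?_, fun x => ?_, fun x => Fp_om p x.1, fun z hz => ?_, fun ε hε => ?_,
    fun R hR => ?_, fun q hq => ?_⟩
  · change dist (om * x.1) (om * y.1) = dist x.1 y.1
    rw [dist_eq_norm, dist_eq_norm, ← mul_sub, norm_mul, norm_om, one_mul]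
  · apply Subtype.ext
    change om * (om * (om * x.1)) = x.1
    have h1 : om * (om * (om * x.1)) = om ^ 3 * x.1 := by ring
    rw [h1, om_cube, one_mul]
  · obtain ⟨w, hw, h⟩ := Fp_surj hp hz
    exact ⟨⟨w, hw⟩, h⟩
  · refine ⟨(1 - ‖p‖) * (ε / 2) ^ 3, by positivity, fun x y hxy => ?_⟩
    have h1 := Fp_lower p x.1 y.1
    have hxy' : ‖Fp p x.1 - Fp p y.1‖ < (1 - ‖p‖) * (ε / 2) ^ 3 := hxy
    have h2 : ‖x.1 ^ 3 - y.1 ^ 3‖ ≤ (ε / 2) ^ 3 := by
      by_contra hcon
      have h3 := mul_lt_mul_of_pos_left (not_le.1 hcon) hp'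
      linarith
    rcases min3 (w := y.1) (w' := x.1) (by positivity) h2 with h | h | h
    · refine ⟨0, ?_⟩
      change dist x.1 y.1 < ε
      rw [dist_eq_norm]
      linarith
    · refine ⟨1, ?_⟩
      change dist x.1 (om * y.1) < ε
      rw [dist_eq_norm]
      linarith
    · refine ⟨2, ?_⟩
      change dist x.1 (om * (om * y.1)) < ε
      rw [dist_eq_norm]
      linarith
  · refine ⟨min 1 (R / 4), by positivity, fun x hx => ?_⟩
    have h1 : R ≤ ‖Fp p x.1 - p‖ := hx p (Finset.mem_singleton_self p)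
    have h2 := Fp_ne' hp.le x.1
    have h3 : min 1 (R / 4) ≤ ‖x.1‖ := by
      by_contra hcon
      have h4 : ‖x.1‖ < min 1 (R / 4) := not_le.1 hcon
      have h5 : ‖x.1‖ ≤ 1 := x.2
      have h6 : ‖x.1‖ < R / 4 := lt_of_lt_of_le h4 (min_le_right _ _)
      have h7 : ‖x.1‖ ^ 3 ≤ ‖x.1‖ := by
        have h8 := pow_le_pow_of_le_one (norm_nonneg x.1) h5 (show 1 ≤ 3 by norm_num)
        simpa using h8
      linarith
    change min 1 (R / 4) ≤ dist x.1 (om * x.1)
    rw [dist_eq_norm]
    have h9 : x.1 - om * x.1 = -((om - 1) * x.1) := by ring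
    rw [h9, norm_neg, norm_mul]
    have h10 := om_sub
    have h11 : 1 * ‖x.1‖ ≤ ‖om - 1‖ * ‖x.1‖ := mul_le_mul_of_nonneg_right h10 (norm_nonneg _)
    linarith
  · rw [Finset.mem_singleton] at hq
    rw [hq]
    exact hp

end Pool.Agent.TRG
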