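import Mathlib
import Pool.Agent.TRG.Defs
import Pool.Agent.TRG.ACT
import Pool.Agent.TRG.ARC
import Pool.Agent.TRG.COV
import Pool.Agent.TRG.DIS
import Pool.Agent.TRG.FPA
import Pool.Agent.TRG.FPB
import Pool.Agent.TRG.WCV
import Pool.Agent.TRG.CRS
import Pool.Agent.TRG.LPC
import Pool.Agent.TRG.LPO

open MeasureTheory Set Filter Topology Manifold
open scoped ENNReal NNReal ContDiff
open Pool.Agent.MIR (cis cp hol Jw Pic Tan PL ip gd)
open Pool.Agent.H74.Surf

noncomputable section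

namespace Pool.Agent.TRG

variable {X : Type} {d : X → X → ℝ} {r : X → X} {Pi : X → ℂ} {P : Finset ℂ} {φ : ℝ → X}

private theorem split3 {Y : Type} [MetricSpace Y] (f : ℝ → Y) {t' t : ℝ} (h0 : 0 ≤ t')
    (h1 : t' ≤ t) (h2 : t ≤ 1) :
    eVariationOn f (Icc 0 t') + eVariationOn f (Icc t' t) + eVariationOn f (Icc t 1) =
      eVariationOn f (Icc 0 1) := by
  have e1 := eVariationOn.Icc_add_Icc f (s := univ) h0 h1 (mem_univ _)
  have e2 := eVariationOn.Icc_add_Icc f (s := univ) (h0.trans h1) h2 (mem_univ _)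
  simp only [univ_inter] at e1 e2
  rw [e1, e2]

private theorem length_le {Y : Type} [MetricSpace Y] (f : ℝ → Y) {t' t : ℝ} (h0 : 0 ≤ t')
    (h1 : t' ≤ t) (h2 : t ≤ 1) (hV : eVariationOn f (Icc 0 1) ≠ ⊤) {N : ℕ} {u : ℕ → ℝ}
    (hu : ∀ i < N, u i ≤ u (i + 1)) (hm : ∀ i ≤ N, u i ∈ Icc t' t) :
    dist (f 0) (f t') + dist (f t) (f 1) + ∑ i ∈ Finset.range N, dist (f (u i)) (f (u (i + 1))) ≤
      (eVariationOn f (Icc 0 1)).toReal := by
  have hmono : MonotoneOn u (Iic N) := by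
    intro i hi j hj hij
    simp only [mem_Iic] at hi hj
    induction j, hij using Nat.le_induction with
    | base => exact le_rfl
    | succ n hn ih => exact (ih (by omega)).trans (hu n (by omega))
  have a1 : edist (f 0) (f t') ≤ eVariationOn f (Icc 0 t') :=
    eVariationOn.edist_le f (left_mem_Icc.2 h0) (right_mem_Icc.2 h0)
  have a2 : edist (f t) (f 1) ≤ eVariationOn f (Icc t 1) :=
    eVariationOn.edist_le f (left_mem_Icc.2 h2) (right_mem_Icc.2 h2)
  have a3 : ∑ i ∈ Finset.range N, edist (f (u i)) (f (u (i + 1))) ≤ eVariationOn f (Icc t' t) := by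
    have := eVariationOn.sum_le_of_monotoneOn_Iic (f := f) (s := Icc t' t) hmono hm
    refine le_trans (le_of_eq ?_) this
    exact Finset.sum_congr rfl fun i _ => edist_comm _ _
  have a4 : ENNReal.ofReal (dist (f 0) (f t') + dist (f t) (f 1) +
      ∑ i ∈ Finset.range N, dist (f (u i)) (f (u (i + 1)))) ≤ eVariationOn f (Icc 0 1) := by
    rw [← split3 f h0 h1 h2, ENNReal.ofReal_add (by positivity) (by positivity),
      ENNReal.ofReal_add (by positivity) (by positivity),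
      ENNReal.ofReal_sum_of_nonneg (fun _ _ => dist_nonneg)]
    simp only [← edist_dist]
    calc edist (f 0) (f t') + edist (f t) (f 1) +
          ∑ i ∈ Finset.range N, edist (f (u i)) (f (u (i + 1)))
        ≤ eVariationOn f (Icc 0 t') + eVariationOn f (Icc t 1) + eVariationOn f (Icc t' t) :=
          add_le_add (add_le_add a1 a2) a3
      _ = _ := by ring
  exact (ENNReal.ofReal_le_iff_le_toReal hV).1 a4

theorem loops (F : Fill d r Pi P φ) {Y : Type} [MetricSpace Y] {Q : ℂ → Y}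
    (hQ : ∀ x y, dist (Q (Pi x)) (Q (Pi y)) = qd d r x y)
    (hfib : ∀ x y, Pi x = Pi y → y = x ∨ y = r x ∨ y = r (r x))
    (hfix : ∀ q ∈ P, ∃ x, Pi x = q ∧ r x = x) {K : ℝ≥0}
    (hK : LipschitzOnWith K Q (Metric.closedBall 0 1)) {p : ℂ} (hp : p ∈ P) {c : ℝ → ℂ} {s : ℝ}
    (hc : ContinuousOn c (Icc 0 1)) (hc1 : ∀ u ∈ Icc (0 : ℝ) 1, ‖c u‖ ≤ 1)
    (h0 : c 0 = cis s) (h1 : c 1 = cis (s + Real.pi))
    (hv : eVariationOn (Q ∘ Fp p ∘ c) (Icc 0 1) < ENNReal.ofReal Real.pi) :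
    ∃ δ > 0, ∀ η > 0, ∃ h0 > 0, ∀ h, 0 < h → h < h0 →
      ∃ (N : ℕ) (a : ℕ → (ℤ × ℤ) × X) (c' : ℝ), Short d r φ Pi h η δ N a c' ∧
        wind N (fun i => (a i).1) (cell h p) ≠ 0 := by
  have hpi := Real.pi_pos
  have hp1 : ‖p‖ < 1 := F.inner p hp
  obtain ⟨t', t, ht'0, htt, ht1, hcross⟩ := self_cross hc hc1 h0 h1
  have hav := avoid F hQ hfib hfix h0 h1 hv
  have hFeq : Fp p (c t) = Fp p (c t') := by
    rcases hcross with e | e
    · rw [e, Fp_om]
    · rw [e, Fp_om]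
  have hcne : ∀ u ∈ Icc (0 : ℝ) 1, c u ≠ 0 := by
    intro u hu e
    apply hav u hu
    rw [e, Fp_zero]
    exact hp
  obtain ⟨ρ, hρ, hρc⟩ : ∃ ρ > 0, ∀ u ∈ Icc (0 : ℝ) 1, ρ ≤ ‖c u‖ := by
    obtain ⟨u0, hu0, hmin⟩ :=
      isCompact_Icc.exists_isMinOn (nonempty_Icc.2 (zero_le_one' ℝ)) hc.norm
    exact ⟨‖c u0‖, norm_pos_iff.2 (hcne u0 hu0), fun u hu => hmin hu⟩
  have hI : Icc t' t ⊆ Icc (0 : ℝ) 1 := Icc_subset_Icc ht'0 ht1
  have hmt' : t' ∈ Icc (0 : ℝ) 1 := ⟨ht'0, htt.trans ht1⟩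
  have hmt : t ∈ Icc (0 : ℝ) 1 := ⟨ht'0.trans htt, ht1⟩
  -- the curve in the quotient
  have hz1 : ∀ u ∈ Icc (0 : ℝ) 1, ‖Fp p (c u)‖ ≤ 1 := fun u hu => Fp_norm_le hp1.le (hc1 u hu)
  have hzc : ContinuousOn (fun u => Fp p (c u)) (Icc 0 1) := by
    refine (Fp_lip hp1.le).continuousOn.comp hc ?_
    intro u hu
    simpa using hc1 u hu
  have hfc : ContinuousOn (Q ∘ Fp p ∘ c) (Icc 0 1) := by
    refine hK.continuousOn.comp hzc ?_
    intro u hu
    simpa using hz1 u hu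
  have hV : eVariationOn (Q ∘ Fp p ∘ c) (Icc 0 1) ≠ ⊤ := (hv.trans ENNReal.ofReal_lt_top).ne
  have hVpi : (eVariationOn (Q ∘ Fp p ∘ c) (Icc 0 1)).toReal < Real.pi :=
    ENNReal.toReal_lt_of_lt_ofReal hv
  set V := (eVariationOn (Q ∘ Fp p ∘ c) (Icc 0 1)).toReal with hVdef
  refine ⟨(Real.pi - V) / 2, by linarith, ?_⟩
  intro η hη
  have hR : 0 < (1 - ‖p‖) * ρ ^ 3 := mul_pos (by linarith) (pow_pos hρ 3)
  obtain ⟨h1', hh1', η1, hη1, hcov⟩ := cov (wcov hp1) hR (half_pos hρ)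
  obtain ⟨μ1, hμ1, hu1⟩ := Metric.uniformContinuousOn_iff.1
    (isCompact_Icc.uniformContinuousOn_of_continuous hc) η1 hη1
  obtain ⟨μ2, hμ2, hu2⟩ := Metric.uniformContinuousOn_iff.1
    (isCompact_Icc.uniformContinuousOn_of_continuous hfc) η hη
  refine ⟨h1', hh1', ?_⟩
  intro h hh hh1
  obtain ⟨e, he⟩ := hcov h hh hh1
  obtain ⟨N, u, v, humono, hu0, huN, humem, hustep, hvstep, hvnear, hv0, hvN⟩ :=
    discretize htt (z := fun u => Fp p (c u)) (hzc.mono hI) (fun u hu => hz1 u (hI hu)) hh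
      (lt_min hμ1 hμ2)
  have hum : ∀ i ≤ N, u i ∈ Icc (0 : ℝ) 1 := fun i hi => hI (humem i hi)
  have hud : ∀ i < N, dist (u i) (u (i + 1)) < min μ1 μ2 := by
    intro i hi
    rw [dist_comm, Real.dist_eq, abs_of_nonneg (by linarith [humono i hi])]
    exact hustep i hi
  -- the lift
  obtain ⟨x0, hx0, hodd⟩ := odd_lift F hQ s (z := Fp p (c t')) (hz1 t' hmt')
  obtain ⟨x, hxx0, hxPi, hxd⟩ := lift_chain F.toCov3 hQ (N := N) (z := fun i => Fp p (c (u i)))
    (fun i hi => hz1 _ (hum i hi)) (x0 := x0) (by rw [hx0, hu0])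
  have hcost : cost d N (fun i => (v i, x i)) =
      ∑ i ∈ Finset.range N, dist ((Q ∘ Fp p ∘ c) (u i)) ((Q ∘ Fp p ∘ c) (u (i + 1))) := by
    unfold cost
    refine Finset.sum_congr rfl fun i hi => ?_
    exact hxd i (Finset.mem_range.1 hi)
  have hlen := length_le (Q ∘ Fp p ∘ c) ht'0 htt ht1 hV humono humem
  rw [← hcost] at hlen
  have e0 : (Q ∘ Fp p ∘ c) 0 = Q (cis (3 * s)) := by
    simp only [Function.comp_apply, h0, Fp_cis]
  have e1 : (Q ∘ Fp p ∘ c) 1 = Q (cis (3 * (s + Real.pi))) := by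
    simp only [Function.comp_apply, h1, Fp_cis]
  have et : (Q ∘ Fp p ∘ c) t = Q (Fp p (c t')) := by
    simp only [Function.comp_apply, hFeq]
  have et' : (Q ∘ Fp p ∘ c) t' = Q (Fp p (c t')) := rfl
  rw [e0, e1, et, et'] at hlen
  have hclosed : v N = v 0 := by
    rw [hvN, hv0]
    exact congrArg (cell h) hFeq
  refine ⟨N, fun i => (v i, x i), dist (Q (cis (3 * s))) (Q (Fp p (c t'))) +
    dist (Q (Fp p (c t'))) (Q (cis (3 * (s + Real.pi)))), ⟨⟨?_, ?_⟩, hclosed, ?_, ?_⟩, ?_⟩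
  · intro i hi
    show ‖Pi (x i) - zr h (v i)‖ ≤ 8 * h
    rw [hxPi i hi]
    exact hvnear i hi
  · intro i hi
    refine ⟨hvstep i hi, ?_⟩
    show d (x i) (x (i + 1)) ≤ η
    rw [hxd i hi]
    have := hu2 (u i) (hum i hi.le) (u (i + 1)) (hum (i + 1) hi)
      ((hud i hi).trans_le (min_le_right _ _))
    exact this.le
  · show Odd3 d r φ (x 0) _
    rw [hxx0]
    exact hodd
  · change _ ≤ V at hlen
    linarith
  · intro hw
    have hb : ∀ i ≤ N, ‖c (u i)‖ ≤ 1 := fun i hi => hc1 _ (hum i hi)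
    -- the chain in the model cover
    let b : ℕ → (ℤ × ℤ) × Dw := fun i => (v i, if hi : i ≤ N then ⟨c (u i), hb i hi⟩ else ⟨0, by simp⟩)
    have hbv : ∀ i ≤ N, ((b i).2 : ℂ) = c (u i) := by
      intro i hi
      simp only [b, hi, dite_true]
    have hArc : Arc (fun x y : Dw => dist x.1 y.1) (fun w : Dw => Fp p w.1) h η1 N b := by
      constructor
      · intro i hi
        show ‖Fp p ((b i).2 : ℂ) - zr h (v i)‖ ≤ 8 * h
        rw [hbv i hi]
        exact hvnear i hi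
      · intro i hi
        refine ⟨hvstep i hi, ?_⟩
        show dist ((b i).2 : ℂ) ((b (i + 1)).2 : ℂ) ≤ η1
        rw [hbv i hi.le, hbv (i + 1) hi]
        exact (hu1 (u i) (hum i hi.le) (u (i + 1)) (hum (i + 1) hi)
          ((hud i hi).trans_le (min_le_left _ _))).le
    have hfar : ∀ i ≤ N, ∀ q ∈ ({p} : Finset ℂ), (1 - ‖p‖) * ρ ^ 3 ≤ ‖Fp p ((b i).2 : ℂ) - q‖ := by
      intro i hi q hq
      rw [Finset.mem_singleton] at hq
      subst hq
      rw [hbv i hi]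
      refine le_trans ?_ (Fp_ne q (c (u i)))
      have := hρc (u i) (hum i hi)
      gcongr
    have key := he N b hArc hfar (by show v N = v 0; exact hclosed)
    have hsum : ∑ q ∈ ({p} : Finset ℂ), e q * wind N (fun i => (b i).1) (cell h q) = 0 := by
      rw [Finset.sum_singleton]
      have : wind N (fun i => (b i).1) (cell h p) = 0 := hw
      rw [this, mul_zero]
    rw [hsum, act_zero] at key
    rw [hbv N le_rfl, hbv 0 (Nat.zero_le N), hu0, huN, dist_eq_norm] at key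
    have hkey2 : ρ ≤ ‖c t - c t'‖ := by
      rcases hcross with e | e
      · rw [e]
        have : om * c t' - c t' = (om - 1) * c t' := by ring
        rw [this, norm_mul]
        have h3 := hρc t' hmt'
        nlinarith [om_sub, norm_nonneg (c t')]
      · rw [e]
        have : c t - om * c t = -((om - 1) * c t) := by ring
        rw [this, norm_neg, norm_mul]
        have h3 := hρc t hmt
        nlinarith [om_sub, norm_nonneg (c t)]
    linarith

end Pool.Agent.TRG
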