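import Mathlib
import Pool.Agent.TRG.Defs
import Pool.Agent.TRG.ACT
import Pool.Agent.MIR.SLip
import Pool.Agent.MIR.Metr

/-
MCV: the surface satisfies the combinatorial hypotheses.  (150 lines)
PROOF. d = md r. (0) MIR smooth_lip gives L with r L-Lipschitz; so md r x y <= C dist x y, C = (1 + L + L^2)/3; and dist x y <= 3 md r x y. md r (r x) (r y) = md r x y by cube.
refl, symm, tri: from dist. proj: hD.fibre x (r x). surj: hD.ran. inner: hD.inner. bdry: hD.bdry and cis (3 t) = exp (3 t I) (push_cast).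
lift: hD.lip gives K, z with Pi z = Pi y (so z is y, r y or r (r y), i.e. act r j y) and dist x z <= K |Pi x - Pi y|; md r x z <= C K |Pi x - Pi y| < eps if |Pi x - Pi y| < del = eps/(C |K| + 1).
free: for R > 0 the set A = {x | for all p in P, R <= |Pi x - p|} is compact (closed in a compact space) and x -> dist x (r x) is continuous and positive on A (hD.fixed: r x = x would give Pi x in P, R <= 0);
 so it has a positive lower bound m on A (if A is empty take 1), md r x (r x) >= m/3.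
antip: each of dist (phi a) (phi (a + pi)) = pi (hphi.dist_eq, MIR metr_circle), and r (phi t) = phi (t + 2 pi/3): md = pi. lip: dist (phi a) (phi b) = |(a - b)| <= |a - b|.
rot: hr.bdry. far: for p in P choose x_p with Pi x_p = p (surj, |p| < 1), r x_p = x_p (hD.fixed). hD.lip x x_p: z with Pi z = p, so r z = z, and dist x z <= K |Pi x - p|. md r x (r x) <= md r x z + md r z (r x)
 = md r x z + md r (r z) (r x) = 2 md r x z <= 2 C |K| |Pi x - p|. So R = del/(2 C |K| + 1) (then R <= |Pi x - p| whenever del <= md r x (r x)).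
fix_pt: surj and hD.fixed.
Q_lip: x, y over z, z' (surj): dist (Q z) (Q z') = qd (md r) r x y <= md r x (act j y) <= C K |z - z'|, with act j y the point z of hD.lip (so for K' = C |K|).
-/

open MeasureTheory Set Filter Topology Manifold
open scoped ENNReal NNReal ContDiff
open Pool.Agent.MIR (cis cp hol Jw Pic Tan PL ip gd)
open Pool.Agent.H74.Surf

noncomputable section

namespace Pool.Agent.TRG

variable {M : Type} [MetricSpace M] [ChartedSpace (EuclideanHalfSpace 2) M]
  [R : RiemannianSpace (𝓡∂ 2) M]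

private theorem mcv_le_md (r : M → M) (x y : M) : dist x y ≤ 3 * md r x y := by
  unfold md
  have h1 : 0 ≤ dist (r x) (r y) := dist_nonneg
  have h2 : 0 ≤ dist (r (r x)) (r (r y)) := dist_nonneg
  linarith

private theorem mcv_md_nonneg (r : M → M) (x y : M) : 0 ≤ md r x y := by
  have := mcv_le_md r x y
  have h1 : 0 ≤ dist x y := dist_nonneg
  linarith

private theorem mcv_md_le [CompactSpace M] {φ : S1 → M} {r : M → M} (hr : CRot φ r) :
    ∃ C : ℝ, 0 < C ∧ ∀ x y, md r x y ≤ C * dist x y := by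
  obtain ⟨L, hL⟩ := Pool.Agent.MIR.smooth_lip hr.smooth
  refine ⟨(1 + L + L ^ 2) / 3, by positivity, fun x y => ?_⟩
  have h1 : dist (r x) (r y) ≤ L * dist x y := hL.dist_le_mul x y
  have h2 : dist (r (r x)) (r (r y)) ≤ L * dist (r x) (r y) := hL.dist_le_mul _ _
  have h3 : (L : ℝ) * dist (r x) (r y) ≤ L * (L * dist x y) :=
    mul_le_mul_of_nonneg_left h1 L.2
  unfold md
  have h4 : (1 + (L : ℝ) + L ^ 2) / 3 * dist x y =
      (dist x y + L * dist x y + L * (L * dist x y)) / 3 := by ring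
  rw [h4]
  linarith

private theorem mcv_cont_r {φ : S1 → M} {r : M → M} (hr : CRot φ r) : Continuous r :=
  hr.smooth.continuous

private theorem mcv_near {φ : S1 → M} {r : M → M} {P : Finset ℂ} {Pi : M → ℂ}
    (hD : DiscQ φ r P Pi) :
    ∃ K : ℝ, 0 ≤ K ∧ ∀ x y, ∃ j : ZMod 3, dist x (act r j y) ≤ K * ‖Pi x - Pi y‖ := by
  obtain ⟨K, hK⟩ := hD.lip
  refine ⟨|K|, abs_nonneg _, fun x y => ?_⟩
  obtain ⟨z, hz, hz2⟩ := hK x y
  have hle : dist x z ≤ |K| * ‖Pi x - Pi y‖ :=
    hz2.trans (mul_le_mul_of_nonneg_right (le_abs_self K) (norm_nonneg _))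
  rcases (hD.fibre y z).1 hz.symm with h | h | h
  · exact ⟨0, by rw [act_zero]; rw [h] at hle; exact hle⟩
  · exact ⟨1, by rw [act_one]; rw [h] at hle; exact hle⟩
  · exact ⟨2, by rw [act_two]; rw [h] at hle; exact hle⟩

private theorem mcv_proj {φ : S1 → M} {r : M → M} {P : Finset ℂ} {Pi : M → ℂ}
    (hD : DiscQ φ r P Pi) (x : M) : Pi (r x) = Pi x :=
  ((hD.fibre x (r x)).2 (Or.inr (Or.inl rfl))).symm

private theorem mcv_surj {φ : S1 → M} {r : M → M} {P : Finset ℂ} {Pi : M → ℂ}
    (hD : DiscQ φ r P Pi) (z : ℂ) (hz : ‖z‖ ≤ 1) : ∃ x, Pi x = z := by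
  have : z ∈ range Pi := by rw [hD.ran]; exact hz
  exact this

private theorem mcv_fix {φ : S1 → M} {r : M → M} {P : Finset ℂ} {Pi : M → ℂ}
    (hD : DiscQ φ r P Pi) :
    ∀ q ∈ P, ∃ x, Pi x = q ∧ r x = x := by
  intro q hq
  obtain ⟨x, hx⟩ := mcv_surj hD q (hD.inner q hq).le
  exact ⟨x, hx, (hD.fixed x).2 (by rw [hx]; exact hq)⟩

private theorem mcv_dist_phi {φ : S1 → M} (hφ : IsometricFilling (𝓡∂ 2) φ) (a : ℝ) :
    dist (φ ((a : ℝ) : S1)) (φ ((a + Real.pi : ℝ) : S1)) = Real.pi := by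
  rw [hφ.dist_eq, Pool.Agent.MIR.metr_circle]
  · rw [sub_add_cancel_left, abs_neg, abs_of_pos Real.pi_pos]
  · rw [sub_add_cancel_left, abs_neg, abs_of_pos Real.pi_pos]

private theorem mcv_dist_phi_le {φ : S1 → M} (hφ : IsometricFilling (𝓡∂ 2) φ) (a b : ℝ) :
    dist (φ ((a : ℝ) : S1)) (φ ((b : ℝ) : S1)) ≤ |a - b| := by
  rw [hφ.dist_eq, dist_eq_norm, ← AddCircle.coe_sub]
  exact QuotientAddGroup.norm_mk_le_norm

theorem fill_M [CompactSpace M] {φ : S1 → M} (hφ : IsometricFilling (𝓡∂ 2) φ) {r : M → M}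
    {P : Finset ℂ} {Pi : M → ℂ} (hr : CRot φ r) (hD : DiscQ φ r P Pi) :
    Fill (md r) r Pi P (fun t : ℝ => φ (t : S1)) := by
  obtain ⟨C, hC0, hC⟩ := mcv_md_le hr
  obtain ⟨K, hK0, hK⟩ := mcv_near hD
  have hsymm : ∀ x y, md r x y = md r y x := by
    intro x y
    unfold md
    rw [dist_comm x y, dist_comm (r x) (r y), dist_comm (r (r x)) (r (r y))]
  have htri : ∀ x y z, md r x z ≤ md r x y + md r y z := by
    intro x y z
    unfold md
    have h1 := dist_triangle x y z
    have h2 := dist_triangle (r x) (r y) (r z)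
    have h3 := dist_triangle (r (r x)) (r (r y)) (r (r z))
    linarith
  have hinv : ∀ x y, md r (r x) (r y) = md r x y := by
    intro x y
    unfold md
    rw [hr.cube, hr.cube]
    ring
  have hcr := mcv_cont_r hr
  refine
    { refl := fun x => by unfold md; simp
      symm := hsymm
      tri := htri
      inv := hinv
      cube := hr.cube
      proj := mcv_proj hD
      surj := mcv_surj hD
      lift := ?_
      free := ?_
      inner := hD.inner
      antip := ?_
      lip := ?_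
      rot := hr.bdry
      bdry := ?_
      far := ?_ }
  · intro ε hε
    refine ⟨ε / (C * K + 1), by positivity, fun x y hxy => ?_⟩
    obtain ⟨j, hj⟩ := hK x y
    refine ⟨j, ?_⟩
    have h1 : md r x (act r j y) ≤ C * (K * ‖Pi x - Pi y‖) :=
      (hC _ _).trans (mul_le_mul_of_nonneg_left hj hC0.le)
    rw [lt_div_iff₀ (by positivity)] at hxy
    have h2 : 0 ≤ ‖Pi x - Pi y‖ := norm_nonneg _
    nlinarith
  · intro R hR
    set A : Set M := {x | ∀ p ∈ P, R ≤ ‖Pi x - p‖} with hA
    have hAc : IsClosed A := by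
      have : A = ⋂ p ∈ P, {x | R ≤ ‖Pi x - p‖} := by
        ext x; simp [hA]
      rw [this]
      exact isClosed_biInter fun p _ =>
        isClosed_le continuous_const ((hD.cont.sub continuous_const).norm)
    rcases A.eq_empty_or_nonempty with hE | hN
    · refine ⟨1, one_pos, fun x hx => ?_⟩
      have : x ∈ A := hx
      rw [hE] at this
      exact absurd this (Set.notMem_empty x)
    · obtain ⟨x0, hx0, hmin⟩ := hAc.isCompact.exists_isMinOn hN
        (f := fun x => dist x (r x)) (continuous_id.dist hcr).continuousOn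
      have hpos : 0 < dist x0 (r x0) := by
        rw [dist_pos]
        intro h
        have h2 : Pi x0 ∈ P := (hD.fixed x0).1 h.symm
        have h3 := hx0 (Pi x0) h2
        rw [sub_self, norm_zero] at h3
        linarith
      refine ⟨dist x0 (r x0) / 3, by positivity, fun x hx => ?_⟩
      have h1 : dist x0 (r x0) ≤ dist x (r x) := hmin hx
      have h2 := mcv_le_md r x (r x)
      linarith
  · intro t
    have e1 : r (φ ((t + Real.pi : ℝ) : S1)) =
        φ (((t + 2 * Real.pi / 3) + Real.pi : ℝ) : S1) := by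
      rw [hr.bdry]
      congr 2
      ring
    have e2 : r (r (φ ((t : ℝ) : S1))) = φ (((t + 2 * Real.pi / 3) + 2 * Real.pi / 3 : ℝ) : S1) := by
      rw [hr.bdry, hr.bdry]
    have e3 : r (r (φ ((t + Real.pi : ℝ) : S1))) =
        φ ((((t + 2 * Real.pi / 3) + 2 * Real.pi / 3) + Real.pi : ℝ) : S1) := by
      rw [e1, hr.bdry]
      congr 2
      ring
    show Real.pi ≤ md r (φ ((t : ℝ) : S1)) (φ ((t + Real.pi : ℝ) : S1))
    unfold md
    rw [e2, e3, e1, hr.bdry t, mcv_dist_phi hφ, mcv_dist_phi hφ, mcv_dist_phi hφ]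
    linarith
  · intro s t
    show md r (φ ((s : ℝ) : S1)) (φ ((t : ℝ) : S1)) ≤ |s - t|
    unfold md
    rw [hr.bdry s, hr.bdry t, hr.bdry, hr.bdry]
    have h1 := mcv_dist_phi_le hφ s t
    have h2 := mcv_dist_phi_le hφ (s + 2 * Real.pi / 3) (t + 2 * Real.pi / 3)
    have h3 := mcv_dist_phi_le hφ (s + 2 * Real.pi / 3 + 2 * Real.pi / 3)
      (t + 2 * Real.pi / 3 + 2 * Real.pi / 3)
    rw [add_sub_add_right_eq_sub] at h2
    rw [add_sub_add_right_eq_sub, add_sub_add_right_eq_sub] at h3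
    linarith
  · intro t
    show Pi (φ ((t : ℝ) : S1)) = cis (3 * t)
    rw [hD.bdry]
    unfold Pool.Agent.MIR.cis
    push_cast
    rfl
  · intro δ hδ
    refine ⟨δ / (2 * C * K + 1), by positivity, fun x hx p hp => ?_⟩
    obtain ⟨xp, hxp, hfix⟩ := mcv_fix hD p hp
    obtain ⟨j, hj⟩ := hK x xp
    have hact : act r j xp = xp := by
      unfold act
      exact Function.iterate_fixed hfix _
    rw [hact, hxp] at hj
    have h1 : md r x (r x) ≤ md r x xp + md r xp (r x) := htri _ _ _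
    have h2 : md r xp (r x) = md r xp x := by
      conv_lhs => rw [← hfix]
      exact hinv _ _
    have h3 : md r x xp ≤ C * (K * ‖Pi x - p‖) :=
      (hC _ _).trans (mul_le_mul_of_nonneg_left hj hC0.le)
    rw [h2, hsymm xp x] at h1
    rw [div_le_iff₀ (by positivity)]
    have h4 : 0 ≤ ‖Pi x - p‖ := norm_nonneg _
    nlinarith

theorem fix_pt {φ : S1 → M} {r : M → M} {P : Finset ℂ} {Pi : M → ℂ} (hD : DiscQ φ r P Pi) :
    ∀ q ∈ P, ∃ x, Pi x = q ∧ r x = x := mcv_fix hD

theorem Q_lip [CompactSpace M] {φ : S1 → M} {r : M → M} {P : Finset ℂ} {Pi : M → ℂ}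
    (hr : CRot φ r) (hD : DiscQ φ r P Pi) {Y : Type} [MetricSpace Y] {Q : ℂ → Y}
    (hQ : ∀ x y, dist (Q (Pi x)) (Q (Pi y)) = qd (md r) r x y) :
    ∃ K : ℝ≥0, LipschitzOnWith K Q (Metric.closedBall 0 1) := by
  obtain ⟨C, hC0, hC⟩ := mcv_md_le hr
  obtain ⟨K, hK0, hK⟩ := mcv_near hD
  refine ⟨⟨C * K, by positivity⟩, LipschitzOnWith.of_dist_le_mul fun z hz w hw => ?_⟩
  rw [mem_closedBall_zero_iff] at hz hw
  obtain ⟨x, rfl⟩ := mcv_surj hD z hz
  obtain ⟨y, rfl⟩ := mcv_surj hD w hw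
  obtain ⟨j, hj⟩ := hK x y
  have h1 : qd (md r) r x y ≤ md r x (act r j y) := by
    unfold qd
    fin_cases j
    · rw [show act r ((fun i => i) ⟨0, by decide⟩ : ZMod 3) y = act r 0 y from rfl, act_zero]
      exact min_le_left _ _
    · rw [show act r ((fun i => i) ⟨1, by decide⟩ : ZMod 3) y = act r 1 y from rfl, act_one]
      exact (min_le_right _ _).trans (min_le_left _ _)
    · rw [show act r ((fun i => i) ⟨2, by decide⟩ : ZMod 3) y = act r 2 y from rfl, act_two]
      exact (min_le_right _ _).trans (min_le_right _ _)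
  have h2 : md r x (act r j y) ≤ C * (K * ‖Pi x - Pi y‖) :=
    (hC _ _).trans (mul_le_mul_of_nonneg_left hj hC0.le)
  rw [hQ, dist_eq_norm]
  calc qd (md r) r x y ≤ C * (K * ‖Pi x - Pi y‖) := h1.trans h2
    _ = C * K * ‖Pi x - Pi y‖ := by ring

end Pool.Agent.TRG
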