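import Mathlib
import Pool.Agent.TRG.Defs
import Pool.Agent.MIR.Core
import Pool.Agent.MIR.Disc
import Pool.Agent.MIR.Out
import Pool.Agent.MIR.Point
import Pool.Agent.MIR.StarG
import Pool.Agent.MIR.Basic

/-
CDC: the filling area inequality for metrics on the closed disc.  (150 lines; adapt the proof of MIR core in Pool/Agent/MIR/Core.lean, without holes and without the doubling)
PROOF. S = closedBall 0 1. For M >= 2 (a number of points) let f i be a Lipschitz extension to the plane (LipschitzOnWith.extend_real, constant C) of q -> d (cis (2 pi i/M)) q on S (Lipschitz by P.abs_sub_le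
 and hLip), i : Nat. Sf z = sum_{i < M} Jw (f i) (f (i+1)) z.
 (1) integral over ball 0 1 of Sf = 4 pi^2 - 8 pi^2/M by disc_stokes (c = 0, R = 1), out_sum and f i (cis t) = |(2 pi i/M - t : AddCircle)| (hcirc).
 (2) for a.e. z in ball 0 1 (all f i differentiable at z: Rademacher LipschitzWith.ae_differentiableAt; z not in Z): |Sf z| <= 2 pi |cp (T z 1) (T z I)|: if T z is injective this is MIR point
     (S is a neighbourhood of z, hf: f i equals d (cis ..) near z); otherwise cp (T z 1) (T z I) = 0 and every Jw vanishes by star_grad and jw_zero. This is the private lemma core_point of Core.lean: copy it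
     together with core_measurable_Jw, core_abs_Jw_le, core_integrableOn (rename them).
 (3) so ofReal (4 pi^2 - 8 pi^2/M) <= ofReal (2 pi) * integral over ball 0 1 of ofReal |cp (T 1) (T I)| (enorm_integral_le_lintegral_enorm). M -> infinity as in the proof of core: 2 pi <= integral.
-/

open MeasureTheory Set Filter Topology Manifold
open scoped ENNReal NNReal ContDiff
open Pool.Agent.MIR (cis cp hol Jw Pic Tan PL ip gd)
open Pool.Agent.H74.Surf

noncomputable section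

namespace Pool.Agent.TRG

private lemma cdc_point {N : ℂ → ℂ → Prop} {S : Set ℂ} {D : ℂ → ℂ → ℝ} (P : Pic S D N) {p : ℂ} (hp : S ∈ 𝓝 p)
    (hp1 : ‖p‖ < 1) {T : ℂ →L[ℝ] ℂ} (hTi : (∀ v, T v = 0 → v = 0) → Tan D p T)
    {E : ℂ → ℂ → ℝ} (hE : Tan E p T) (hDE : ∀ᶠ q in 𝓝 p, D p q ≤ E p q) {M : ℕ} (hM : 0 < M)
    {f : ℕ → ℂ → ℝ} (hz : ∀ i : ℕ, cis (2 * Real.pi * i / M) ∈ S)
    (hf : ∀ i : ℕ, f i =ᶠ[𝓝 p] fun q => D (cis (2 * Real.pi * i / M)) q)
    (hdiff : ∀ i, DifferentiableAt ℝ (f i) p) :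
    |∑ i ∈ Finset.range M, Jw (f i) (f (i + 1)) p| ≤
      2 * Real.pi * |cp (T 1) (T Complex.I)| := by
  by_cases hinj : ∀ v, T v = 0 → v = 0
  · exact Pool.Agent.MIR.point P hp hp1 hinj (hTi hinj) hM hz hf hdiff
  · push Not at hinj
    obtain ⟨v, hv, hv0⟩ := hinj
    have hTv : T v = v.re • T 1 + v.im • T Complex.I := by
      rw [← map_smul, ← map_smul, ← map_add]
      congr 1
      apply Complex.ext <;> simp
    have hre : v.re * (T 1).re + v.im * (T Complex.I).re = 0 := by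
      have := congrArg Complex.re (hTv.symm.trans hv)
      simpa using this
    have him : v.re * (T 1).im + v.im * (T Complex.I).im = 0 := by
      have := congrArg Complex.im (hTv.symm.trans hv)
      simpa using this
    have hcp : cp (T 1) (T Complex.I) = 0 := by
      unfold cp
      by_cases h : v.re = 0
      · have h' : v.im ≠ 0 := fun h' => hv0 (Complex.ext h h')
        have h1 : v.im * ((T 1).re * (T Complex.I).im - (T 1).im * (T Complex.I).re) = 0 := by
          linear_combination (T 1).re * him - (T 1).im * hre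
        exact (mul_eq_zero.1 h1).resolve_left h'
      · have h1 : v.re * ((T 1).re * (T Complex.I).im - (T 1).im * (T Complex.I).re) = 0 := by
          linear_combination (T Complex.I).im * hre - (T Complex.I).re * him
        exact (mul_eq_zero.1 h1).resolve_left h
    have hpS : p ∈ S := mem_of_mem_nhds hp
    have hg : ∀ i, ∀ w, |fderiv ℝ (f i) p w| ≤ ‖T w‖ := by
      intro i w
      refine Pool.Agent.MIR.star_grad hE ?_ (hdiff i).hasFDerivAt w
      filter_upwards [hf i, hDE, hp] with q hq hq2 hqS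
      rw [hq, (hf i).self_of_nhds]
      have h1 := P.abs_sub_le (hz i) hqS hpS
      rw [P.symm q hqS p hpS] at h1
      exact h1.trans hq2
    have h0 : ∑ i ∈ Finset.range M, Jw (f i) (f (i + 1)) p = 0 :=
      Finset.sum_eq_zero fun i _ => Pool.Agent.MIR.jw_zero hcp (hg i) (hg (i + 1))
    rw [h0, hcp]
    simp

private lemma cdc_measurable_Jw (f g : ℂ → ℝ) : Measurable (Jw f g) := by
  unfold Jw
  exact ((measurable_fderiv_apply_const ℝ f 1).mul
    (measurable_fderiv_apply_const ℝ g Complex.I)).sub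
    ((measurable_fderiv_apply_const ℝ f Complex.I).mul (measurable_fderiv_apply_const ℝ g 1))

private lemma cdc_abs_Jw_le {f g : ℂ → ℝ} {K : ℝ≥0} (hf : LipschitzWith K f)
    (hg : LipschitzWith K g) (z : ℂ) : ‖Jw f g z‖ ≤ 2 * (K : ℝ) ^ 2 := by
  have hb : ∀ {h : ℂ → ℝ}, LipschitzWith K h → ∀ v : ℂ, ‖v‖ = 1 → |fderiv ℝ h z v| ≤ K := by
    intro h hh v hv
    have h1 := (fderiv ℝ h z).le_opNorm v
    have h2 := norm_fderiv_le_of_lipschitz ℝ (x₀ := z) hh
    rw [hv, mul_one, Real.norm_eq_abs] at h1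
    exact h1.trans h2
  unfold Jw
  rw [Real.norm_eq_abs]
  have a1 := hb hf 1 (by simp)
  have a2 := hb hg Complex.I (by simp)
  have a3 := hb hf Complex.I (by simp)
  have a4 := hb hg 1 (by simp)
  have e1 : |fderiv ℝ f z 1 * fderiv ℝ g z Complex.I| ≤ (K : ℝ) * K := by
    rw [abs_mul]; exact mul_le_mul a1 a2 (abs_nonneg _) K.2
  have e2 : |fderiv ℝ f z Complex.I * fderiv ℝ g z 1| ≤ (K : ℝ) * K := by
    rw [abs_mul]; exact mul_le_mul a3 a4 (abs_nonneg _) K.2
  have := abs_sub (fderiv ℝ f z 1 * fderiv ℝ g z Complex.I)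
    (fderiv ℝ f z Complex.I * fderiv ℝ g z 1)
  nlinarith

private lemma cdc_integrableOn {f g : ℂ → ℝ} {K : ℝ≥0} (hf : LipschitzWith K f)
    (hg : LipschitzWith K g) (x : ℂ) (R : ℝ) : IntegrableOn (Jw f g) (Metric.ball x R) := by
  refine Measure.integrableOn_of_bounded (M := 2 * (K : ℝ) ^ 2) ?_
    (cdc_measurable_Jw f g).aestronglyMeasurable
    (Eventually.of_forall fun z => cdc_abs_Jw_le hf hg z)
  exact measure_ball_lt_top.ne

private lemma cdc_aux {d : ℂ → ℂ → ℝ} {C : ℝ} (hC : 0 ≤ C)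
    (P : Pic (Metric.closedBall 0 1) d (fun x u => x = u ∧ u ∈ Metric.closedBall (0 : ℂ) 1))
    (hcirc : ∀ s t : ℝ, d (cis s) (cis t) = ‖((s - t : ℝ) : AddCircle (2 * Real.pi))‖)
    (hLip : ∀ p ∈ Metric.closedBall (0 : ℂ) 1, ∀ q ∈ Metric.closedBall (0 : ℂ) 1,
      d p q ≤ C * ‖p - q‖) (T : ℂ → ℂ →L[ℝ] ℂ) {Z : Set ℂ} (hZ : volume Z = 0)
    (hT : ∀ p, ‖p‖ < 1 → p ∉ Z → Tan d p (T p)) {M : ℕ} (hM : 2 ≤ M) :
    ENNReal.ofReal (4 * Real.pi ^ 2 - 8 * Real.pi ^ 2 / M) ≤
      ENNReal.ofReal (2 * Real.pi) *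
        ∫⁻ p in Metric.ball (0 : ℂ) 1, ENNReal.ofReal |cp (T p 1) (T p Complex.I)| := by
  have hcis : ∀ t, cis t ∈ Metric.closedBall (0 : ℂ) 1 := fun t => by
    rw [mem_closedBall_zero_iff, Pool.Agent.MIR.norm_cis]
  have hext : ∀ i : ℕ, ∃ g : ℂ → ℝ, LipschitzWith ⟨C, hC⟩ g ∧
      EqOn (fun q => d (cis (2 * Real.pi * i / M)) q) g (Metric.closedBall 0 1) := by
    intro i
    have h1 : LipschitzOnWith ⟨C, hC⟩ (fun q => d (cis (2 * Real.pi * i / M)) q)
        (Metric.closedBall (0 : ℂ) 1) := by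
      apply LipschitzOnWith.of_dist_le_mul
      intro p hp q hq
      rw [Real.dist_eq, dist_eq_norm]
      exact (P.abs_sub_le (hcis _) hp hq).trans (hLip p hp q hq)
    exact h1.extend_real
  choose f hf hfe using hext
  set S : ℂ → ℝ := fun z => ∑ i ∈ Finset.range M, Jw (f i) (f (i + 1)) z with hS
  have hint : ∀ i x R, IntegrableOn (Jw (f i) (f (i + 1))) (Metric.ball x R) :=
    fun i x R => cdc_integrableOn (hf i) (hf (i + 1)) x R
  have hout : ∫ z in Metric.ball (0 : ℂ) 1, S z =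
      4 * Real.pi ^ 2 - 8 * Real.pi ^ 2 / M := by
    rw [← Pool.Agent.MIR.out_sum hM]
    simp only [hS]
    rw [integral_finsetSum _ (fun i _ => hint i _ _)]
    refine Finset.sum_congr rfl fun i _ => ?_
    rw [Pool.Agent.MIR.disc_stokes (hf i) (hf (i + 1)) 0 one_pos]
    have h0 : ∀ (i : ℕ) (t : ℝ), f i (hol 0 1 t) =
        ‖((2 * Real.pi * i / M - t : ℝ) : AddCircle (2 * Real.pi))‖ := by
      intro i t
      have h1 : hol 0 1 t = cis t := by simp [hol]
      rw [h1, ← hfe i (hcis t)]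
      exact hcirc _ _
    simp only [h0]
  have hMpos : 0 < M := by omega
  have hpt : ∀ p ∈ Metric.ball (0 : ℂ) 1, p ∉ Z → (∀ i, DifferentiableAt ℝ (f i) p) →
      |S p| ≤ 2 * Real.pi * |cp (T p 1) (T p Complex.I)| := by
    intro p hp hpZ hdiff
    have hp1 : ‖p‖ < 1 := mem_ball_zero_iff.1 hp
    have hnb : Metric.closedBall (0 : ℂ) 1 ∈ 𝓝 p :=
      mem_of_superset (Metric.isOpen_ball.mem_nhds hp) Metric.ball_subset_closedBall
    refine cdc_point P hnb hp1 (fun _ => hT p hp1 hpZ) (hT p hp1 hpZ)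
      (Eventually.of_forall fun q => le_rfl) hMpos (fun i => hcis _) ?_ hdiff
    intro i
    filter_upwards [hnb] with q hq
    exact (hfe i hq).symm
  have hae : ∀ᵐ z : ℂ, ∀ i, DifferentiableAt ℝ (f i) z :=
    ae_all_iff.2 fun i => (hf i).ae_differentiableAt
  have hae2 : ∀ᵐ z : ℂ, z ∉ Z := measure_eq_zero_iff_ae_notMem.1 hZ
  have hrest : ∫⁻ z in Metric.ball (0 : ℂ) 1, ‖S z‖ₑ ≤ ENNReal.ofReal (2 * Real.pi) *
      ∫⁻ p in Metric.ball (0 : ℂ) 1, ENNReal.ofReal |cp (T p 1) (T p Complex.I)| := by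
    rw [← lintegral_const_mul' _ _ ENNReal.ofReal_ne_top]
    refine lintegral_mono_ae ?_
    filter_upwards [ae_restrict_of_ae hae, ae_restrict_of_ae hae2,
      ae_restrict_mem Metric.isOpen_ball.measurableSet] with p h1 h2 h3
    rw [Real.enorm_eq_ofReal_abs, ← ENNReal.ofReal_mul (by positivity)]
    exact ENNReal.ofReal_le_ofReal (hpt p h3 h2 h1)
  rw [← hout]
  refine (ENNReal.ofReal_le_ofReal (le_abs_self _)).trans ?_
  rw [← Real.enorm_eq_ofReal_abs]
  exact (enorm_integral_le_lintegral_enorm _).trans hrest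

theorem core_disc {d : ℂ → ℂ → ℝ} {C : ℝ} (hC : 0 ≤ C)
    (P : Pic (Metric.closedBall 0 1) d (fun x u => x = u ∧ u ∈ Metric.closedBall (0 : ℂ) 1))
    (hcirc : ∀ s t : ℝ, d (cis s) (cis t) = ‖((s - t : ℝ) : AddCircle (2 * Real.pi))‖)
    (hLip : ∀ p ∈ Metric.closedBall (0 : ℂ) 1, ∀ q ∈ Metric.closedBall (0 : ℂ) 1,
      d p q ≤ C * ‖p - q‖) (T : ℂ → ℂ →L[ℝ] ℂ) {Z : Set ℂ} (hZ : volume Z = 0)
    (hT : ∀ p, ‖p‖ < 1 → p ∉ Z → Tan d p (T p)) :
    ENNReal.ofReal (2 * Real.pi) ≤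
      ∫⁻ p in Metric.ball (0 : ℂ) 1, ENNReal.ofReal |cp (T p 1) (T p Complex.I)| := by
  by_contra hcon
  rw [not_le] at hcon
  have haux := fun (M : ℕ) (hM : 2 ≤ M) => cdc_aux hC P hcirc hLip T hZ hT hM
  generalize ∫⁻ p in Metric.ball (0 : ℂ) 1, ENNReal.ofReal |cp (T p 1) (T p Complex.I)| = J
    at hcon haux
  have hJ : J ≠ ⊤ := ne_top_of_lt hcon
  obtain ⟨x, hx0, rfl⟩ : ∃ x : ℝ, 0 ≤ x ∧ J = ENNReal.ofReal x :=
    ⟨J.toReal, ENNReal.toReal_nonneg, (ENNReal.ofReal_toReal hJ).symm⟩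
  have hpi := Real.pi_pos
  have hxpi : x < 2 * Real.pi := (ENNReal.ofReal_lt_ofReal_iff (by positivity)).1 hcon
  have hreal : ∀ (M : ℕ) (_ : 2 ≤ M),
      4 * Real.pi ^ 2 - 8 * Real.pi ^ 2 / M ≤ 2 * Real.pi * x := by
    intro M hM
    have h1 := haux M hM
    rw [← ENNReal.ofReal_mul (by positivity)] at h1
    exact (ENNReal.ofReal_le_ofReal_iff (by positivity)).1 h1
  have hδ : 0 < 2 * Real.pi - x := by linarith
  obtain ⟨M, hM⟩ := exists_nat_gt (max 2 (4 * Real.pi / (2 * Real.pi - x)))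
  have hM2 : (2 : ℝ) < M := (le_max_left _ _).trans_lt hM
  have hM3 : 4 * Real.pi / (2 * Real.pi - x) < M := (le_max_right _ _).trans_lt hM
  have hM2' : 2 ≤ M := by exact_mod_cast hM2.le
  have hMpos : (0 : ℝ) < M := by linarith
  have h1 := hreal M hM2'
  have h3 : 8 * Real.pi ^ 2 / M < 2 * Real.pi * (2 * Real.pi - x) := by
    rw [div_lt_iff₀ hMpos]
    rw [div_lt_iff₀ hδ] at hM3
    nlinarith
  nlinarith

end Pool.Agent.TRG
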