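import Mathlib
import Pool.Agent.TRG.Defs
import Pool.Agent.MIR.Pl
import Pool.Agent.MIR.Basic

/-
PLD: the length metric of Psi on the closed unit disc.  (120 lines; compare Pool/Agent/MIR/Metr.lean: metr_lip, metr_half, metr_tan)
PROOF. pl_disc_lip: the segment from p to q lies in the closed disc (convex); pl_le with gamma t = p + t (q - p) on [0,1], K = K' = K |p - q|.
pl_disc_pic: refl pl_refl; symm pl_symm; tri pl_tri and toReal (finite by pl_disc_lip); geo pl_geo; near_*: trivial (copy from metr_half, Om replaced by the closed ball).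
pl_disc_tan: copy metr_tan (n' = n = |T .|, Psi' = Psi): up on a small ball gives PL <= (|T (q-p)| + eps |q-p|) by pl_le on the segment (homogeneity of n = |T .|), low and pl_ge give the lower bound.
-/

open MeasureTheory Set Filter Topology Manifold
open scoped ENNReal NNReal ContDiff
open Pool.Agent.MIR (cis cp hol Jw Pic Tan PL ip gd)
open Pool.Agent.H74.Surf

noncomputable section

namespace Pool.Agent.TRG

variable {Y : Type} [MetricSpace Y] {Ψ : ℂ → Y} {K : ℝ≥0}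

private theorem pld_mem {p q : ℂ} (hp : p ∈ Metric.closedBall (0 : ℂ) 1) (hq : q ∈ Metric.closedBall (0 : ℂ) 1)
    {t : ℝ} (ht : t ∈ Icc (0 : ℝ) 1) : p + (t : ℂ) * (q - p) ∈ Metric.closedBall (0 : ℂ) 1 := by
  have h := (convex_closedBall (0 : ℂ) 1).add_smul_sub_mem hp hq ht
  rwa [Complex.real_smul] at h

private theorem pld_diff (p q : ℂ) (u v : ℝ) :
    p + (u : ℂ) * (q - p) - (p + (v : ℂ) * (q - p)) = (u - v) • (q - p) := by
  rw [Complex.real_smul]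
  push_cast
  ring

theorem pl_disc_lip (hL : LipschitzOnWith K Ψ (Metric.closedBall 0 1)) :
    ∀ p ∈ Metric.closedBall (0 : ℂ) 1, ∀ q ∈ Metric.closedBall (0 : ℂ) 1,
      PL Ψ Ψ (Metric.closedBall 0 1) p q ≤ ENNReal.ofReal (K * ‖p - q‖) := by
  intro p hp q hq
  have hd : ∀ u ∈ Icc (0 : ℝ) 1, ∀ v ∈ Icc (0 : ℝ) 1,
      dist (Ψ (p + (u : ℂ) * (q - p))) (Ψ (p + (v : ℂ) * (q - p))) ≤ (K * ‖p - q‖) * |u - v| := by
    intro u hu v hv
    refine (hL.dist_le_mul _ (pld_mem hp hq hu) _ (pld_mem hp hq hv)).trans ?_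
    rw [dist_eq_norm, pld_diff, norm_smul, Real.norm_eq_abs, norm_sub_rev q p]
    exact le_of_eq (by ring)
  have h := Pool.Agent.MIR.pl_le Ψ Ψ (S := Metric.closedBall (0 : ℂ) 1)
    (γ := fun t : ℝ => p + (t : ℂ) * (q - p)) zero_le_one
    (by fun_prop) (fun t ht => pld_mem hp hq ht) (by positivity) (by positivity) hd hd
  simp only [Complex.ofReal_zero, zero_mul, add_zero, Complex.ofReal_one, one_mul,
    add_sub_cancel] at h
  refine h.trans (ENNReal.ofReal_le_ofReal (le_of_eq ?_))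
  ring

theorem pl_disc_pic (hL : LipschitzOnWith K Ψ (Metric.closedBall 0 1)) :
    Pic (Metric.closedBall 0 1) (fun p q => (PL Ψ Ψ (Metric.closedBall 0 1) p q).toReal)
      (fun x u => x = u ∧ u ∈ Metric.closedBall (0 : ℂ) 1) := by
  have hlip := pl_disc_lip hL
  have hfin : ∀ p ∈ Metric.closedBall (0 : ℂ) 1, ∀ q ∈ Metric.closedBall (0 : ℂ) 1,
      PL Ψ Ψ (Metric.closedBall 0 1) p q ≠ ⊤ := fun p hp q hq =>
    ne_top_of_le_ne_top ENNReal.ofReal_ne_top (hlip p hp q hq)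
  refine { refl := ?_, symm := ?_, tri := ?_, near_self := ?_, near_mem := ?_, near_eq := ?_,
           geo := ?_ }
  · intro p hp
    simp only [Pool.Agent.MIR.pl_refl Ψ Ψ hp, ENNReal.toReal_zero]
  · intro p _ q _
    simp only [Pool.Agent.MIR.pl_symm Ψ Ψ p q]
  · intro p hp q hq x hx
    rw [← ENNReal.toReal_add (hfin p hp q hq) (hfin q hq x hx)]
    exact ENNReal.toReal_mono (by simp [hfin p hp q hq, hfin q hq x hx])
      (Pool.Agent.MIR.pl_tri Ψ Ψ p q x)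
  · intro p hp
    exact ⟨rfl, hp⟩
  · rintro x u ⟨rfl, hu⟩
    exact ⟨hu, mem_closedBall_zero_iff.1 hu⟩
  · rintro x u v ⟨rfl, hu⟩ ⟨rfl, _⟩
    simp only [Pool.Agent.MIR.pl_refl Ψ Ψ hu, ENNReal.toReal_zero]
  · intro p hp q hq ε hε
    refine (Pool.Agent.MIR.pl_geo Ψ Ψ (hfin p hp q hq) hε).mono ?_
    rintro x ⟨hx, _, _, h⟩
    exact ⟨x, ⟨rfl, hx⟩, h⟩

theorem pl_disc_tan (hL : LipschitzOnWith K Ψ (Metric.closedBall 0 1)) {p : ℂ} (hp : ‖p‖ < 1)
    {T : ℂ →L[ℝ] ℂ} (hT : Infn Ψ p (fun v => ‖T v‖)) :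
    Tan (fun p q => (PL Ψ Ψ (Metric.closedBall 0 1) p q).toReal) p T := by
  have hlip := pl_disc_lip hL
  have hfin : ∀ p ∈ Metric.closedBall (0 : ℂ) 1, ∀ q ∈ Metric.closedBall (0 : ℂ) 1,
      PL Ψ Ψ (Metric.closedBall 0 1) p q ≠ ⊤ := fun p hp q hq =>
    ne_top_of_le_ne_top ENNReal.ofReal_ne_top (hlip p hp q hq)
  have hpO : Metric.closedBall (0 : ℂ) 1 ∈ 𝓝 p :=
    Filter.mem_of_superset (Metric.isOpen_ball.mem_nhds (mem_ball_zero_iff.2 hp))
      Metric.ball_subset_closedBall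
  rw [Tan, Asymptotics.isLittleO_iff]
  intro ε hε
  have hup2 := hT.up ε hε
  rw [nhds_prod_eq] at hup2
  obtain ⟨W, hW, hW2⟩ := Filter.mem_prod_self_iff.1 hup2
  obtain ⟨δ, hδ, hball⟩ := Metric.mem_nhds_iff.1 (inter_mem hpO hW)
  filter_upwards [Metric.ball_mem_nhds p hδ, hT.low ε hε] with q hq h1
  have hpm : p ∈ Metric.ball p δ := Metric.mem_ball_self hδ
  have hseg : ∀ t ∈ Icc (0 : ℝ) 1, p + (t : ℂ) * (q - p) ∈ Metric.ball p δ := by
    intro t ht
    rw [Metric.mem_ball, dist_eq_norm] at hq ⊢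
    rw [add_sub_cancel_left, norm_mul, Complex.norm_real, Real.norm_eq_abs, abs_of_nonneg ht.1]
    refine lt_of_le_of_lt ?_ hq
    exact mul_le_of_le_one_left (norm_nonneg _) ht.2
  have hd : ∀ u ∈ Icc (0 : ℝ) 1, ∀ v ∈ Icc (0 : ℝ) 1,
      dist (Ψ (p + (u : ℂ) * (q - p))) (Ψ (p + (v : ℂ) * (q - p))) ≤
        (‖T (q - p)‖ + ε * ‖q - p‖) * |u - v| := by
    intro u hu v hv
    have h3 : dist (Ψ (p + (u : ℂ) * (q - p))) (Ψ (p + (v : ℂ) * (q - p))) ≤
        ‖T (p + (u : ℂ) * (q - p) - (p + (v : ℂ) * (q - p)))‖ +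
          ε * ‖p + (u : ℂ) * (q - p) - (p + (v : ℂ) * (q - p))‖ :=
      hW2 (mk_mem_prod (hball (hseg u hu)).2 (hball (hseg v hv)).2)
    rw [pld_diff, map_smul, norm_smul, norm_smul, Real.norm_eq_abs] at h3
    refine h3.trans (le_of_eq ?_)
    ring
  have hup3 : PL Ψ Ψ (Metric.closedBall 0 1) p q ≤ ENNReal.ofReal
      (((‖T (q - p)‖ + ε * ‖q - p‖) + (‖T (q - p)‖ + ε * ‖q - p‖)) / 2 * (1 - 0)) := by
    have h := Pool.Agent.MIR.pl_le Ψ Ψ (S := Metric.closedBall (0 : ℂ) 1)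
      (γ := fun t : ℝ => p + (t : ℂ) * (q - p))
      (K := ‖T (q - p)‖ + ε * ‖q - p‖) (K' := ‖T (q - p)‖ + ε * ‖q - p‖) (zero_le_one (α := ℝ))
      (by fun_prop) (fun t ht => (hball (hseg t ht)).1)
      (by positivity) (by positivity) hd hd
    simpa using h
  have hup4 := ENNReal.toReal_mono ENNReal.ofReal_ne_top hup3
  have hnn : 0 ≤ ((‖T (q - p)‖ + ε * ‖q - p‖) + (‖T (q - p)‖ + ε * ‖q - p‖)) / 2 * (1 - 0) := by
    positivity
  rw [ENNReal.toReal_ofReal hnn] at hup4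
  have hge : (dist (Ψ p) (Ψ q) + dist (Ψ p) (Ψ q)) / 2 ≤
      (PL Ψ Ψ (Metric.closedBall 0 1) p q).toReal := by
    have h := ENNReal.toReal_mono (hfin p (hball hpm).1 q (hball hq).1)
      (Pool.Agent.MIR.pl_ge Ψ Ψ (S := Metric.closedBall (0 : ℂ) 1) p q)
    rwa [ENNReal.toReal_ofReal (by positivity)] at h
  rw [Real.norm_eq_abs, abs_le]
  constructor <;> linarith

end Pool.Agent.TRG
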