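import Mathlib
import Pool.Agent.TRG.Defs
import Pool.Agent.TRG.PLD
import Pool.Agent.TRG.CDC

/-
MDC: the filling area inequality for Lipschitz maps of the closed disc.  (30 lines)
PROOF. core_disc for d p q = (PL ..).toReal, C = K, P = pl_disc_pic hL, hcirc, hLip from pl_disc_lip (toReal_mono), hT from pl_disc_tan.
-/

open MeasureTheory Set Filter Topology Manifold
open scoped ENNReal NNReal ContDiff
open Pool.Agent.MIR (cis cp hol Jw Pic Tan PL ip gd)
open Pool.Agent.H74.Surf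

noncomputable section

namespace Pool.Agent.TRG

theorem metric_disc {Y : Type} [MetricSpace Y] {Ψ : ℂ → Y} {K : ℝ≥0}
    (hL : LipschitzOnWith K Ψ (Metric.closedBall 0 1))
    (hcirc : ∀ s t : ℝ, (PL Ψ Ψ (Metric.closedBall 0 1) (cis s) (cis t)).toReal =
      ‖((s - t : ℝ) : AddCircle (2 * Real.pi))‖)
    (T : ℂ → ℂ →L[ℝ] ℂ) {Z : Set ℂ} (hZ : volume Z = 0)
    (hT : ∀ w, ‖w‖ < 1 → w ∉ Z → Infn Ψ w (fun v => ‖T w v‖)) :
    ENNReal.ofReal (2 * Real.pi) ≤
      ∫⁻ w in Metric.ball (0 : ℂ) 1, ENNReal.ofReal |cp (T w 1) (T w Complex.I)| := by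
  refine core_disc (d := fun p q => (PL Ψ Ψ (Metric.closedBall 0 1) p q).toReal)
    (C := (K : ℝ)) K.coe_nonneg (pl_disc_pic hL) hcirc ?_ T hZ ?_
  · intro p hp q hq
    have h0 : (0 : ℝ) ≤ (K : ℝ) * ‖p - q‖ := mul_nonneg K.coe_nonneg (norm_nonneg _)
    have h := ENNReal.toReal_mono ENNReal.ofReal_ne_top (pl_disc_lip hL p hp q hq)
    rwa [ENNReal.toReal_ofReal h0] at h
  · intro p hp hpZ
    exact pl_disc_tan hL hp (hT p hp hpZ)

end Pool.Agent.TRG
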