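import Mathlib
import Pool.Agent.TRG.Defs

/-
QMP: the quotient metric space.  (70 lines)
PROOF. q = qd d r. (1) q x (r y) = q x y (cube: the three values are permuted), q (r x) y = q x y: d (r x) y = d (r (r x)) (r y) = d (r (r (r x))) (r (r y)) = d x (r (r y)), etc.
(2) q x x = 0 (q <= d x x = 0, q >= 0), q x y = q y x, q x z <= q x y + q y z: q x y = d x (r^i y), q y z = d y (r^j z), so
 q x z <= d x (r^(i+j) z) <= d x (r^i y) + d (r^i y) (r^(i+j) z) = q x y + q y z. (Nine cases, or with a general i.)
(3) Let X' be X with the pseudo-metric q (letI : PseudoMetricSpace X := { dist := q, ... }), Y = SeparationQuotient X (its MetricSpace instance), Q z = mk (a chosen x with Pi x = z if there is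
 one, else any point). For x : X the chosen point x' over Pi x satisfies Pi x = Pi x', so by hfib x' is x, r x or r (r x) and q x' y = q x y. dist (mk x) (mk y) = q x y.
-/

open MeasureTheory Set Filter Topology Manifold
open scoped ENNReal NNReal ContDiff
open Pool.Agent.MIR (cis cp hol Jw Pic Tan PL ip gd)
open Pool.Agent.H74.Surf

noncomputable section

namespace Pool.Agent.TRG

variable {X : Type} {d : X → X → ℝ} {r : X → X} {Pi : X → ℂ}

private theorem qmp_right (hcube : ∀ x, r (r (r x)) = x) (x y : X) :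
    qd d r x (r y) = qd d r x y := by
  unfold qd
  rw [hcube y]
  rw [min_comm (d x (r (r y))) (d x y), ← min_assoc, min_comm (d x (r y)) (d x y), min_assoc]

private theorem qmp_symm (hsymm : ∀ x y, d x y = d y x) (hinv : ∀ x y, d (r x) (r y) = d x y)
    (hcube : ∀ x, r (r (r x)) = x) (x y : X) : qd d r x y = qd d r y x := by
  unfold qd
  have h1 : d x (r y) = d y (r (r x)) := by
    rw [hsymm x (r y), ← hinv (r y) x, ← hinv (r (r y)) (r x), hcube y]
  have h2 : d x (r (r y)) = d y (r x) := by
    rw [hsymm x (r (r y)), ← hinv (r (r y)) x, hcube y]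
  rw [h1, h2, hsymm x y, min_comm (d y (r (r x))) (d y (r x))]

private theorem qmp_left (hsymm : ∀ x y, d x y = d y x) (hinv : ∀ x y, d (r x) (r y) = d x y)
    (hcube : ∀ x, r (r (r x)) = x) (x y : X) : qd d r (r x) y = qd d r x y := by
  rw [qmp_symm hsymm hinv hcube, qmp_right hcube, qmp_symm hsymm hinv hcube]

private theorem qmp_exists (x y : X) :
    ∃ w, (w = y ∨ w = r y ∨ w = r (r y)) ∧ qd d r x y = d x w := by
  unfold qd
  rcases min_choice (d x y) (min (d x (r y)) (d x (r (r y)))) with h | h
  · exact ⟨y, Or.inl rfl, h⟩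
  · rcases min_choice (d x (r y)) (d x (r (r y))) with h' | h'
    · exact ⟨r y, Or.inr (Or.inl rfl), by rw [h, h']⟩
    · exact ⟨r (r y), Or.inr (Or.inr rfl), by rw [h, h']⟩

private theorem qmp_le (x y : X) : qd d r x y ≤ d x y := min_le_left _ _

private theorem qmp_tri (hsymm : ∀ x y, d x y = d y x)
    (htri : ∀ x y z, d x z ≤ d x y + d y z) (hinv : ∀ x y, d (r x) (r y) = d x y)
    (hcube : ∀ x, r (r (r x)) = x) (x y z : X) :
    qd d r x z ≤ qd d r x y + qd d r y z := by
  obtain ⟨w, hw, hxy⟩ := qmp_exists (d := d) (r := r) x y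
  have h1 : qd d r y z = qd d r w z := by
    rcases hw with rfl | rfl | rfl
    · rfl
    · rw [qmp_left hsymm hinv hcube]
    · rw [qmp_left hsymm hinv hcube, qmp_left hsymm hinv hcube]
  obtain ⟨v, hv, hwz⟩ := qmp_exists (d := d) (r := r) w z
  have h2 : qd d r x z = qd d r x v := by
    rcases hv with rfl | rfl | rfl
    · rfl
    · rw [qmp_right hcube]
    · rw [qmp_right hcube, qmp_right hcube]
  rw [h2, hxy, h1, hwz]
  exact (qmp_le x v).trans (htri x w v)

theorem exists_Q [Nonempty X] (hrefl : ∀ x, d x x = 0) (hsymm : ∀ x y, d x y = d y x)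
    (htri : ∀ x y z, d x z ≤ d x y + d y z) (hinv : ∀ x y, d (r x) (r y) = d x y)
    (hcube : ∀ x, r (r (r x)) = x) (hfib : ∀ x y, Pi x = Pi y → y = x ∨ y = r x ∨ y = r (r x)) :
    ∃ (Y : Type) (_ : MetricSpace Y) (Q : ℂ → Y),
      ∀ x y, dist (Q (Pi x)) (Q (Pi y)) = qd d r x y := by
  classical
  have hnn : ∀ x y, 0 ≤ d x y := fun x y => by
    have h := htri x y x
    rw [hrefl, hsymm y x] at h
    linarith
  have hq0 : ∀ x, qd d r x x = 0 := fun x => by
    apply le_antisymm
    · exact (qmp_le x x).trans (hrefl x).le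
    · exact le_min (hnn _ _) (le_min (hnn _ _) (hnn _ _))
  let _ : PseudoMetricSpace X :=
    { dist := qd d r
      dist_self := hq0
      dist_comm := qmp_symm hsymm hinv hcube
      dist_triangle := qmp_tri hsymm htri hinv hcube }
  have hdist : ∀ x y : X, dist x y = qd d r x y := fun _ _ => rfl
  let c : ℂ → X := fun z => if h : ∃ x, Pi x = z then h.choose else Classical.arbitrary X
  have hc : ∀ x, Pi (c (Pi x)) = Pi x := fun x => by
    have h : ∃ y, Pi y = Pi x := ⟨x, rfl⟩
    simp only [c, dif_pos h]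
    exact h.choose_spec
  have hcl : ∀ x y, qd d r (c (Pi x)) y = qd d r x y := fun x y => by
    rcases hfib x (c (Pi x)) (hc x).symm with h | h | h
    · rw [h]
    · rw [h, qmp_left hsymm hinv hcube]
    · rw [h, qmp_left hsymm hinv hcube, qmp_left hsymm hinv hcube]
  refine ⟨SeparationQuotient X, inferInstance, fun z => SeparationQuotient.mk (c z), fun x y => ?_⟩
  rw [SeparationQuotient.dist_mk, hdist, hcl, qmp_symm hsymm hinv hcube, hcl,
    qmp_symm hsymm hinv hcube]

end Pool.Agent.TRG
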