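import Mathlib
import Pool.Agent.TRG.Defs
import Pool.Agent.TRG.ACT
import Pool.Agent.TRG.FPA
import Pool.Agent.TRG.FPB
import Pool.Agent.TRG.PLD
import Pool.Agent.MIR.Pl
import Pool.Agent.MIR.Out

open MeasureTheory Set Filter Topology Manifold
open scoped ENNReal NNReal ContDiff
open Pool.Agent.MIR (cis cp hol Jw Pic Tan PL ip gd)
open Pool.Agent.H74.Surf

noncomputable section

namespace Pool.Agent.TRG

variable {X : Type} {d : X → X → ℝ} {r : X → X} {Pi : X → ℂ} {P : Finset ℂ} {φ : ℝ → X}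

/-- A curve in the disc followed by an arc of the unit circle. -/
private theorem join_arc {Y : Type} [MetricSpace Y] {Ψ : ℂ → Y}
    (hd : ∀ x y : ℝ, dist (Ψ (cis x)) (Ψ (cis y)) ≤ |x - y|) {γ : ℝ → ℂ} {a b s t : ℝ}
    (hab : a ≤ b) (hγ : ContinuousOn γ (Icc a b))
    (hS : MapsTo γ (Icc a b) (Metric.closedBall 0 1)) (ha : γ a = cis s) (hb : γ b = cis t)
    {e : ℝ} (hte : t ≤ e) :
    ∃ c : ℝ → ℂ, ContinuousOn c (Icc 0 1) ∧ (∀ u ∈ Icc (0 : ℝ) 1, ‖c u‖ ≤ 1) ∧
      c 0 = cis s ∧ c 1 = cis e ∧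
      eVariationOn (Ψ ∘ c) (Icc 0 1) ≤
        eVariationOn (Ψ ∘ γ) (Icc a b) + ENNReal.ofReal (e - t) := by
  set g1 : ℝ → ℝ := fun u => a + 2 * u * (b - a) with hg1
  set g2 : ℝ → ℝ := fun u => t + (2 * u - 1) * (e - t) with hg2
  set c : ℝ → ℂ := fun u => if u ≤ 1 / 2 then γ (g1 u) else cis (g2 u) with hc
  have e1 : EqOn c (γ ∘ g1) (Icc 0 (1 / 2)) := fun u hu => by
    have := hu.2
    simp only [hc, this, if_true, Function.comp]
  have e2 : EqOn c (cis ∘ g2) (Icc (1 / 2) 1) := fun u hu => by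
    simp only [hc, Function.comp]
    split_ifs with h
    · have h' : u = 1 / 2 := le_antisymm h hu.1
      have h1 : g1 u = b := by rw [h']; simp only [hg1]; ring
      have h2 : g2 u = t := by rw [h']; simp only [hg2]; ring
      rw [h1, h2, hb]
    · rfl
  have m1 : MapsTo g1 (Icc 0 (1 / 2)) (Icc a b) := fun u hu => by
    simp only [mem_Icc] at hu ⊢
    simp only [hg1]
    constructor
    · nlinarith [mul_nonneg hu.1 (sub_nonneg.2 hab)]
    · nlinarith [mul_nonneg (sub_nonneg.2 hu.2) (sub_nonneg.2 hab)]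
  have mono1 : MonotoneOn g1 (Icc 0 (1 / 2)) := fun x _ y _ hxy => by
    simp only [hg1]
    nlinarith [mul_nonneg (sub_nonneg.2 hxy) (sub_nonneg.2 hab)]
  have hU : Icc (0 : ℝ) (1 / 2) ∪ Icc (1 / 2) 1 = Icc 0 1 :=
    Icc_union_Icc_eq_Icc (by norm_num) (by norm_num)
  refine ⟨c, ?_, ?_, ?_, ?_, ?_⟩
  · rw [← hU]
    refine ContinuousOn.union_of_isClosed ?_ ?_ isClosed_Icc isClosed_Icc
    · exact (hγ.comp (by fun_prop) m1).congr e1
    · exact (Pool.Agent.MIR.continuous_cis.comp (by fun_prop)).continuousOn.congr e2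
  · intro u hu
    rw [← hU] at hu
    rcases hu with hu | hu
    · rw [e1 hu]
      simpa using hS (m1 hu)
    · rw [e2 hu]
      exact (Pool.Agent.MIR.norm_cis _).le
  · rw [e1 (by norm_num)]
    simp only [Function.comp, hg1]
    rw [show a + 2 * 0 * (b - a) = a by ring, ha]
  · rw [e2 (by norm_num)]
    simp only [Function.comp, hg2]
    rw [show t + (2 * 1 - 1) * (e - t) = e by ring]
  · have h1 := eVariationOn.Icc_add_Icc (Ψ ∘ c) (s := univ) (a := (0 : ℝ)) (b := 1 / 2) (c := 1)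
      (by norm_num) (by norm_num) (mem_univ _)
    simp only [univ_inter] at h1
    rw [← h1]
    refine add_le_add ?_ ?_
    · have h2 : eVariationOn (Ψ ∘ c) (Icc 0 (1 / 2)) =
          eVariationOn ((Ψ ∘ γ) ∘ g1) (Icc 0 (1 / 2)) :=
        eVariationOn.eq_of_eqOn fun u hu => by
          have := e1 hu
          simp only [Function.comp] at this ⊢
          rw [this]
      rw [h2]
      exact eVariationOn.comp_le_of_monotoneOn (Ψ ∘ γ) _ mono1 m1
    · have h2 : eVariationOn (Ψ ∘ c) (Icc (1 / 2) 1) =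
          eVariationOn (Ψ ∘ cis ∘ g2) (Icc (1 / 2) 1) :=
        eVariationOn.eq_of_eqOn fun u hu => by
          have := e2 hu
          simp only [Function.comp] at this ⊢
          rw [this]
      rw [h2]
      have h3 := Pool.Agent.MIR.pl_var_le (g := Ψ ∘ cis ∘ g2) (a := 1 / 2) (b := 1) (by norm_num)
        (K := 2 * (e - t)) (by linarith) ?_
      · refine h3.trans (ENNReal.ofReal_le_ofReal (by linarith))
      · intro x _ y _
        refine (hd (g2 x) (g2 y)).trans (le_of_eq ?_)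
        simp only [hg2]
        rw [show t + (2 * x - 1) * (e - t) - (t + (2 * y - 1) * (e - t)) = (2 * (e - t)) * (x - y)
          by ring, abs_mul, abs_of_nonneg (by linarith : (0 : ℝ) ≤ 2 * (e - t))]

theorem short_curve (F : Fill d r Pi P φ) {Y : Type} [MetricSpace Y] {Q : ℂ → Y}
    (hQ : ∀ x y, dist (Q (Pi x)) (Q (Pi y)) = qd d r x y) {K : ℝ≥0} {p : ℂ} (hp : p ∈ P)
    (hL : LipschitzOnWith K (Q ∘ Fp p) (Metric.closedBall 0 1))
    (hne : ¬∀ s t : ℝ, (PL (Q ∘ Fp p) (Q ∘ Fp p) (Metric.closedBall 0 1) (cis s) (cis t)).toReal =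
      ‖((s - t : ℝ) : AddCircle (2 * Real.pi))‖) :
    ∃ (c : ℝ → ℂ) (s : ℝ), ContinuousOn c (Icc 0 1) ∧ (∀ u ∈ Icc (0 : ℝ) 1, ‖c u‖ ≤ 1) ∧
      c 0 = cis s ∧ c 1 = cis (s + Real.pi) ∧
      eVariationOn (Q ∘ Fp p ∘ c) (Icc 0 1) < ENNReal.ofReal Real.pi := by
  have hpi := Real.pi_pos
  have hd : ∀ x y : ℝ, dist ((Q ∘ Fp p) (cis x)) ((Q ∘ Fp p) (cis y)) ≤ |x - y| := by
    intro x y
    simp only [Function.comp_apply, Fp_cis]
    rw [← F.bdry x, ← F.bdry y, hQ]
    exact (min_le_left _ _).trans (F.lip x y)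
  have hup : ∀ x y : ℝ, x ≤ y →
      PL (Q ∘ Fp p) (Q ∘ Fp p) (Metric.closedBall 0 1) (cis x) (cis y) ≤
        ENNReal.ofReal (y - x) := by
    intro x y hxy
    have := Pool.Agent.MIR.pl_le (Q ∘ Fp p) (Q ∘ Fp p) (S := Metric.closedBall 0 1) (γ := cis) hxy
      Pool.Agent.MIR.continuous_cis.continuousOn
      (fun t _ => by simp [Pool.Agent.MIR.norm_cis]) (K := 1) (K' := 1)
      zero_le_one zero_le_one (fun s _ t _ => by simpa using hd s t)
      (fun s _ t _ => by simpa using hd s t)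
    simpa using this
  have claim : ∃ s t : ℝ, s ≤ t ∧ t ≤ s + Real.pi ∧
      PL (Q ∘ Fp p) (Q ∘ Fp p) (Metric.closedBall 0 1) (cis s) (cis t) <
        ENNReal.ofReal (t - s) := by
    by_contra H
    push Not at H
    apply hne
    have heq : ∀ s t : ℝ, s ≤ t → t ≤ s + Real.pi →
        (PL (Q ∘ Fp p) (Q ∘ Fp p) (Metric.closedBall 0 1) (cis s) (cis t)).toReal = t - s := by
      intro s t h1 h2
      rw [le_antisymm (hup s t h1) (H s t h1 h2), ENNReal.toReal_ofReal (by linarith)]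
    intro s t
    set k : ℤ := round ((2 * Real.pi)⁻¹ * (s - t)) with hk
    have hnorm : ‖((s - t : ℝ) : AddCircle (2 * Real.pi))‖ = |s - (t + k * (2 * Real.pi))| := by
      rw [AddCircle.norm_eq, ← hk]
      congr 1
      ring
    have hcis : cis (t + k * (2 * Real.pi)) = cis t :=
      (Function.Periodic.int_mul (f := cis) (c := 2 * Real.pi)
        Pool.Agent.MIR.cis_add_two_pi k) t
    have hsmall : |s - (t + k * (2 * Real.pi))| ≤ Real.pi := by
      have h1 := abs_sub_round ((2 * Real.pi)⁻¹ * (s - t))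
      rw [← hk] at h1
      have h2 : s - (t + k * (2 * Real.pi)) =
          (2 * Real.pi) * ((2 * Real.pi)⁻¹ * (s - t) - k) := by
        field_simp
        ring
      rw [h2, abs_mul, abs_of_pos (by linarith : (0 : ℝ) < 2 * Real.pi)]
      nlinarith
    rw [hnorm, ← hcis]
    set t' := t + k * (2 * Real.pi) with ht'
    rcases le_total s t' with h | h
    · have h3 := hsmall
      rw [abs_of_nonpos (by linarith)] at h3
      rw [heq s t' h (by linarith), abs_of_nonpos (by linarith)]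
      ring
    · have h3 := hsmall
      rw [abs_of_nonneg (by linarith)] at h3
      rw [Pool.Agent.MIR.pl_symm, heq t' s h (by linarith), abs_of_nonneg (by linarith)]
  obtain ⟨s, t, hst, hts, hlt⟩ := claim
  have hlt' := hlt
  conv_lhs at hlt' => rw [PL]
  simp only [iInf_lt_iff] at hlt'
  obtain ⟨γ, a, b, ⟨hab, hγ, hS, ha, hb⟩, hV⟩ := hlt'
  rw [ENNReal.add_div, ENNReal.add_halves] at hV
  obtain ⟨c, hcc, hc1, hc0, hce, hcv⟩ := join_arc hd hab hγ hS ha hb hts
  refine ⟨c, s, hcc, hc1, hc0, hce, ?_⟩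
  refine lt_of_le_of_lt hcv ?_
  have h4 : ENNReal.ofReal Real.pi =
      ENNReal.ofReal (t - s) + ENNReal.ofReal (s + Real.pi - t) := by
    rw [← ENNReal.ofReal_add (by linarith) (by linarith)]
    congr 1
    ring
  rw [h4]
  exact ENNReal.add_lt_add_right ENNReal.ofReal_ne_top hV

end Pool.Agent.TRG
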