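import Mathlib
import Pool.Agent.TRG.Defs
import Pool.Agent.TRG.ACT
import Pool.Agent.TRG.FPA
import Pool.Agent.TRG.FPB
import Pool.Agent.TRG.QMP
import Pool.Agent.TRG.MCV
import Pool.Agent.TRG.ARE
import Pool.Agent.TRG.MDC
import Pool.Agent.TRG.SHO
import Pool.Agent.TRG.LOP
import Pool.Agent.TRG.CMB

/-
FIN: the theorem (final assembly, helper81).
-/

open MeasureTheory Set Filter Topology Manifold
open scoped ENNReal NNReal ContDiff
open Pool.Agent.MIR (cis cp hol Jw Pic Tan PL ip gd)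
open Pool.Agent.H74.Surf

noncomputable section

namespace Pool.Agent.TRG

variable {M : Type} [MetricSpace M] [ChartedSpace (EuclideanHalfSpace 2) M]
  [R : RiemannianSpace (𝓡∂ 2) M]

theorem trigonal [CompactSpace M] {φ : S1 → M} (hφ : IsometricFilling (𝓡∂ 2) φ) {r : M → M}
    {P : Finset ℂ} {Pi : M → ℂ} (hr : CRot φ r) (hD : DiscQ φ r P Pi) :
    ENNReal.ofReal (2 * Real.pi) ≤ area M := by
  by_contra hcon
  rw [not_le] at hcon
  have F := fill_M hφ hr hD
  have hfib : ∀ x y, Pi x = Pi y → y = x ∨ y = r x ∨ y = r (r x) :=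
    fun x y h => (hD.fibre x y).1 h
  haveI : Nonempty M := ⟨φ 0⟩
  obtain ⟨Y, _, Q, hQ⟩ := exists_Q F.refl F.symm F.tri F.inv F.cube hfib
  obtain ⟨K, hK⟩ := Q_lip hr hD hQ
  refine comb F fun p hp => ?_
  have hp1 : ‖p‖ < 1 := hD.inner p hp
  have hmaps : MapsTo (Fp p) (Metric.closedBall 0 1) (Metric.closedBall 0 1) := by
    intro w hw
    rw [mem_closedBall_zero_iff] at hw ⊢
    exact Fp_norm_le hp1.le hw
  have hL : LipschitzOnWith (K * 6) (Q ∘ Fp p) (Metric.closedBall 0 1) :=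
    hK.comp (Fp_lip hp1.le) hmaps
  have hne : ¬∀ s t : ℝ, (PL (Q ∘ Fp p) (Q ∘ Fp p) (Metric.closedBall 0 1) (cis s)
      (cis t)).toReal = ‖((s - t : ℝ) : AddCircle (2 * Real.pi))‖ := by
    intro hcirc
    obtain ⟨T, hT, hA⟩ := area_pull hr hD hQ hp
    have hZ : volume (Fp p ⁻¹' (P : Set ℂ)) = 0 := (Fp_finite hp1 P).measure_zero _
    exact absurd ((metric_disc hL hcirc T hZ fun w hw hwZ => hT w hw fun h => hwZ h).trans hA)
      (not_le.2 hcon)
  obtain ⟨c, s, hc, hc1, h0, h1, hv⟩ := short_curve F hQ hp hL hne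
  exact loops F hQ hfib (fix_pt hD) hK hp hc hc1 h0 h1 hv

end Pool.Agent.TRG
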